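import Pool.Agent.H44.GW.Hyper
import Pool.Agent.H44.GW.Main
import Pool.Agent.H98.FJ.P.Ext0
import Pool.Agent.H13.TFG.RaagLF

/-!
# The class
-/

set_option autoImplicit false

namespace Pool.Agent.H13.BD

open Pool.Agent.H98.FJ Pool.Agent.H44.GW Pool.Agent.H13.TFG

/-- Proof: apply `hE` to the range restriction of `f`: the range is in `C` (`hC.sub`), and the preimage of a virtually
cyclic subgroup `V` of the range is the preimage of its image in `Q`, which is isomorphic to `V`. -/
theorem inheritsExt {C : (G : Type) → [Group G] → Prop} (hC : Inherits C) (hE : Extension C) :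
    InheritsExt C where
  toInherits := hC
  ext := by
    intro E Q _ _ f hQ h
    refine hE E f.range f.rangeRestrict f.rangeRestrict_surjective (hC.sub Q f.range hQ) ?_
    rintro V ⟨v, hv⟩
    have hinj : Function.Injective f.range.subtype := Subtype.val_injective
    let e : V ≃* V.map f.range.subtype := V.equivMapOfInjective f.range.subtype hinj
    have h1 : IsVirtuallyCyclic (V.map f.range.subtype) := by
      refine ⟨e v, ?_⟩
      have h2 : Subgroup.zpowers (e v) = (Subgroup.zpowers v).map (e : V →* V.map f.range.subtype) := by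
        rw [MonoidHom.map_zpowers]
        rfl
      rw [h2]
      refine ⟨?_⟩
      rw [Subgroup.index_map_equiv]
      exact hv.index_ne_zero
    have h3 := h _ h1
    have h4 : (V.map f.range.subtype).comap f = V.comap f.rangeRestrict := by
      ext x
      rw [Subgroup.mem_comap, Subgroup.mem_comap]
      constructor
      · rintro ⟨y, hy, hxy⟩
        have h5 : y = f.rangeRestrict x := Subtype.ext hxy
        rwa [← h5]
      · intro hx
        exact ⟨_, hx, rfl⟩
    rw [← h4]
    exact h3

/-- Proof: `raag`: for a finite graph `Γ` the homomorphism `RAAG Γ →* GP (Multiplicative ℤ) Γ.Adj` (`raagLift`, the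
generator of `v` goes to `GP.of _ _ v (Multiplicative.ofAdd 1)`) has a left inverse (`GP.lift`, `zpowersHom`), and
`GP (Multiplicative ℤ) Γ.Adj` embeds in `W (Multiplicative ℤ) Γ.Adj ρ hr` for the trivial group (`G := PUnit` or any
finite group acting trivially), which is in `C` by `InheritsExt.W_mem`, `hC.int`, `hC.fin`. -/
theorem raagClass {C : (G : Type) → [Group G] → Prop} (hC : InheritsExt C) : RaagClass C where
  iso := hC.iso
  raag := by
    intro V _ Γ
    let f : RAAG Γ →* GP (Multiplicative ℤ) Γ.Adj :=
      raagLift Γ (fun v => GP.of (Multiplicative ℤ) Γ.Adj v (Multiplicative.ofAdd 1))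
        (fun v w h => GP.of_commute Γ.Adj h _ _)
    let g : GP (Multiplicative ℤ) Γ.Adj →* RAAG Γ :=
      GP.lift Γ.Adj (fun v => zpowersHom (RAAG Γ) (gen Γ v)) (by
        intro v w h a b
        have h1 : Commute (gen Γ v) (gen Γ w) := gen_comm h
        exact (h1.zpow_zpow (Multiplicative.toAdd a) (Multiplicative.toAdd b)).eq)
    have hgf : g.comp f = MonoidHom.id _ := by
      apply raag_ext
      intro v
      show g (f (gen Γ v)) = gen Γ v
      have h1 : f (gen Γ v) = GP.of (Multiplicative ℤ) Γ.Adj v (Multiplicative.ofAdd 1) :=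
        raagLift_gen _ _ _ _
      rw [h1]
      have h2 : g (GP.of (Multiplicative ℤ) Γ.Adj v (Multiplicative.ofAdd 1)) =
          zpowersHom (RAAG Γ) (gen Γ v) (Multiplicative.ofAdd 1) := GP.lift_of _ _ _ _ _
      rw [h2, zpowersHom_apply, toAdd_ofAdd, zpow_one]
    have hf : Function.Injective f := by
      intro x y hxy
      have h1 := DFunLike.congr_fun hgf x
      have h2 := DFunLike.congr_fun hgf y
      change g (f x) = x at h1
      change g (f y) = y at h2
      rw [← h1, ← h2, hxy]
    have hr : ∀ (g : PUnit.{1}) (v w : V), Γ.Adj v w →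
        Γ.Adj ((1 : PUnit.{1} →* Equiv.Perm V) g v) ((1 : PUnit.{1} →* Equiv.Perm V) g w) :=
      fun _ _ _ h => h
    have hW : C (W (Multiplicative ℤ) Γ.Adj (1 : PUnit.{1} →* Equiv.Perm V) hr) :=
      hC.W_mem hr (fun v w h => h.ne) hC.int (hC.fin PUnit.{1} inferInstance)
    let i : GP (Multiplicative ℤ) Γ.Adj →*
        W (Multiplicative ℤ) Γ.Adj (1 : PUnit.{1} →* Equiv.Perm V) hr := SemidirectProduct.inl
    have hi : Function.Injective (i.comp f) :=
      SemidirectProduct.inl_injective.comp hf
    exact hC.inherits.of_injective (i.comp f) hi hW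
  sub := hC.sub
  index := hC.index
  colim := hC.colim

private theorem lfKernel_surj {C : (G : Type) → [Group G] → Prop} (hC : InheritsExt C) {E Q : Type}
    [Group E] [Group Q] (q : E →* Q) (hq : Function.Surjective q) (hQ : C Q) (hA : LF q.ker) :
    C E := by
  refine hC.ext_cyclic q hq hQ ?_
  intro g
  obtain ⟨u, rfl⟩ := hq g
  by_cases hfin : IsOfFinOrder (q u)
  · refine hC.comap_relIndex q hq ⊥ _ bot_le ?_ ?_
    · have h3 : Finite (Subgroup.zpowers (q u)) := finite_zpowers.2 hfin
      rw [Subgroup.relIndex_bot_left]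
      exact Nat.card_pos.ne'
    · exact hC.locFin hA
  · let φ : Multiplicative ℤ →* MulAut q.ker := MulAut.conjNormal.comp (zpowersHom E u)
    let Θ : q.ker ⋊[φ] Multiplicative ℤ →* E :=
      SemidirectProduct.lift q.ker.subtype (zpowersHom E u) (by
        intro n
        apply MonoidHom.ext
        intro a
        change ((MulAut.conjNormal (zpowersHom E u n) a : q.ker) : E) = _
        rw [MulAut.conjNormal_apply]
        rfl)
    have hΘ : ∀ (a : q.ker) (n : ℤ), Θ ⟨a, Multiplicative.ofAdd n⟩ = a * u ^ n := by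
      intro a n
      rw [SemidirectProduct.mk_eq_inl_mul_inr, map_mul]
      change SemidirectProduct.lift _ _ _ (SemidirectProduct.inl a) *
        SemidirectProduct.lift _ _ _ (SemidirectProduct.inr (Multiplicative.ofAdd n)) = _
      rw [SemidirectProduct.lift_inl, SemidirectProduct.lift_inr, zpowersHom_apply, toAdd_ofAdd]
      rfl
    have hinj : Function.Injective Θ := by
      rw [injective_iff_map_eq_one]
      rintro ⟨a, n⟩ h
      obtain ⟨n, rfl⟩ := Multiplicative.ofAdd.surjective n
      rw [hΘ] at h
      have h1 : q u ^ n = 1 := by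
        have h2 := congrArg q h
        have h3 : q (a : E) = 1 := a.2
        rw [map_mul, h3, one_mul, map_zpow, map_one] at h2
        exact h2
      have h2 : n = 0 := by
        have h3 := injective_zpow_iff_not_isOfFinOrder.2 hfin
        exact h3 (by change q u ^ n = q u ^ (0 : ℤ); rw [h1, zpow_zero])
      subst h2
      rw [zpow_zero, mul_one] at h
      have h3 : a = 1 := Subtype.ext h
      rw [h3]
      rfl
    have hr : Θ.range = (Subgroup.zpowers (q u)).comap q := by
      ext x
      constructor
      · rintro ⟨⟨a, n⟩, rfl⟩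
        obtain ⟨n, rfl⟩ := Multiplicative.ofAdd.surjective n
        rw [hΘ, Subgroup.mem_comap, map_mul]
        have h3 : q (a : E) = 1 := a.2
        rw [h3, one_mul, map_zpow]
        exact Subgroup.zpow_mem_zpowers _ n
      · intro hx
        obtain ⟨n, hn⟩ := Subgroup.mem_zpowers_iff.1 (Subgroup.mem_comap.1 hx)
        refine ⟨⟨⟨x * (u ^ n)⁻¹, ?_⟩, Multiplicative.ofAdd n⟩, ?_⟩
        · rw [MonoidHom.mem_ker, map_mul, map_inv, map_zpow, hn, mul_inv_cancel]
        · rw [hΘ]
          exact inv_mul_cancel_right x (u ^ n)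
    rw [← hr]
    exact hC.iso _ _ (MonoidHom.ofInjective hinj) (hC.semidirect_LF hA φ)

/-- Extensions with locally finite kernel: the second half of the proof of `InheritsExt.onestep` in
`Pool/Agent/H44/GW/Hyper.lean` (which does not use the hypothesis about solvable groups), applied to the range
restriction of `q`. -/
theorem lfKernel {C : (G : Type) → [Group G] → Prop} (hC : InheritsExt C) {E Q : Type} [Group E]
    [Group Q] (q : E →* Q) (hQ : C q.range) (hA : LF q.ker) : C E := by
  have h1 : q.rangeRestrict.ker = q.ker := MonoidHom.ker_rangeRestrict q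
  exact lfKernel_surj hC q.rangeRestrict q.rangeRestrict_surjective hQ (by rw [h1]; exact hA)

/-- the permutations of the tokens of finitely many blocks which fix the high slots form a locally finite group: finitely
many such permutations fix all slots `(y, n)` with `n ≥ M`; the permutations with this property form a finite group -/
theorem fh_lf {Y : Type} [Finite Y] (s : Finset (Equiv.Perm (Y × ℕ)))
    (hs : ∀ q ∈ s, ∃ M, ∀ y n, M ≤ n → q (y, n) = (y, n)) :
    ∃ K : Subgroup (Equiv.Perm (Y × ℕ)), Finite K ∧ (s : Set (Equiv.Perm (Y × ℕ))) ⊆ K ∧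
      ∀ q ∈ K, ∃ M, ∀ y n, M ≤ n → q (y, n) = (y, n) := by
  classical
  choose! m hm using hs
  obtain ⟨M, hM⟩ : ∃ M : ℕ, ∀ q ∈ s, m q ≤ M := ⟨s.sup m, fun q hq => Finset.le_sup hq⟩
  let K : Subgroup (Equiv.Perm (Y × ℕ)) :=
    { carrier := {q | ∀ y n, M ≤ n → q (y, n) = (y, n)}
      mul_mem' := by
        intro a b ha hb y n hn
        rw [Equiv.Perm.mul_apply, hb y n hn, ha y n hn]
      one_mem' := fun y n _ => rfl
      inv_mem' := by
        intro a ha y n hn
        rw [Equiv.Perm.inv_eq_iff_eq, ha y n hn] }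
  refine ⟨K, ?_, ?_, ?_⟩
  · let p : Y × ℕ → Prop := fun x => x.2 < M
    have h1 : Finite (Subtype p) := by
      refine Finite.of_injective (fun x : Subtype p => ((x.1.1, ⟨x.1.2, x.2⟩) : Y × Fin M)) ?_
      rintro ⟨⟨y, n⟩, hx⟩ ⟨⟨y', n'⟩, hx'⟩ h
      simp only [Prod.mk.injEq, Fin.mk.injEq] at h
      apply Subtype.ext
      exact Prod.ext h.1 h.2
    have h2 : Finite {f : Equiv.Perm (Y × ℕ) // ∀ a, ¬ p a → f a = a} :=
      Finite.of_equiv _ (Equiv.Perm.subtypeEquivSubtypePerm p)
    refine Finite.of_injective (fun k : K =>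
      (⟨k.1, fun a ha => k.2 a.1 a.2 (not_lt.1 ha)⟩ :
        {f : Equiv.Perm (Y × ℕ) // ∀ a, ¬ p a → f a = a})) ?_
    intro x y h
    exact Subtype.ext (congrArg (fun z : {f : Equiv.Perm (Y × ℕ) // ∀ a, ¬ p a → f a = a} => z.1) h)
  · intro q hq y n hn
    exact hm q hq y n ((hM q hq).trans hn)
  · intro q hq
    exact ⟨M, hq⟩

end Pool.Agent.H13.BD
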