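import Pool.Agent.H13.BD.Words

/-!
# High slots
-/

set_option autoImplicit false

open Classical

namespace Pool.Agent.H13.BD

variable {V : Type}

/-- the statement of `flx` -/
def FlxP (p : PP V) : Prop := ∃ (M : ℕ) (k : V → V → ℤ), ∀ (S : Sys V) (y : S.Z) (n : ℕ),
    M ≤ n → ∃ n' : ℕ, (n' : ℤ) = n + k (S.c y) (S.c (S.T y)) ∧ S.Ph p (y, n) = (y, n')

theorem flx_bd [Finite V] (k : V → V → ℤ) : ∃ K : ℕ, ∀ v w, |k v w| ≤ K := by
  have h1 : (Set.range fun x : V × V => (k x.1 x.2).natAbs).Finite := Set.finite_range _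
  obtain ⟨K, hK⟩ := h1.bddAbove
  refine ⟨K, fun v w => ?_⟩
  have h2 : (k v w).natAbs ≤ K := hK ⟨(v, w), rfl⟩
  rw [Int.abs_eq_natAbs]
  exact_mod_cast h2

theorem flx_one : FlxP (1 : PP V) := by
  refine ⟨0, fun _ _ => 0, fun S y n _ => ⟨n, ?_, ?_⟩⟩
  · rw [add_zero]
  · rw [map_one, Equiv.Perm.one_apply]

theorem flx_mul [Finite V] (p q : PP V) (hp : FlxP p) (hq : FlxP q) : FlxP (p * q) := by
  obtain ⟨M, k, h1⟩ := hp
  obtain ⟨M', k', h2⟩ := hq
  obtain ⟨K, hK⟩ := flx_bd k'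
  refine ⟨M' + M + K, fun v w => k v w + k' v w, fun S y n hn => ?_⟩
  obtain ⟨n', h3, h4⟩ := h2 S y n (by omega)
  have h5 := abs_le.1 (hK (S.c y) (S.c (S.T y)))
  obtain ⟨n'', h6, h7⟩ := h1 S y n' (by omega)
  refine ⟨n'', ?_, ?_⟩
  · rw [h6, h3]
    ring
  · rw [map_mul, Equiv.Perm.mul_apply, h4, h7]

theorem flx_inv [Finite V] (p : PP V) (hp : FlxP p) : FlxP p⁻¹ := by
  obtain ⟨M, k, h1⟩ := hp
  obtain ⟨K, hK⟩ := flx_bd k
  refine ⟨M + K, fun v w => -k v w, fun S y n hn => ?_⟩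
  have h5 := abs_le.1 (hK (S.c y) (S.c (S.T y)))
  obtain ⟨m, hm⟩ : ∃ m : ℕ, (m : ℤ) = n - k (S.c y) (S.c (S.T y)) :=
    ⟨((n : ℤ) - k (S.c y) (S.c (S.T y))).toNat, Int.toNat_of_nonneg (by omega)⟩
  refine ⟨m, ?_, ?_⟩
  · rw [hm]
    ring
  · obtain ⟨n', h3, h4⟩ := h1 S y m (by omega)
    have h6 : n' = n := by omega
    rw [h6] at h4
    rw [map_inv, Equiv.Perm.inv_eq_iff_eq, h4]

theorem flx_inl [Finite V] (e : V → V → Fin1) : FlxP (FreeGroup.of (Sum.inl e) : PP V) := by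
  choose M hM using fun v w => (e v w).2
  have h1 : (Set.range fun x : V × V => M x.1 x.2).Finite := Set.finite_range _
  obtain ⟨K, hK⟩ := h1.bddAbove
  refine ⟨K, fun _ _ => 0, fun S y n hn => ⟨n, by rw [add_zero], ?_⟩⟩
  have h2 : M (S.c y) (S.c (S.T y)) ≤ K := hK ⟨(S.c y, S.c (S.T y)), rfl⟩
  have h3 := hM (S.c y) (S.c (S.T y)) n (h2.trans hn)
  unfold Sys.Ph
  rw [FreeGroup.lift_apply_of, Sum.elim_inl, Sys.bF_apply]
  exact Prod.ext rfl h3

theorem flx_inr (A : Set V) : FlxP (FreeGroup.of (Sum.inr A) : PP V) := by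
  refine ⟨1, fun v w => (ii (v ∈ A) : ℤ) - ii (w ∈ A), fun S y n hn => ?_⟩
  have h0 : ¬ (S.T y ∈ S.c ⁻¹' A ∧ n = 0) := fun h => by omega
  refine ⟨n - ii (S.T y ∈ S.c ⁻¹' A) + ii (y ∈ S.c ⁻¹' A), ?_, ?_⟩
  · have h2 : ii (S.T y ∈ S.c ⁻¹' A) = ii (S.c (S.T y) ∈ A) := rfl
    have h3 : ii (y ∈ S.c ⁻¹' A) = ii (S.c y ∈ A) := rfl
    have h4 : ii (S.c (S.T y) ∈ A) ≤ 1 := by
      unfold ii
      split_ifs <;> omega
    rw [h2, h3]
    show ((n - ii (S.c (S.T y) ∈ A) + ii (S.c y ∈ A) : ℕ) : ℤ) =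
      n + ((ii (S.c y ∈ A) : ℤ) - ii (S.c (S.T y) ∈ A))
    omega
  · unfold Sys.Ph
    rw [FreeGroup.lift_apply_of, Sum.elim_inr]
    unfold Sys.bT
    rw [tau_apply, if_neg h0]

/-- High slots are shifted by a constant which depends only on the colours of the two boundaries of the block.

Proof. `FreeGroup.induction_on`. For `1`: `M = 0`, `k = 0`. For a generator `inl e`: `M` is a common bound for the finitary
permutations `e v w` (if `V` is finite; see below), `k = 0`. For `inr A`: `M = 1`, `k v w = ii (v ∈ A) - ii (w ∈ A)`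
(`tau_apply`). For the inverse of a generator: `-k`, with `M + 1` in the second case (`tau_inv_apply`). For a product
`p * q`, (`Ph (p * q) = Ph p ∘ Ph q`): `k = k_p + k_q` and `M = M_q + M_p + K` where `K` is a bound for `|k_q|` (values are
finitely many as `V × V` is finite). -/
theorem flx [Finite V] (p : PP V) : ∃ (M : ℕ) (k : V → V → ℤ), ∀ (S : Sys V) (y : S.Z) (n : ℕ),
    M ≤ n → ∃ n' : ℕ, (n' : ℤ) = n + k (S.c y) (S.c (S.T y)) ∧ S.Ph p (y, n) = (y, n') := by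
  show FlxP p
  induction p using FreeGroup.induction_on with
  | C1 => exact flx_one
  | of x =>
    rcases x with e | A
    · exact flx_inl e
    · exact flx_inr A
  | inv_of x hx => exact flx_inv _ hx
  | mul p q hp hq => exact flx_mul p q hp hq

/-- `flx`: `k v w = 0` for all edges of `S`, hence of `R`. -/
theorem FH_of_edge [Finite V] (S R : Sys V) (hE : ∀ v w, R.Edge v w → S.Edge v w) (p : PP V)
    (h : S.Ph p ∈ FH S.Z) : R.Ph p ∈ FH R.Z := by
  obtain ⟨M, k, h1⟩ := flx p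
  obtain ⟨M', h2⟩ := h
  have hk : ∀ v w, S.Edge v w → k v w = 0 := by
    rintro v w ⟨z, rfl, rfl⟩
    obtain ⟨n', h3, h4⟩ := h1 S z (max M M') (le_max_left _ _)
    have h5 := h2 z (max M M') (le_max_right _ _)
    rw [h5] at h4
    have h6 := congrArg Prod.snd h4
    dsimp only at h6
    omega
  refine ⟨M, fun y n hn => ?_⟩
  obtain ⟨n', h3, h4⟩ := h1 R y n hn
  rw [hk _ _ (hE _ _ ⟨y, rfl, rfl⟩), add_zero] at h3
  rw [h4]
  have h5 : n' = n := by exact_mod_cast h3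
  rw [h5]

end Pool.Agent.H13.BD
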