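import Pool.Agent.H13.BD.KLF
import Pool.Agent.H13.BD.Flx
import Pool.Agent.H13.BD.Cls

/-!
# The approximations are in the class
-/

set_option autoImplicit false

open Classical

namespace Pool.Agent.H13.BD

open Pool.Agent.H98.FJ Pool.Agent.H13.TFG

/-- the elements which fix the high slots -/
noncomputable def P0 {Ω V : Type} (c : Ω × ℤ → V) : Subgroup (PP V) :=
  (FH (Ω × ℤ)).comap (ysys c).Ph

/-- the evaluation in the finite system of the recurrent edges and in the lines -/
noncomputable def jj {Ω V : Type} [Finite V] (c : Ω × ℤ → V) :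
    P0 c →* GG (ysys c).core.Z × Equiv.Perm ((Ω × ℤ) × ℕ) :=
  ((ysys c).core.ev.prod (ysys c).Ph).comp (P0 c).subtype

/-- the kernel -/
noncomputable def N0 {Ω V : Type} [Finite V] (c : Ω × ℤ → V) : Subgroup (P0 c) := (jj c).ker

noncomputable instance {Ω V : Type} [Finite V] (c : Ω × ℤ → V) : (N0 c).Normal :=
  (inferInstance : (jj c).ker.Normal)

/-- The elements of `GG Y`, `Y` finite, with right part in `FH Y`. Proof: the subgroup embeds in
`RAAG (tg Y) ⋊[raagAct (tg Y) (FH Y) _] FH Y` (`sd_mem`; `FH Y` is locally finite by `fh_lf`). -/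
theorem gg_mem {C : (G : Type) → [Group G] → Prop} (hC : RaagClass C) (Y : Type) [Finite Y] :
    C ((FH Y).comap (SemidirectProduct.rightHom : GG Y →* Equiv.Perm (Y × ℕ))) := by
  have hadj : ∀ (a : FH Y) (S S' : Lab Y), (tg Y).Adj S S' → (tg Y).Adj (a • S) (a • S') :=
    fun a S S' h => tg_smul Y (a : Equiv.Perm (Y × ℕ)) S S' h
  have h1 : C (RAAG (tg Y) ⋊[raagAct (tg Y) (FH Y) hadj] (FH Y)) := by
    refine sd_mem hC (tg Y) (FH Y) hadj ?_
    intro s
    obtain ⟨K, hK, hs, -⟩ := fh_lf (Y := Y) (s.image Subtype.val) (by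
      intro q hq
      obtain ⟨x, -, rfl⟩ := Finset.mem_image.1 hq
      exact x.2)
    refine ⟨K.comap (FH Y).subtype, ?_, ?_⟩
    · exact Finite.of_injective (fun x : K.comap (FH Y).subtype => (⟨x.1.1, x.2⟩ : K))
        (fun x y hxy => by
          have h0 : x.1.1 = y.1.1 := congrArg (fun z : K => (z : Equiv.Perm (Y × ℕ))) hxy
          exact Subtype.ext (Subtype.ext h0))
    · intro x hx
      exact hs (Finset.mem_coe.2 (Finset.mem_image_of_mem Subtype.val (Finset.mem_coe.1 hx)))
  let φ : (FH Y).comap (SemidirectProduct.rightHom : GG Y →* Equiv.Perm (Y × ℕ)) →*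
      RAAG (tg Y) ⋊[raagAct (tg Y) (FH Y) hadj] (FH Y) :=
    { toFun := fun w => ⟨w.1.left, ⟨w.1.right, w.2⟩⟩
      map_one' := rfl
      map_mul' := fun v w => rfl }
  refine hC.of_injective φ ?_ h1
  intro v w hvw
  have h2 : v.1.left = w.1.left :=
    congrArg (fun z : RAAG (tg Y) ⋊[raagAct (tg Y) (FH Y) hadj] (FH Y) => z.left) hvw
  have h3 : v.1.right = w.1.right := congrArg
    (fun z : RAAG (tg Y) ⋊[raagAct (tg Y) (FH Y) hadj] (FH Y) => (z.right : Equiv.Perm (Y × ℕ))) hvw
  exact Subtype.ext (SemidirectProduct.ext h2 h3)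

/-- Proof. `P0 c ⧸ N0 c` is isomorphic to the range of `jj c` (`QuotientGroup.quotientKerEquivRange`). Apply `lfKernel`
(with `inheritsExt hC hE`) to the first projection on this range. Its range is contained in the subgroup of `gg_mem`
(by `FH_of_edge` for `S = ysys c`, `R = core`, `Sys.core_edge`, `Sys.Rec.edge`, `ev_right`; `Sys.core_finite`;
`raagClass (inheritsExt hC hE)`). Its kernel is locally finite: a finite subset is mapped injectively by the second
projection to a finite set `s` as in `klf`. -/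
theorem apx {C : (G : Type) → [Group G] → Prop} (hC : Inherits C) (hE : Extension C)
    {Ω V : Type} [Finite V] (c : Ω × ℤ → V) : C (P0 c ⧸ N0 c) := by
  have hX : Pool.Agent.H44.GW.InheritsExt C := inheritsExt hC hE
  have hR : RaagClass C := raagClass hX
  have hfin : Finite (ysys c).core.Z := (ysys c).core_finite
  refine hC.iso (jj c).range (P0 c ⧸ N0 c) (QuotientGroup.quotientKerEquivRange (jj c)).symm ?_
  -- the first projection
  let q : (jj c).range →* GG (ysys c).core.Z :=
    (MonoidHom.fst (GG (ysys c).core.Z) (Equiv.Perm ((Ω × ℤ) × ℕ))).comp (jj c).range.subtype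
  refine lfKernel hX q ?_ ?_
  · have h1 : q.range ≤ (FH (ysys c).core.Z).comap
        (SemidirectProduct.rightHom : GG (ysys c).core.Z →* Equiv.Perm ((ysys c).core.Z × ℕ)) := by
      rintro _ ⟨⟨_, ⟨p, rfl⟩⟩, rfl⟩
      change ((ysys c).core.ev p.1).right ∈ FH (ysys c).core.Z
      rw [ev_right]
      refine FH_of_edge (ysys c) (ysys c).core ?_ p.1 p.2
      intro v w h
      exact (((ysys c).core_edge v w).1 h).edge
    exact hR.of_injective (Subgroup.inclusion h1) (Subgroup.inclusion_injective h1)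
      (gg_mem hR (ysys c).core.Z)
  · -- the kernel
    intro s hs
    let r : q.ker →* Equiv.Perm ((Ω × ℤ) × ℕ) :=
      ((MonoidHom.snd (GG (ysys c).core.Z) (Equiv.Perm ((Ω × ℤ) × ℕ))).comp
        (jj c).range.subtype).comp q.ker.subtype
    have hrinj : Function.Injective r := by
      intro x y hxy
      have hx : x.1.1.1 = 1 := x.2
      have hy : y.1.1.1 = 1 := y.2
      exact Subtype.ext (Subtype.ext (Prod.ext (hx.trans hy.symm) hxy))
    have hfin2 : (r '' s).Finite := hs.image r
    have h2 : Finite (Subgroup.closure ((hfin2.toFinset : Finset (Equiv.Perm ((Ω × ℤ) × ℕ))) :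
        Set (Equiv.Perm ((Ω × ℤ) × ℕ)))) := by
      refine klf c hfin2.toFinset ?_
      intro g hg
      obtain ⟨x, -, rfl⟩ := (Set.Finite.mem_toFinset hfin2).1 hg
      obtain ⟨⟨⟨x1, x2⟩, ⟨p, hp⟩⟩, hx⟩ := x
      have h3 : x1 = 1 := hx
      have h4 : (ysys c).core.ev p.1 = x1 := congrArg Prod.fst hp
      have h5 : (ysys c).Ph p.1 = x2 := congrArg Prod.snd hp
      have h6 : (ysys c).Ph p.1 ∈ FH (Ω × ℤ) := p.2
      refine ⟨?_, p.1, h4.trans h3, h5⟩
      change x2 ∈ FH (Ω × ℤ)
      rw [← h5]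
      exact h6
    refine ⟨(Subgroup.closure ((hfin2.toFinset : Finset (Equiv.Perm ((Ω × ℤ) × ℕ))) :
        Set (Equiv.Perm ((Ω × ℤ) × ℕ)))).comap r, ?_, ?_⟩
    · exact Finite.of_injective (fun x : (Subgroup.closure ((hfin2.toFinset :
        Finset (Equiv.Perm ((Ω × ℤ) × ℕ))) : Set (Equiv.Perm ((Ω × ℤ) × ℕ)))).comap r =>
          (⟨r x.1, x.2⟩ : Subgroup.closure ((hfin2.toFinset :
            Finset (Equiv.Perm ((Ω × ℤ) × ℕ))) : Set (Equiv.Perm ((Ω × ℤ) × ℕ)))))
        (fun x y hxy => Subtype.ext (hrinj (congrArg Subtype.val hxy)))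
    · intro x hx
      refine Subgroup.subset_closure ?_
      rw [Set.Finite.coe_toFinset]
      exact ⟨x, hx, rfl⟩

end Pool.Agent.H13.BD
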