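import Pool.Agent.H13.BD.GS

/-!
# Permutations which preserve regular blocks
-/

set_option autoImplicit false

open Classical

namespace Pool.Agent.H13.BD

/-- the coordinates block and place -/
def blkE (Ω : Type) (n : ℕ) (a : ℤ) : Ω × ℤ ≃ (Ω × ℤ) × Fin (n + 1) where
  toFun y := ((y.1, (y.2 - a) / ((n + 1 : ℕ) : ℤ)), ⟨((y.2 - a) % ((n + 1 : ℕ) : ℤ)).toNat, by
    have h1 := Int.emod_nonneg (y.2 - a) (show ((n + 1 : ℕ) : ℤ) ≠ 0 by omega)
    have h2 := Int.emod_lt_of_pos (y.2 - a) (show (0 : ℤ) < ((n + 1 : ℕ) : ℤ) by omega)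
    omega⟩)
  invFun x := (x.1.1, a + x.1.2 * ((n + 1 : ℕ) : ℤ) + x.2.val)
  left_inv y := by
    have h1 := Int.emod_nonneg (y.2 - a) (show ((n + 1 : ℕ) : ℤ) ≠ 0 by omega)
    have h3 := Int.mul_ediv_add_emod (y.2 - a) ((n + 1 : ℕ) : ℤ)
    refine Prod.ext rfl ?_
    change a + ((y.2 - a) / ((n + 1 : ℕ) : ℤ)) * ((n + 1 : ℕ) : ℤ) +
      ((((y.2 - a) % ((n + 1 : ℕ) : ℤ)).toNat : ℕ) : ℤ) = y.2
    rw [Int.toNat_of_nonneg h1, mul_comm]
    linarith
  right_inv x := by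
    obtain ⟨⟨ω, k⟩, r⟩ := x
    have hr : (r.val : ℤ) < ((n + 1 : ℕ) : ℤ) := by exact_mod_cast r.isLt
    have hr0 : (0 : ℤ) ≤ (r.val : ℤ) := by omega
    have hp : (0 : ℤ) < ((n + 1 : ℕ) : ℤ) := by omega
    have h1 : a + k * ((n + 1 : ℕ) : ℤ) + (r.val : ℤ) - a = (r.val : ℤ) + k * ((n + 1 : ℕ) : ℤ) := by
      ring
    have h2 : (a + k * ((n + 1 : ℕ) : ℤ) + (r.val : ℤ) - a) / ((n + 1 : ℕ) : ℤ) = k := by
      rw [h1, Int.add_mul_ediv_right _ _ hp.ne', Int.ediv_eq_zero_of_lt hr0 hr, zero_add]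
    have h3 : (a + k * ((n + 1 : ℕ) : ℤ) + (r.val : ℤ) - a) % ((n + 1 : ℕ) : ℤ) = r.val := by
      rw [h1, Int.add_mul_emod_self_right, Int.emod_eq_of_lt hr0 hr]
    refine Prod.ext (Prod.ext rfl h2) (Fin.ext ?_)
    change ((a + k * ((n + 1 : ℕ) : ℤ) + (r.val : ℤ) - a) % ((n + 1 : ℕ) : ℤ)).toNat = r.val
    rw [h3, Int.toNat_natCast]

/-- the permutation which acts in the block `κ` by `β κ` -/
def blkP {Ω : Type} {n : ℕ} (a : ℤ) (β : Ω × ℤ → Equiv.Perm (Fin (n + 1))) :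
    Equiv.Perm (Ω × ℤ) :=
  (blkE Ω n a).trans ((Equiv.prodCongrRight β).trans (blkE Ω n a).symm)

theorem blkP_symm {Ω : Type} {n : ℕ} (a : ℤ) (β : Ω × ℤ → Equiv.Perm (Fin (n + 1)))
    (κ : Ω × ℤ) (s : Fin (n + 1)) :
    blkP a β ((blkE Ω n a).symm (κ, s)) = (blkE Ω n a).symm (κ, β κ s) := by
  unfold blkP
  rw [Equiv.trans_apply, Equiv.apply_symm_apply]
  rfl

theorem blkP_ext {Ω : Type} {n : ℕ} (a : ℤ) (β : Ω × ℤ → Equiv.Perm (Fin (n + 1)))
    (g : Equiv.Perm (Ω × ℤ))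
    (h : ∀ κ s, g ((blkE Ω n a).symm (κ, s)) = (blkE Ω n a).symm (κ, β κ s)) : g = blkP a β := by
  apply Equiv.ext
  intro y
  obtain ⟨⟨κ, s⟩, rfl⟩ := (blkE Ω n a).symm.surjective y
  rw [h, blkP_symm]

theorem blkP_mul {Ω : Type} {n : ℕ} (a : ℤ) (β β' : Ω × ℤ → Equiv.Perm (Fin (n + 1))) :
    blkP a β * blkP a β' = blkP a (fun κ => β κ * β' κ) := by
  apply blkP_ext
  intro κ s
  rw [Equiv.Perm.mul_apply, blkP_symm, blkP_symm, Equiv.Perm.mul_apply]

theorem blkP_one {Ω : Type} {n : ℕ} (a : ℤ) :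
    blkP a (fun _ : Ω × ℤ => (1 : Equiv.Perm (Fin (n + 1)))) = 1 := by
  symm
  apply blkP_ext
  intro κ s
  rfl

theorem blk_shf {Ω : Type} {n : ℕ} (a : ℤ) (κ : Ω × ℤ) (r : Fin n) :
    shf Ω ((blkE Ω n a).symm (κ, r.castSucc)) = (blkE Ω n a).symm (κ, r.succ) := by
  refine Prod.ext rfl ?_
  change a + κ.2 * ((n + 1 : ℕ) : ℤ) + ((r.castSucc).val : ℤ) + 1 =
    a + κ.2 * ((n + 1 : ℕ) : ℤ) + ((r.succ).val : ℤ)
  rw [Fin.val_succ, Fin.val_castSucc]
  push_cast
  ring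

/-- adjacent swaps in the blocks of `D` -/
theorem blk_swap {Ω : Type} {n : ℕ} (a : ℤ) (D : Set (Ω × ℤ)) (r : Fin n) :
    blkP a (fun κ => if κ ∈ D then Equiv.swap r.castSucc r.succ else 1) ∈
      Subgroup.closure (GS Ω) := by
  apply Subgroup.subset_closure
  have hne : r.castSucc ≠ r.succ := (Fin.castSucc_lt_succ).ne
  have hmem : ∀ (κ : Ω × ℤ) (s : Fin (n + 1)), (blkE Ω n a).symm (κ, s) ∈
      {y | ∃ κ' ∈ D, y = (blkE Ω n a).symm (κ', r.castSucc)} ↔ κ ∈ D ∧ s = r.castSucc := by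
    intro κ s
    constructor
    · rintro ⟨κ', hκ', h⟩
      have h1 := (blkE Ω n a).symm.injective h
      rw [Prod.mk.injEq] at h1
      exact ⟨h1.1 ▸ hκ', h1.2⟩
    · rintro ⟨h1, rfl⟩
      exact ⟨κ, h1, rfl⟩
  have hmem2 : ∀ (κ : Ω × ℤ) (s : Fin (n + 1)), (shf Ω).symm ((blkE Ω n a).symm (κ, s)) ∈
      {y | ∃ κ' ∈ D, y = (blkE Ω n a).symm (κ', r.castSucc)} ↔ κ ∈ D ∧ s = r.succ := by
    intro κ s
    constructor
    · rintro ⟨κ', hκ', h⟩
      rw [Equiv.symm_apply_eq, blk_shf] at h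
      have h1 := (blkE Ω n a).symm.injective h
      rw [Prod.mk.injEq] at h1
      exact ⟨h1.1 ▸ hκ', h1.2⟩
    · rintro ⟨h1, rfl⟩
      refine ⟨κ, h1, ?_⟩
      rw [Equiv.symm_apply_eq, blk_shf]
  refine ⟨{y | ∃ κ' ∈ D, y = (blkE Ω n a).symm (κ', r.castSucc)}, Or.inl ⟨?_, ?_⟩⟩
  · rintro y ⟨κ, hκ, rfl⟩ h
    rw [blk_shf, hmem] at h
    exact hne h.2.symm
  · intro y
    obtain ⟨⟨κ, s⟩, rfl⟩ := (blkE Ω n a).symm.surjective y
    rw [blkP_symm]
    by_cases hκ : κ ∈ D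
    · rw [if_pos hκ]
      by_cases h1 : s = r.castSucc
      · rw [if_pos ((hmem κ s).2 ⟨hκ, h1⟩), h1, Equiv.swap_apply_left, blk_shf]
      · rw [if_neg (fun h => h1 ((hmem κ s).1 h).2)]
        by_cases h2 : s = r.succ
        · rw [if_pos ((hmem2 κ s).2 ⟨hκ, h2⟩), h2, Equiv.swap_apply_right]
          symm
          rw [Equiv.symm_apply_eq, blk_shf]
        · rw [if_neg (fun h => h2 ((hmem2 κ s).1 h).2), Equiv.swap_apply_of_ne_of_ne h1 h2]
    · rw [if_neg hκ, if_neg (fun h => hκ ((hmem κ s).1 h).1),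
        if_neg (fun h => hκ ((hmem2 κ s).1 h).1)]
      rfl

theorem blk_const {Ω : Type} {n : ℕ} (a : ℤ) (D : Set (Ω × ℤ)) (σ : Equiv.Perm (Fin (n + 1))) :
    blkP a (fun κ => if κ ∈ D then σ else 1) ∈ Subgroup.closure (GS Ω) := by
  have h1 : σ ∈ Submonoid.closure (Set.range fun i : Fin n => Equiv.swap i.castSucc i.succ) := by
    rw [Equiv.Perm.mclosure_swap_castSucc_succ]
    trivial
  induction h1 using Submonoid.closure_induction with
  | mem x hx =>
    obtain ⟨r, rfl⟩ := hx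
    exact blk_swap a D r
  | one =>
    have h2 : (fun κ : Ω × ℤ => if κ ∈ D then (1 : Equiv.Perm (Fin (n + 1))) else 1) =
        fun _ => 1 := by
      funext κ
      split_ifs <;> rfl
    rw [h2, blkP_one]
    exact one_mem _
  | mul x y _ _ hx hy =>
    have h2 := mul_mem hx hy
    rw [blkP_mul] at h2
    have h3 : (fun κ : Ω × ℤ => (if κ ∈ D then x else 1) * (if κ ∈ D then y else 1)) =
        fun κ => if κ ∈ D then x * y else 1 := by
      funext κ
      split_ifs <;> simp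
    rwa [h3] at h2

theorem blk_all {Ω : Type} {n : ℕ} (a : ℤ) (t : Finset (Equiv.Perm (Fin (n + 1)))) :
    ∀ β : Ω × ℤ → Equiv.Perm (Fin (n + 1)), (∀ κ, β κ = 1 ∨ β κ ∈ t) →
      blkP a β ∈ Subgroup.closure (GS Ω) := by
  induction t using Finset.induction_on with
  | empty =>
    intro β hβ
    have h1 : β = fun _ => 1 := by
      funext κ
      exact (hβ κ).resolve_right (Finset.notMem_empty _)
    rw [h1, blkP_one]
    exact one_mem _
  | insert σ t _ ih =>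
    intro β hβ
    have h1 := blk_const a {κ | β κ = σ} σ
    have h2 := ih (fun κ => if β κ = σ then 1 else β κ) (by
      intro κ
      by_cases h : β κ = σ
      · left
        simp only [h, if_true]
      · simp only [h, if_false]
        rcases hβ κ with h3 | h3
        · exact Or.inl h3
        · exact Or.inr ((Finset.mem_insert.1 h3).resolve_left h))
    have h3 := mul_mem h1 h2
    rw [blkP_mul] at h3
    refine (congrArg (fun b => blkP a b ∈ Subgroup.closure (GS Ω)) ?_).mp h3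
    funext κ
    by_cases h : β κ = σ
    · have h5 : κ ∈ {κ | β κ = σ} := h
      rw [if_pos h5, if_pos h, mul_one, h]
    · have h5 : κ ∉ {κ | β κ = σ} := h
      rw [if_neg h5, if_neg h, one_mul]

/-- A permutation which preserves the lines and the blocks `[a + k L, a + (k + 1) L)` is a product of generators.

Proof. For `β : Ω × ℤ → Equiv.Perm (Fin L)` let `Ψ β : Equiv.Perm (Ω × ℤ)` act in the block `(ω, k)` by `β (ω, k)`:
`Ψ β (ω, a + k L + r) = (ω, a + k L + β (ω, k) r)`. `Ψ` is a homomorphism (from the pointwise product) and `g = Ψ β` for some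
`β`. (1) For `D : Set (Ω × ℤ)` and `σ : Equiv.Perm (Fin L)` let `[D, σ] k := if k ∈ D then σ else 1`. For a fixed `D` this is a
homomorphism in `σ`, and `Equiv.Perm (Fin L)` is generated by the adjacent transpositions
(`Equiv.Perm.mclosure_swap_castSucc_succ`, for `L = n + 1`), for which `Ψ [D, swap r (r + 1)]` is the generator `IsSwap` for
`A = {(ω, a + k L + r) | (ω, k) ∈ D}`. (2) `β` is the product over `σ : Equiv.Perm (Fin L)` of the commuting
`[{k | β k = σ}, σ]`: by induction on a finset `t` of `Equiv.Perm (Fin L)`, every `β` with values in `insert 1 t` gives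
`Ψ β ∈ closure`: `β = [{β = σ}, σ] * β'` where `β'` is `1` where `β = σ` and `β` elsewhere. -/
theorem blk {Ω : Type} (L : ℕ) (hL : 0 < L) (a : ℤ) (g : Equiv.Perm (Ω × ℤ))
    (hg : ∀ y, (g y).1 = y.1 ∧ ((g y).2 - a) / L = (y.2 - a) / L) :
    g ∈ Subgroup.closure (GS Ω) := by
  obtain ⟨n, rfl⟩ : ∃ n, L = n + 1 := ⟨L - 1, by omega⟩
  have h1 : ∀ y, (blkE Ω n a (g y)).1 = (blkE Ω n a y).1 := fun y =>
    Prod.ext (hg y).1 (hg y).2
  have h2 : ∀ y, (blkE Ω n a (g.symm y)).1 = (blkE Ω n a y).1 := by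
    intro y
    have h3 := h1 (g.symm y)
    rw [Equiv.apply_symm_apply] at h3
    exact h3.symm
  let β : Ω × ℤ → Equiv.Perm (Fin (n + 1)) := fun κ =>
    { toFun := fun s => (blkE Ω n a (g ((blkE Ω n a).symm (κ, s)))).2
      invFun := fun s => (blkE Ω n a (g.symm ((blkE Ω n a).symm (κ, s)))).2
      left_inv := by
        intro s
        have h3 : (κ, (blkE Ω n a (g ((blkE Ω n a).symm (κ, s)))).2) =
            blkE Ω n a (g ((blkE Ω n a).symm (κ, s))) := by
          refine Prod.ext ?_ rfl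
          rw [h1, Equiv.apply_symm_apply]
        dsimp only
        rw [h3, Equiv.symm_apply_apply, Equiv.symm_apply_apply, Equiv.apply_symm_apply]
      right_inv := by
        intro s
        have h3 : (κ, (blkE Ω n a (g.symm ((blkE Ω n a).symm (κ, s)))).2) =
            blkE Ω n a (g.symm ((blkE Ω n a).symm (κ, s))) := by
          refine Prod.ext ?_ rfl
          rw [h2, Equiv.apply_symm_apply]
        dsimp only
        rw [h3, Equiv.symm_apply_apply, Equiv.apply_symm_apply, Equiv.apply_symm_apply] }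
  have h3 : g = blkP a β := by
    apply blkP_ext
    intro κ s
    rw [Equiv.eq_symm_apply]
    refine Prod.ext ?_ rfl
    rw [h1, Equiv.apply_symm_apply]
  rw [h3]
  exact blk_all a Finset.univ β fun κ => Or.inr (Finset.mem_univ _)

end Pool.Agent.H13.BD
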