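import Pool.Agent.H13.TFG.RaagLF

/-!
# Systems, tokens, labels, block permutations, token moves

`Y` is a set of boundaries with a permutation `T`; the block of `y` lies between the boundaries `y` and `T y`. Every
block has the slots `0, 1, 2, …` for tokens; `(y, i) : Y × ℕ` is a slot. `tau T B` moves the token of the first slot of
the block of `y` over the boundary `T y` if `T y ∈ B`. `bp e` permutes the slots in the block of `y` by `e y`.
A label is a partial function from the boundaries to the tokens; two labels are adjacent if they have no common tokens.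
`GG Y` is the semidirect product of the right-angled Artin group on the labels and the permutations of the tokens.
-/

set_option autoImplicit false

open Classical

namespace Pool.Agent.H13.BD

open Pool.Agent.H13.TFG

/-! ## labels -/

/-- labels: partial functions from the boundaries to the tokens. `Equiv.Perm (Y × ℕ)` acts on the labels by
`(h • S) b = h • S b` (Mathlib's pointwise instances). -/
abbrev Lab (Y : Type) : Type := Y → Option (Y × ℕ)

/-- the two labels have no common tokens -/
def Disj {Y : Type} (S S' : Lab Y) : Prop := ∀ b b' t, S b = some t → S' b' ≠ some t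

theorem Disj.symm {Y : Type} {S S' : Lab Y} (h : Disj S S') : Disj S' S :=
  fun b b' t h1 h2 => h b' b t h2 h1

theorem Disj.smul {Y : Type} {S S' : Lab Y} (h : Disj S S') (g : Equiv.Perm (Y × ℕ)) :
    Disj (g • S) (g • S') := by
  intro b b' t h1 h2
  rw [Pi.smul_apply] at h1 h2
  cases hS : S b with
  | none => rw [hS] at h1; exact absurd h1 (by simp)
  | some u =>
    cases hS' : S' b' with
    | none => rw [hS'] at h2; exact absurd h2 (by simp)
    | some u' =>
      rw [hS, Option.smul_some] at h1
      rw [hS', Option.smul_some] at h2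
      have h3 : g • u = g • u' := Option.some.inj (h1.trans h2.symm)
      have h4 : u = u' := smul_left_cancel g h3
      exact h b b' u hS (by rw [hS', h4])

/-- the graph of the labels: labels without common tokens are adjacent -/
def tg (Y : Type) : SimpleGraph (Lab Y) where
  Adj S S' := S ≠ S' ∧ Disj S S'
  symm := ⟨fun _ _ h => ⟨h.1.symm, h.2.symm⟩⟩
  loopless := ⟨fun _ h => h.1 rfl⟩

theorem tg_smul (Y : Type) (g : Equiv.Perm (Y × ℕ)) (S S' : Lab Y) (h : (tg Y).Adj S S') :
    (tg Y).Adj (g • S) (g • S') :=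
  ⟨fun h1 => h.1 (smul_left_cancel g h1), h.2.smul g⟩

/-- the right-angled Artin group on the labels, extended by the permutations of the tokens -/
abbrev GG (Y : Type) : Type := RAAG (tg Y) ⋊[raagAct (tg Y) (Equiv.Perm (Y × ℕ)) (tg_smul Y)]
  Equiv.Perm (Y × ℕ)

/-- the generator of a label; `1` for the empty label -/
noncomputable def g1 {Y : Type} (S : Lab Y) : RAAG (tg Y) :=
  if ∀ b, S b = none then 1 else gen (tg Y) S

theorem g1_comm {Y : Type} {S S' : Lab Y} (h : Disj S S') : g1 S * g1 S' = g1 S' * g1 S := by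
  unfold g1
  by_cases h1 : ∀ b, S b = none
  · rw [if_pos h1, one_mul, mul_one]
  · by_cases h2 : ∀ b, S' b = none
    · rw [if_pos h2, one_mul, mul_one]
    · rw [if_neg h1, if_neg h2]
      refine gen_comm ⟨?_, h⟩
      rintro rfl
      apply h1
      intro b
      cases hb : S b with
      | none => rfl
      | some t => exact absurd hb (h b b t hb)

theorem g1_act {Y : Type} (g : Equiv.Perm (Y × ℕ)) (S : Lab Y) :
    raagAct (tg Y) (Equiv.Perm (Y × ℕ)) (tg_smul Y) g (g1 S) = g1 (g • S) := by
  unfold g1
  have h : (∀ b, (g • S) b = none) ↔ ∀ b, S b = none := by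
    refine forall_congr' fun b => ?_
    rw [Pi.smul_apply]
    cases S b <;> simp
  by_cases h1 : ∀ b, S b = none
  · rw [if_pos h1, if_pos (h.2 h1), map_one]
  · rw [if_neg h1, if_neg (fun h2 => h1 (h.1 h2)), raagAct_gen]

/-- the label of the boundaries in `B` for the assignment `φ` of tokens -/
noncomputable def lb {Y : Type} (B : Set Y) (φ : Y → Y × ℕ) : Lab Y :=
  fun b => if b ∈ B then some (φ b) else none

theorem lb_eq_some {Y : Type} {B : Set Y} {φ : Y → Y × ℕ} {b : Y} {t : Y × ℕ} :
    lb B φ b = some t ↔ b ∈ B ∧ φ b = t := by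
  unfold lb
  by_cases h : b ∈ B <;> simp [h]

theorem smul_lb {Y : Type} (g : Equiv.Perm (Y × ℕ)) (B : Set Y) (φ : Y → Y × ℕ) :
    g • lb B φ = lb B (fun b => g (φ b)) := by
  funext b
  rw [Pi.smul_apply]
  unfold lb
  by_cases h : b ∈ B
  · rw [if_pos h, if_pos h]
    rfl
  · rw [if_neg h, if_neg h]
    rfl

/-- The product of the generators of the labels of the colours in `A`, for the colouring `c` and the injective
assignment `φ` of tokens. -/
noncomputable def LA {Y V : Type} [Finite V] (c : Y → V) (φ : Y ↪ Y × ℕ) (A : Set V) :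
    RAAG (tg Y) :=
  (Set.toFinite A).toFinset.noncommProd (fun k => g1 (lb (c ⁻¹' {k}) φ)) (by
    intro k _ k' _ hk
    refine g1_comm ?_
    intro b b' t h1 h2
    obtain ⟨hb, h3⟩ := lb_eq_some.1 h1
    obtain ⟨hb', h4⟩ := lb_eq_some.1 h2
    have h5 : b = b' := φ.injective (h3.trans h4.symm)
    apply hk
    rw [← (hb : c b = k), ← (hb' : c b' = k'), h5])

/-! ## permutations of the slots -/

/-- shift a permutation of the slots by one -/
def up : Equiv.Perm ℕ →* Equiv.Perm ℕ where
  toFun σ :=
    { toFun := fun n => match n with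
        | 0 => 0
        | n + 1 => σ n + 1
      invFun := fun n => match n with
        | 0 => 0
        | n + 1 => σ.symm n + 1
      left_inv := by
        intro n
        cases n <;> simp
      right_inv := by
        intro n
        cases n <;> simp }
  map_one' := by
    ext n
    cases n <;> rfl
  map_mul' σ ρ := by
    ext n
    cases n <;> rfl

@[simp] theorem up_zero (σ : Equiv.Perm ℕ) : up σ 0 = 0 := rfl

@[simp] theorem up_succ (σ : Equiv.Perm ℕ) (n : ℕ) : up σ (n + 1) = σ n + 1 := rfl

/-- the permutation of the slots in each block by `e` -/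
def bp {Y : Type} : (Y → Equiv.Perm ℕ) →* Equiv.Perm (Y × ℕ) where
  toFun e :=
    { toFun := fun t => (t.1, e t.1 t.2)
      invFun := fun t => (t.1, (e t.1).symm t.2)
      left_inv := fun t => by simp
      right_inv := fun t => by simp }
  map_one' := rfl
  map_mul' _ _ := rfl

@[simp] theorem bp_apply {Y : Type} (e : Y → Equiv.Perm ℕ) (t : Y × ℕ) :
    bp e t = (t.1, e t.1 t.2) := rfl

/-- `1` if `p`, otherwise `0` -/
noncomputable def ii (p : Prop) : ℕ := if p then 1 else 0

@[simp] theorem ii_pos {p : Prop} (h : p) : ii p = 1 := if_pos h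

@[simp] theorem ii_neg {p : Prop} (h : ¬ p) : ii p = 0 := if_neg h

theorem tau_aux {Y : Type} (S R : Y → Y) (hSR : ∀ y, S (R y) = y) (P Q : Y → Prop)
    (hPQ : ∀ y, Q (R y) ↔ P y) (t : Y × ℕ) :
    (fun u : Y × ℕ => if Q u.1 ∧ u.2 = 0 then (S u.1, 0)
      else (u.1, u.2 - ii (Q u.1) + ii (P u.1)))
      ((fun u : Y × ℕ => if P u.1 ∧ u.2 = 0 then (R u.1, 0)
      else (u.1, u.2 - ii (P u.1) + ii (Q u.1))) t) = t := by
  obtain ⟨y, n⟩ := t
  dsimp only
  by_cases h : P y ∧ n = 0
  · obtain ⟨h1, rfl⟩ := h
    have h2 : Q (R y) := (hPQ y).2 h1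
    have h3 : (if P y ∧ (0 : ℕ) = 0 then (R y, 0)
      else (y, 0 - ii (P y) + ii (Q y))) = (R y, (0 : ℕ)) := if_pos ⟨h1, rfl⟩
    rw [h3]
    dsimp only
    rw [if_pos ⟨h2, rfl⟩, hSR]
  · rw [if_neg h]
    dsimp only
    by_cases h3 : P y
    · have h4 : n ≠ 0 := fun h5 => h ⟨h3, h5⟩
      by_cases h5 : Q y
      · rw [if_neg (by rintro ⟨-, h6⟩; simp [h3, h5] at h6), ii_pos h3, ii_pos h5]
        congr 1
        omega
      · rw [if_neg (by rintro ⟨h6, -⟩; exact h5 h6), ii_pos h3, ii_neg h5]
        congr 1
        omega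
    · by_cases h5 : Q y
      · rw [if_neg (by rintro ⟨-, h6⟩; simp [h3, h5] at h6), ii_neg h3, ii_pos h5]
        congr 1
      · rw [if_neg (by rintro ⟨h6, -⟩; exact h5 h6), ii_neg h3, ii_neg h5]
        congr 1

/-- The move of the first token of the block of `y` over the boundary `T y`, for all `y` with `T y ∈ B`; the other
tokens change the slot in their block. -/
noncomputable def tau {Y : Type} (T : Equiv.Perm Y) (B : Set Y) : Equiv.Perm (Y × ℕ) where
  toFun := fun t => if T t.1 ∈ B ∧ t.2 = 0 then (T t.1, 0)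
    else (t.1, t.2 - ii (T t.1 ∈ B) + ii (t.1 ∈ B))
  invFun := fun t => if t.1 ∈ B ∧ t.2 = 0 then (T.symm t.1, 0)
    else (t.1, t.2 - ii (t.1 ∈ B) + ii (T t.1 ∈ B))
  left_inv := tau_aux T.symm T (fun y => T.symm_apply_apply y) (fun y => T y ∈ B)
    (fun y => y ∈ B) (fun y => Iff.rfl)
  right_inv := tau_aux T T.symm (fun y => T.apply_symm_apply y) (fun y => y ∈ B)
    (fun y => T y ∈ B) (fun y => by rw [T.apply_symm_apply])

theorem tau_apply {Y : Type} (T : Equiv.Perm Y) (B : Set Y) (y : Y) (n : ℕ) :
    tau T B (y, n) = if T y ∈ B ∧ n = 0 then (T y, 0)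
      else (y, n - ii (T y ∈ B) + ii (y ∈ B)) := rfl

theorem tau_inv_apply {Y : Type} (T : Equiv.Perm Y) (B : Set Y) (y : Y) (n : ℕ) :
    (tau T B)⁻¹ (y, n) = if y ∈ B ∧ n = 0 then (T.symm y, 0)
      else (y, n - ii (y ∈ B) + ii (T y ∈ B)) := rfl

/-! ## colours -/

/-- block permutations which depend on the colours of the two boundaries of the block -/
abbrev Bl (V : Type) : Type := V → V → Equiv.Perm ℕ

/-- shift the block permutations of the edges in `r` -/
noncomputable def sh {V : Type} (r : V → V → Prop) : Bl V →* Bl V where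
  toFun e := fun v w => if r v w then up (e v w) else e v w
  map_one' := by
    funext v w
    by_cases h : r v w <;> simp [h]
  map_mul' e e' := by
    funext v w
    by_cases h : r v w <;> simp [h]

theorem sh_pos {V : Type} {r : V → V → Prop} {v w : V} (h : r v w) (e : Bl V) :
    sh r e v w = up (e v w) := if_pos h

theorem sh_neg {V : Type} {r : V → V → Prop} {v w : V} (h : ¬ r v w) (e : Bl V) :
    sh r e v w = e v w := if_neg h

/-- edges into `A` -/
def inn {V : Type} (A : Set V) : V → V → Prop := fun _ w => w ∈ A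

/-- edges out of `A` -/
def out {V : Type} (A : Set V) : V → V → Prop := fun v _ => v ∈ A

/-- swap the first two slots for the edges with `r` -/
noncomputable def sw {V : Type} (r : V → V → Prop) : Bl V :=
  fun v w => if r v w then Equiv.swap 0 1 else 1

theorem sw_pos {V : Type} {r : V → V → Prop} {v w : V} (h : r v w) :
    sw r v w = Equiv.swap 0 1 := if_pos h

theorem sw_neg {V : Type} {r : V → V → Prop} {v w : V} (h : ¬ r v w) : sw r v w = 1 := if_neg h

/-- the letter `t` of the colours in `B`, twisted by `r` -/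
noncomputable def tw {V G : Type} [Group G] (f : Bl V →* G) (r : V → V → Prop) (B : Set V)
    (t : G) : G :=
  f (sw (fun v w => v ∈ B ∧ r v w)) * t * f (sw (fun v w => w ∈ B ∧ r v w))

/-- The relations between block permutations and token moves over the boundaries of one colour. -/
structure IsModel {V : Type} (E : V → V → Prop) {G : Type} [Group G] (f : Bl V →* G)
    (t : V → G) : Prop where
  rela : ∀ e : Bl V, (∀ v w, E v w → e v w = 1) → f e = 1
  relb : ∀ (c : V) (e : Bl V), t c * f (sh (inn {c}) e) = f (sh (out {c}) e) * t c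
  relc : ∀ c d : V, t c * tw f (inn {c}) {d} (t d) = tw f (out {c}) {d} (t d) * t c
  reld : ∀ c : V, (∀ v, ¬ E v c) → t c = 1

/-- A system: a set of boundaries with a permutation and a colouring. -/
structure Sys (V : Type) where
  Z : Type
  T : Equiv.Perm Z
  c : Z → V

namespace Sys

variable {V V' : Type} (S : Sys V)

/-- there is a block whose boundaries have the colours `v` and `w` -/
def Edge (v w : V) : Prop := ∃ z, S.c z = v ∧ S.c (S.T z) = w

/-- block permutations as permutations of the slots -/
def bF : Bl V →* Equiv.Perm (S.Z × ℕ) :=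
  bp.comp
    { toFun := fun e y => e (S.c y) (S.c (S.T y))
      map_one' := rfl
      map_mul' := fun _ _ => rfl }

theorem bF_apply (e : Bl V) (t : S.Z × ℕ) : S.bF e t = (t.1, e (S.c t.1) (S.c (S.T t.1)) t.2) :=
  rfl

/-- token moves over the boundaries with colours in `A` -/
noncomputable def bT (A : Set V) : Equiv.Perm (S.Z × ℕ) := tau S.T (S.c ⁻¹' A)

/-- the boundary `b` is mapped to the slot `(b, 0)` -/
def z0 : S.Z ↪ S.Z × ℕ := ⟨fun b => (b, 0), fun _ _ h => congrArg Prod.fst h⟩

/-- the token in the slot `(b, 0)` for the state `g` -/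
def st (g : Equiv.Perm (S.Z × ℕ)) : S.Z ↪ S.Z × ℕ :=
  ⟨fun b => g (b, 0), fun _ _ h => congrArg Prod.fst (g.injective h)⟩

@[simp] theorem st_apply (g : Equiv.Perm (S.Z × ℕ)) (b : S.Z) : S.st g b = g (b, 0) := rfl

/-- block permutations in `GG` -/
def F : Bl V →* GG S.Z := SemidirectProduct.inr.comp S.bF

/-- token moves in `GG` -/
noncomputable def t [Finite V] (A : Set V) : GG S.Z := ⟨LA S.c (S.st 1) A, S.bT A⟩

/-- change of the colours -/
def push (π : V → V') : Sys V' where
  Z := S.Z
  T := S.T
  c := fun z => π (S.c z)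

end Sys

/-! ## the free groups -/

/-- permutations of the slots which move only finitely many slots -/
def Fin1 : Subgroup (Equiv.Perm ℕ) where
  carrier := {σ | ∃ M, ∀ n, M ≤ n → σ n = n}
  one_mem' := ⟨0, fun _ _ => rfl⟩
  mul_mem' := by
    rintro σ ρ ⟨M, hM⟩ ⟨N, hN⟩
    refine ⟨max M N, fun n hn => ?_⟩
    rw [Equiv.Perm.mul_apply, hN n (le_trans (le_max_right _ _) hn),
      hM n (le_trans (le_max_left _ _) hn)]
  inv_mem' := by
    rintro σ ⟨M, hM⟩
    refine ⟨M, fun n hn => ?_⟩
    rw [Equiv.Perm.inv_eq_iff_eq, hM n hn]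

/-- generators: finitary block permutations and sets of colours -/
abbrev Gn (V : Type) : Type := (V → V → Fin1) ⊕ Set V

/-- the free group -/
abbrev PP (V : Type) : Type := FreeGroup (Gn V)

/-- refinement of the colours -/
def rf {V V' : Type} (π : V' → V) : PP V →* PP V' :=
  FreeGroup.map (Sum.map (fun e v w => e (π v) (π w)) (fun A => π ⁻¹' A))

namespace Sys

variable {V V' : Type} (S : Sys V)

/-- the permutation of the slots given by an element of the free group -/
noncomputable def Ph : PP V →* Equiv.Perm (S.Z × ℕ) :=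
  FreeGroup.lift (Sum.elim (fun e => S.bF (fun v w => (e v w : Equiv.Perm ℕ))) S.bT)

/-- the element of `GG` given by an element of the free group -/
noncomputable def ev [Finite V] : PP V →* GG S.Z :=
  FreeGroup.lift (Sum.elim (fun e => S.F (fun v w => (e v w : Equiv.Perm ℕ))) S.t)

end Sys

/-- permutations of the tokens which move only finitely many slots of each block, uniformly -/
def FH (Y : Type) : Subgroup (Equiv.Perm (Y × ℕ)) where
  carrier := {q | ∃ M, ∀ y n, M ≤ n → q (y, n) = (y, n)}
  one_mem' := ⟨0, fun _ _ _ => rfl⟩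
  mul_mem' := by
    rintro σ ρ ⟨M, hM⟩ ⟨N, hN⟩
    refine ⟨max M N, fun y n hn => ?_⟩
    rw [Equiv.Perm.mul_apply, hN y n (le_trans (le_max_right _ _) hn),
      hM y n (le_trans (le_max_left _ _) hn)]
  inv_mem' := by
    rintro σ ⟨M, hM⟩
    refine ⟨M, fun y n hn => ?_⟩
    rw [Equiv.Perm.inv_eq_iff_eq, hM y n hn]

end Pool.Agent.H13.BD
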