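import Pool.Agent.H13.BD.Defs

/-!
# Words, recurrent edges, lines, colourings by sets
-/

set_option autoImplicit false

open Classical

namespace Pool.Agent.H13.BD

open Pool.Agent.H13.TFG

/-! ## words -/

/-- words `e₁ t₁^± e₂ t₂^± …` -/
abbrev Wd (V : Type) : Type := List (Bl V × V × Bool)

/-- `x` or `x⁻¹` -/
def sg {G : Type} [Group G] (x : G) (ε : Bool) : G := if ε then x else x⁻¹

@[simp] theorem sg_true {G : Type} [Group G] (x : G) : sg x true = x := rfl

@[simp] theorem sg_false {G : Type} [Group G] (x : G) : sg x false = x⁻¹ := rfl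

section words

variable {V G G' : Type} [Group G] [Group G'] (f : Bl V →* G) (t : V → G)

/-- the value of a word -/
def vl (w : Wd V) : G := (w.map fun x => f x.1 * sg (t x.2.1) x.2.2).prod

/-- the value of the shifted word -/
noncomputable def svl (r : V → V → Prop) (w : Wd V) : G :=
  (w.map fun x => f (sh r x.1) * sg (tw f r {x.2.1} (t x.2.1)) x.2.2).prod

@[simp] theorem vl_nil : vl f t [] = 1 := rfl

@[simp] theorem vl_cons (x : Bl V × V × Bool) (w : Wd V) :
    vl f t (x :: w) = f x.1 * sg (t x.2.1) x.2.2 * vl f t w := by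
  simp [vl]

@[simp] theorem vl_append (w w' : Wd V) : vl f t (w ++ w') = vl f t w * vl f t w' := by
  simp [vl]

@[simp] theorem svl_nil (r : V → V → Prop) : svl f t r [] = 1 := rfl

@[simp] theorem svl_cons (r : V → V → Prop) (x : Bl V × V × Bool) (w : Wd V) :
    svl f t r (x :: w) =
      f (sh r x.1) * sg (tw f r {x.2.1} (t x.2.1)) x.2.2 * svl f t r w := by
  simp [svl]

@[simp] theorem svl_append (r : V → V → Prop) (w w' : Wd V) :
    svl f t r (w ++ w') = svl f t r w * svl f t r w' := by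
  simp [svl]

theorem map_sg (ev : G →* G') (x : G) (ε : Bool) : ev (sg x ε) = sg (ev x) ε := by
  cases ε <;> simp

theorem map_vl (ev : G →* G') (f' : Bl V →* G') (t' : V → G') (hf : ∀ e, ev (f e) = f' e)
    (ht : ∀ c, ev (t c) = t' c) (w : Wd V) : ev (vl f t w) = vl f' t' w := by
  induction w with
  | nil => simp
  | cons x w ih => rw [vl_cons, vl_cons, map_mul, map_mul, ih, hf, map_sg, ht]

theorem map_svl (ev : G →* G') (f' : Bl V →* G') (t' : V → G') (hf : ∀ e, ev (f e) = f' e)
    (ht : ∀ c, ev (t c) = t' c) (r : V → V → Prop) (w : Wd V) :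
    ev (svl f t r w) = svl f' t' r w := by
  induction w with
  | nil => simp
  | cons x w ih =>
    rw [svl_cons, svl_cons, map_mul, map_mul, ih, hf, map_sg, tw, tw, map_mul, map_mul, hf, hf, ht]

end words

namespace Sys

variable {V V' : Type} (S : Sys V)

/-- the token move for one colour -/
noncomputable def bt (c : V) : Equiv.Perm (S.Z × ℕ) := S.bT {c}

/-- the edge of the block of `z` is in `r` -/
def On (r : V → V → Prop) (z : S.Z) : Prop := r (S.c z) (S.c (S.T z))

/-- The tokens `(z, 0)` for the blocks `z` with edge in `r` are not moved over a boundary, when the word `w` is read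
after `a`. -/
def Avoid (r : V → V → Prop) (a : Bl V) (w : Wd V) : Prop :=
  ∀ (p : Wd V) (x : Bl V × V × Bool) (q : Wd V), w = p ++ x :: q →
    ∀ b z : S.Z, S.c b = x.2.1 → S.On r z →
      (S.bF a * vl S.bF S.bt p * S.bF x.1) (if x.2.2 then (b, 0) else (S.T.symm b, 0)) ≠ (z, 0)

/-! ## recurrent edges -/

/-- the edge `(v, w)` occurs in a finite system all of whose edges are edges of `S` -/
def Rec (v w : V) : Prop :=
  ∃ R : Sys V, Finite R.Z ∧ (∀ a b, R.Edge a b → S.Edge a b) ∧ R.Edge v w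

end Sys

/-! ## lines -/

/-- the shift -/
def shf (Ω : Type) : Equiv.Perm (Ω × ℤ) where
  toFun y := (y.1, y.2 + 1)
  invFun y := (y.1, y.2 - 1)
  left_inv y := by simp
  right_inv y := by simp

@[simp] theorem shf_apply {Ω : Type} (y : Ω × ℤ) : shf Ω y = (y.1, y.2 + 1) := rfl

@[simp] theorem shf_symm_apply {Ω : Type} (y : Ω × ℤ) : (shf Ω).symm y = (y.1, y.2 - 1) := rfl

theorem shf_pow {Ω : Type} (k : ℤ) (y : Ω × ℤ) : (shf Ω ^ k) y = (y.1, y.2 + k) := by
  have h1 : ∀ (n : ℕ) (y : Ω × ℤ), (shf Ω ^ n) y = (y.1, y.2 + n) := by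
    intro n
    induction n with
    | zero => intro y; simp
    | succ n ih =>
      intro y
      rw [pow_succ, Equiv.Perm.mul_apply, ih, shf_apply]
      refine Prod.ext rfl ?_
      push_cast
      ring
  obtain ⟨n, rfl | rfl⟩ := Int.eq_nat_or_neg k
  · rw [zpow_natCast, h1]
  · rw [zpow_neg, zpow_natCast, Equiv.Perm.inv_eq_iff_eq, h1]
    simp

/-- the system of the lines `ω × ℤ` with the colouring `c` -/
def ysys {Ω V : Type} (c : Ω × ℤ → V) : Sys V := ⟨Ω × ℤ, shf Ω, c⟩

/-- the colouring by the members of a finite family of sets -/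
def cl {Y : Type} (i : Finset (Set Y)) : Y → (i → Prop) := fun y D => y ∈ D.1

/-- restriction to a smaller family -/
def rs {Y : Type} {i j : Finset (Set Y)} (h : i ≤ j) : (j → Prop) → (i → Prop) :=
  fun v D => v ⟨D.1, h D.2⟩

theorem rs_cl {Y : Type} {i j : Finset (Set Y)} (h : i ≤ j) (y : Y) : rs h (cl j y) = cl i y := rfl

/-- permutations of the slots `(y, 0)` -/
def hat {Y : Type} : Equiv.Perm Y →* Equiv.Perm (Y × ℕ) where
  toFun g :=
    { toFun := fun t => if t.2 = 0 then (g t.1, t.2) else t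
      invFun := fun t => if t.2 = 0 then (g.symm t.1, t.2) else t
      left_inv := by
        rintro ⟨y, n⟩
        by_cases h : n = 0 <;> simp [h]
      right_inv := by
        rintro ⟨y, n⟩
        by_cases h : n = 0 <;> simp [h] }
  map_one' := by
    ext1 ⟨y, n⟩
    simp
  map_mul' g h := by
    ext1 ⟨y, n⟩
    by_cases hn : n = 0 <;> simp [hn]

theorem hat_zero {Y : Type} (g : Equiv.Perm Y) (y : Y) : hat g (y, 0) = (g y, 0) := rfl

theorem hat_succ {Y : Type} (g : Equiv.Perm Y) (y : Y) (n : ℕ) : hat g (y, n + 1) = (y, n + 1) :=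
  rfl

/-- The wobbling group of the lines: the permutations of `Ω × ℤ` which preserve the lines and have bounded
displacement. -/
def Wb (Ω : Type) : Subgroup (Equiv.Perm (Ω × ℤ)) where
  carrier := {g | ∃ N : ℕ, ∀ y, (g y).1 = y.1 ∧ |(g y).2 - y.2| ≤ N}
  one_mem' := ⟨0, fun y => ⟨rfl, by simp⟩⟩
  mul_mem' := by
    rintro g h ⟨N, hN⟩ ⟨M, hM⟩
    refine ⟨N + M, fun y => ⟨?_, ?_⟩⟩
    · rw [Equiv.Perm.mul_apply, (hN _).1, (hM _).1]
    · rw [Equiv.Perm.mul_apply]
      have h1 := (hN (h y)).2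
      have h2 := (hM y).2
      rw [abs_le] at *
      push_cast
      constructor <;> omega
  inv_mem' := by
    rintro g ⟨N, hN⟩
    refine ⟨N, fun y => ?_⟩
    have h := hN (g⁻¹ y)
    have h2 : g (g⁻¹ y) = y := g.apply_symm_apply y
    rw [h2] at h
    exact ⟨h.1.symm, by rw [abs_sub_comm]; exact h.2⟩

end Pool.Agent.H13.BD
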