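import Pool.Agent.H13.BD.Dye3

/-!
# Elements which die in the group of permutations of the slots die for a fine colouring
-/

set_option autoImplicit false

open Classical

namespace Pool.Agent.H13.BD

open Pool.Agent.H13.TFG

/-- Bounded displacement, and high tokens are not moved to other blocks, uniformly for the prefixes of a word. -/
theorem dye_bound {Ω V : Type} [Finite V] (c : Ω × ℤ → V) (L : List (Gn V × Bool)) :
    ∃ R M : ℕ, ∀ L1 L2, L = L1 ++ L2 → ∀ (y : Ω × ℤ) (s : ℕ), ∃ k : ℤ, |k| ≤ R ∧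
      ((phy c (FreeGroup.mk L1))⁻¹ (y, s)).1 = (y.1, y.2 + k) ∧ (M ≤ s → k = 0) := by
  have h := fun L1 : List (Gn V × Bool) => loc_disp (FreeGroup.mk L1)⁻¹
  choose Rf Mf hRM using h
  refine ⟨∑ k ∈ Finset.range (L.length + 1), Rf (L.take k),
    ∑ k ∈ Finset.range (L.length + 1), Mf (L.take k), ?_⟩
  intro L1 L2 hL y s
  have h1 : L1 = L.take L1.length := by rw [hL, List.take_left']; rfl
  have h2 : L1.length ∈ Finset.range (L.length + 1) := by
    rw [Finset.mem_range, hL, List.length_append]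
    omega
  have h3 : Rf L1 ≤ ∑ k ∈ Finset.range (L.length + 1), Rf (L.take k) := by
    rw [h1]
    have h4 := Finset.single_le_sum (f := fun k => Rf (L.take k)) (fun _ _ => Nat.zero_le _) h2
    rw [← h1] at h4 ⊢
    exact h4
  have h5 : Mf L1 ≤ ∑ k ∈ Finset.range (L.length + 1), Mf (L.take k) := by
    have h4 := Finset.single_le_sum (f := fun k => Mf (L.take k)) (fun _ _ => Nat.zero_le _) h2
    rw [← h1] at h4
    exact h4
  obtain ⟨k, hk1, hk2, hk3⟩ := hRM L1 (ysys c) y s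
  refine ⟨k, hk1.trans (by exact_mod_cast h3), ?_, fun hs => hk3 (h5.trans hs)⟩
  rw [map_inv] at hk2
  have h6 : (((ysys c).T ^ k) y : Ω × ℤ) = (y.1, y.2 + k) := shf_pow k y
  exact hk2.trans h6

theorem dye {Ω V : Type} [Finite V] (c : Ω × ℤ → V) (p : PP V) (hp : (ysys c).Ph p = 1) :
    ∃ (Q : Type) (_ : Finite Q) (q : Ω × ℤ → Q), ∀ (V' : Type) [Finite V'] (c' : Ω × ℤ → V')
      (π : V' → V), (∀ y, π (c' y) = c y) → (∀ y y', c' y = c' y' → q y = q y') →
      (ysys c').ev (rf π p) = 1 := by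
  obtain ⟨L, rfl⟩ := Quot.exists_rep p
  obtain ⟨R, M, hRM⟩ := dye_bound c L
  have hpre : ∀ k : Fin (L.length + 1), L = L.take k ++ L.drop k := fun k =>
    (List.take_append_drop _ _).symm
  let dis : Ω × ℤ → Fin (L.length + 1) → ℕ → ℤ := fun y k s =>
    ((phy c (FreeGroup.mk (L.take k)))⁻¹ (y, s)).1.2 - y.2
  have hdis : ∀ y k s, |dis y k s| ≤ R ∧
      ((phy c (FreeGroup.mk (L.take k)))⁻¹ (y, s)).1 = (y.1, y.2 + dis y k s) ∧
      (M ≤ s → dis y k s = 0) := by
    intro y k s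
    obtain ⟨m, hm1, hm2, hm3⟩ := hRM _ _ (hpre k) y s
    have h1 : dis y k s = m := by
      change ((phy c (FreeGroup.mk (L.take k)))⁻¹ (y, s)).1.2 - y.2 = m
      rw [hm2]
      change y.2 + m - y.2 = m
      omega
    rw [h1]
    exact ⟨hm1, hm2, hm3⟩
  let q0 : Ω × ℤ → (Fin (L.length + 1) → Fin M → Set.Icc (-(R : ℤ)) R) := fun y k s =>
    ⟨dis y k s, abs_le.1 (hdis y k s).1⟩
  let q1 : Ω × ℤ → Set.range q0 := fun y => ⟨q0 y, y, rfl⟩
  have hq1 : Function.Surjective q1 := by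
    rintro ⟨_, y, rfl⟩
    exact ⟨y, rfl⟩
  refine ⟨Set.Icc (-(R : ℤ)) R → Set.range q0, inferInstance,
    fun y m => q1 (y.1, y.2 - m), ?_⟩
  intro V' _ c' π hπ hq'
  obtain rfl : c = fun y => π (c' y) := funext fun y => (hπ y).symm
  have hr : ∀ m : ℤ, |m| ≤ R → ∀ y y' : Ω × ℤ, c' y = c' y' →
      q1 (y.1, y.2 - m) = q1 (y'.1, y'.2 - m) := by
    intro m hm y y' h
    exact congrFun (hq' y y' h) ⟨m, abs_le.1 hm⟩
  have hL : ∀ L1 L2, L = L1 ++ L2 →
      ∃ e, Tm q1 M R (phy (fun y => π (c' y)) (FreeGroup.mk L1)) e := by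
    intro L1 L2 hL
    have h1 : L1 = L.take L1.length := by rw [hL, List.take_left']; rfl
    have h2 : L1.length < L.length + 1 := by
      rw [hL, List.length_append]
      omega
    let k : Fin (L.length + 1) := ⟨L1.length, h2⟩
    have hk : L.take k = L1 := h1.symm
    refine ⟨fun κ s => if h : s < M then ((κ.1 k ⟨s, h⟩ : Set.Icc (-(R : ℤ)) R) : ℤ) else 0,
      ?_, ?_, ?_⟩
    · intro y s
      have h3 := (hdis y k s).2
      rw [hk] at h3
      by_cases hs : s < M
      · rw [dif_pos hs]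
        exact h3.1
      · rw [dif_neg hs, h3.1, h3.2 (not_lt.1 hs)]
    · intro κ s
      by_cases hs : s < M
      · rw [dif_pos hs]
        exact abs_le.2 (κ.1 k ⟨s, hs⟩).2
      · rw [dif_neg hs, abs_zero]
        exact_mod_cast Nat.zero_le R
    · intro κ s hs
      rw [dif_neg (not_lt.2 hs)]
  obtain ⟨e, he⟩ := hL L [] (List.append_nil L).symm
  have h1 := dye_left hq1 hr π L hL L [] (List.append_nil L).symm e he
  have h2 : phy (fun y => π (c' y)) (FreeGroup.mk L) = 1 := hp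
  have h3 : ∀ κ s, e κ s = 0 := by
    intro κ s
    obtain ⟨y, rfl⟩ := hq1 κ
    have h3 := he.loc y s
    rw [h2] at h3
    have h4 : y = (y.1, y.2 + e (q1 y) s) := h3
    have h5 : y.2 = y.2 + e (q1 y) s := congrArg Prod.snd h4
    omega
  rw [th_zero h3, inv_one] at h1
  have h4 := evy_right c' π (FreeGroup.mk L)
  rw [h2] at h4
  exact SemidirectProduct.ext h1 h4

end Pool.Agent.H13.BD
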