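import Pool.Agent.H13.BD.LAx
import Pool.Agent.H13.BD.Words

/-!
# Potentials
-/

set_option autoImplicit false

open Classical

namespace Pool.Agent.H13.BD

open Pool.Agent.H13.TFG

/-- the path from `0` to `m` in the line -/
theorem exists_pot : ∃ pot : ℤ → FreeGroup ℤ, pot 0 = 1 ∧
    ∀ m, pot m = FreeGroup.of m * pot (m - 1) := by
  let p : ℕ → FreeGroup ℤ := fun n => Nat.rec 1 (fun k x => FreeGroup.of ((k : ℤ) + 1) * x) n
  let q : ℕ → FreeGroup ℤ := fun n => Nat.rec 1 (fun k x => (FreeGroup.of (-(k : ℤ)))⁻¹ * x) n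
  refine ⟨fun m => if 0 ≤ m then p m.toNat else q (-m).toNat, rfl, ?_⟩
  intro m
  by_cases h : 0 < m
  · obtain ⟨n, rfl⟩ : ∃ n : ℕ, m = n + 1 := ⟨(m - 1).toNat, by omega⟩
    have h1 : ((n : ℤ) + 1).toNat = n + 1 := by omega
    have h2 : ((n : ℤ) + 1 - 1).toNat = n := by omega
    have h3 : (0 : ℤ) ≤ (n : ℤ) + 1 := by omega
    have h4 : (0 : ℤ) ≤ (n : ℤ) + 1 - 1 := by omega
    dsimp only
    rw [if_pos h3, if_pos h4, h1, h2]
  · obtain ⟨n, rfl⟩ : ∃ n : ℕ, m = -(n : ℤ) := ⟨(-m).toNat, by omega⟩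
    have h1 : (-(-(n : ℤ) - 1)).toNat = n + 1 := by omega
    have h4 : ¬ (0 : ℤ) ≤ -(n : ℤ) - 1 := by omega
    dsimp only
    rw [if_neg h4, h1]
    have h5 : q (n + 1) = (FreeGroup.of (-(n : ℤ)))⁻¹ * q n := rfl
    rw [h5, mul_inv_cancel_left]
    cases n with
    | zero => rfl
    | succ n =>
      have h6 : ¬ (0 : ℤ) ≤ -((n + 1 : ℕ) : ℤ) := by omega
      have h7 : (-(-((n + 1 : ℕ) : ℤ))).toNat = n + 1 := by omega
      rw [if_neg h6, h7]

/-- the path from `0` to `m` in the line -/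
noncomputable def pot : ℤ → FreeGroup ℤ := exists_pot.choose

theorem pot_zero : pot 0 = 1 := exists_pot.choose_spec.1

theorem pot_eq (m : ℤ) : pot m = FreeGroup.of m * pot (m - 1) := exists_pot.choose_spec.2 m

theorem lift_commute {A B G : Type} [Group G] (f : A → G) (g : B → G)
    (h : ∀ a b, Commute (f a) (g b)) (x : FreeGroup A) (y : FreeGroup B) :
    Commute (FreeGroup.lift f x) (FreeGroup.lift g y) := by
  have h1 : ∀ a (y : FreeGroup B), Commute (f a) (FreeGroup.lift g y) := by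
    intro a y
    induction y using FreeGroup.induction_on with
    | C1 => rw [map_one]; exact Commute.one_right _
    | of b => rw [FreeGroup.lift_apply_of]; exact h a b
    | inv_of b ih => rw [map_inv]; exact ih.inv_right
    | mul y z hy hz => rw [map_mul]; exact hy.mul_right hz
  induction x using FreeGroup.induction_on with
  | C1 => rw [map_one]; exact Commute.one_left _
  | of a => rw [FreeGroup.lift_apply_of]; exact h1 a y
  | inv_of a ih => rw [map_inv]; exact ih.inv_left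
  | mul x z hx hz => rw [map_mul]; exact hx.mul_left hz

variable {Ω V Q : Type} [Finite V] (c : Ω × ℤ → V) (q : Ω × ℤ → Q)

/-- the colours of the boundaries `b` whose translate `b - m` has the type `κ` -/
def Bm (κ : Q) (m : ℤ) : Set V :=
  {k | (∃ b, c b = k) ∧ ∀ b : Ω × ℤ, c b = k → q (b.1, b.2 - m) = κ}

/-- the token `(b - m, s)` for the boundary `b` -/
def ph (Ω : Type) (m : ℤ) (s : ℕ) : Ω × ℤ ↪ (Ω × ℤ) × ℕ :=
  ⟨fun b => ((b.1, b.2 - m), s), fun a b h => by
    have h1 : (a.1, a.2 - m) = (b.1, b.2 - m) := congrArg Prod.fst h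
    have h2 := Prod.mk.inj h1
    exact Prod.ext h2.1 (by omega)⟩

/-- the crossing of the boundary `y + m` by the tokens `(y, s)`, `y` of type `κ` -/
noncomputable def Um (κ : Q) (s : ℕ) (m : ℤ) : RAAG (tg (Ω × ℤ)) :=
  LA c (ph Ω m s) (Bm c q κ m)

theorem Um_commute (κ κ' : Q) (s s' : ℕ) (h : (κ, s) ≠ (κ', s')) (m m' : ℤ) :
    Commute (Um c q κ s m) (Um c q κ' s' m') := by
  apply LA_comm
  intro b b' hb hb' h1
  have h2 : (b.1, b.2 - m) = (b'.1, b'.2 - m') := congrArg Prod.fst h1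
  have h3 : s = s' := congrArg Prod.snd h1
  have h4 : κ = κ' := by
    rw [← hb.2 b rfl, ← hb'.2 b' rfl, h2]
  exact h (by rw [h3, h4])

/-- the homomorphism given by the crossings -/
noncomputable def chi [Finite Q] (M : ℕ) :
    ((Q × Fin M) → FreeGroup ℤ) →* RAAG (tg (Ω × ℤ)) :=
  letI := Fintype.ofFinite (Q × Fin M)
  MonoidHom.noncommPiCoprod (fun i : Q × Fin M => FreeGroup.lift (Um c q i.1 i.2)) (by
    intro i j hij x y
    apply lift_commute
    intro m m'
    apply Um_commute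
    intro h
    apply hij
    have h1 := Prod.mk.inj h
    exact Prod.ext h1.1 (Fin.ext h1.2))

theorem chi_single [Finite Q] (M : ℕ) (i : Q × Fin M) (x : FreeGroup ℤ) :
    chi c q M (Pi.mulSingle i x) = FreeGroup.lift (Um c q i.1 i.2) x := by
  let _ := Fintype.ofFinite (Q × Fin M)
  exact MonoidHom.noncommPiCoprod_mulSingle (N := fun _ : Q × Fin M => FreeGroup ℤ)
    (ϕ := fun i : Q × Fin M => FreeGroup.lift (Um c q i.1 i.2)) i x

/-- the potential of the displacements `e` -/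
noncomputable def Th [Finite Q] (M : ℕ) (e : Q → ℕ → ℤ) : RAAG (tg (Ω × ℤ)) :=
  chi c q M (fun i => pot (e i.1 i.2))

/-- `e` describes the displacements of the tokens in the state `g` -/
structure Tm (M R : ℕ) (g : Equiv.Perm ((Ω × ℤ) × ℕ)) (e : Q → ℕ → ℤ) : Prop where
  loc : ∀ y s, (g⁻¹ (y, s)).1 = (y.1, y.2 + e (q y) s)
  bd : ∀ κ s, |e κ s| ≤ R
  hi : ∀ κ s, M ≤ s → e κ s = 0

variable {c q}

/-- the displacements of `g` and `g * tau _ B`: if they differ then the token was in the first slot and the boundary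
is in `B` -/
theorem tm_step {M R : ℕ} {g : Equiv.Perm ((Ω × ℤ) × ℕ)}
    {B : Set (Ω × ℤ)} {e e' : Q → ℕ → ℤ} (h : Tm q M R g e)
    (h' : Tm q M R (g * tau (shf Ω) B) e') (y : Ω × ℤ) (s : ℕ) :
    e' (q y) s = e (q y) s ∨ (e' (q y) s = e (q y) s - 1 ∧
      g ((y.1, y.2 + e (q y) s), 0) = (y, s) ∧ (y.1, y.2 + e (q y) s) ∈ B) := by
  have h1 := h.loc y s
  have h2 := h'.loc y s
  rw [mul_inv_rev, Equiv.Perm.mul_apply] at h2
  obtain ⟨b, n, hbn⟩ : ∃ b n, g⁻¹ (y, s) = (b, n) := ⟨_, _, rfl⟩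
  rw [hbn] at h1 h2
  change b = _ at h1
  rw [tau_inv_apply] at h2
  by_cases h3 : b ∈ B ∧ n = 0
  · right
    rw [if_pos h3] at h2
    have h4 : (shf Ω).symm b = (y.1, y.2 + e' (q y) s) := h2
    rw [shf_symm_apply, h1] at h4
    have h5 := (Prod.mk.inj h4).2
    refine ⟨by omega, ?_, ?_⟩
    · rw [← h1]
      have h6 : g (b, n) = (y, s) := by
        rw [← hbn]
        exact g.apply_symm_apply _
      rw [h3.2] at h6
      exact h6
    · rw [← h1]
      exact h3.1
  · left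
    rw [if_neg h3] at h2
    have h4 : b = (y.1, y.2 + e' (q y) s) := h2
    rw [h1] at h4
    have h5 := (Prod.mk.inj h4).2
    omega

end Pool.Agent.H13.BD
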