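import Pool.Agent.H13.BD.Words

/-!
# Locality
-/

set_option autoImplicit false

open Classical

namespace Pool.Agent.H13.BD

variable {V V' : Type}

theorem loc_Ph_inl (S : Sys V) (e : V → V → Fin1) :
    S.Ph (FreeGroup.of (Sum.inl e)) = S.bF (fun v w => (e v w : Equiv.Perm ℕ)) := by
  unfold Sys.Ph
  rw [FreeGroup.lift_apply_of]
  rfl

theorem loc_Ph_inr (S : Sys V) (A : Set V) :
    S.Ph (FreeGroup.of (Sum.inr A)) = S.bT A := by
  unfold Sys.Ph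
  rw [FreeGroup.lift_apply_of]
  rfl

theorem loc_bF (S S' : Sys V) (z : S.Z) (z' : S'.Z)
    (h : ∀ m : ℤ, |m| ≤ ((1 : ℕ) : ℤ) → S.c ((S.T ^ m) z) = S'.c ((S'.T ^ m) z')) (e : Bl V) (n : ℕ) :
    ∃ (k : ℤ) (n' : ℕ), |k| ≤ ((1 : ℕ) : ℤ) ∧ S.bF e (z, n) = ((S.T ^ k) z, n') ∧
      S'.bF e (z', n) = ((S'.T ^ k) z', n') := by
  have h0 := h 0 (by simp)
  have h1 := h 1 (by simp)
  rw [zpow_zero, zpow_zero, Equiv.Perm.one_apply, Equiv.Perm.one_apply] at h0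
  rw [zpow_one, zpow_one] at h1
  refine ⟨0, e (S.c z) (S.c (S.T z)) n, by simp, ?_, ?_⟩
  · rw [Sys.bF_apply, zpow_zero, Equiv.Perm.one_apply]
  · rw [Sys.bF_apply, zpow_zero, Equiv.Perm.one_apply, h0, h1]

theorem loc_bT (S S' : Sys V) (z : S.Z) (z' : S'.Z)
    (h : ∀ m : ℤ, |m| ≤ ((1 : ℕ) : ℤ) → S.c ((S.T ^ m) z) = S'.c ((S'.T ^ m) z')) (A : Set V) (n : ℕ) :
    ∃ (k : ℤ) (n' : ℕ), |k| ≤ ((1 : ℕ) : ℤ) ∧ S.bT A (z, n) = ((S.T ^ k) z, n') ∧
      S'.bT A (z', n) = ((S'.T ^ k) z', n') := by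
  have h0 := h 0 (by simp)
  have h1 := h 1 (by simp)
  rw [zpow_zero, zpow_zero, Equiv.Perm.one_apply, Equiv.Perm.one_apply] at h0
  rw [zpow_one, zpow_one] at h1
  have h2 : (z ∈ S.c ⁻¹' A) = (z' ∈ S'.c ⁻¹' A) := by
    rw [Set.mem_preimage, Set.mem_preimage, h0]
  have h3 : (S.T z ∈ S.c ⁻¹' A) = (S'.T z' ∈ S'.c ⁻¹' A) := by
    rw [Set.mem_preimage, Set.mem_preimage, h1]
  unfold Sys.bT
  by_cases hc : S'.T z' ∈ S'.c ⁻¹' A ∧ n = 0
  · refine ⟨1, 0, by simp, ?_, ?_⟩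
    · rw [tau_apply, h3, if_pos hc, zpow_one]
    · rw [tau_apply, if_pos hc, zpow_one]
  · refine ⟨0, n - ii (S'.T z' ∈ S'.c ⁻¹' A) + ii (z' ∈ S'.c ⁻¹' A), by simp, ?_, ?_⟩
    · rw [tau_apply, h3, h2, if_neg hc, zpow_zero, Equiv.Perm.one_apply]
    · rw [tau_apply, if_neg hc, zpow_zero, Equiv.Perm.one_apply]

theorem loc_bT_inv (S S' : Sys V) (z : S.Z) (z' : S'.Z)
    (h : ∀ m : ℤ, |m| ≤ ((1 : ℕ) : ℤ) → S.c ((S.T ^ m) z) = S'.c ((S'.T ^ m) z')) (A : Set V) (n : ℕ) :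
    ∃ (k : ℤ) (n' : ℕ), |k| ≤ ((1 : ℕ) : ℤ) ∧ (S.bT A)⁻¹ (z, n) = ((S.T ^ k) z, n') ∧
      (S'.bT A)⁻¹ (z', n) = ((S'.T ^ k) z', n') := by
  have h0 := h 0 (by simp)
  have h1 := h 1 (by simp)
  rw [zpow_zero, zpow_zero, Equiv.Perm.one_apply, Equiv.Perm.one_apply] at h0
  rw [zpow_one, zpow_one] at h1
  have h2 : (z ∈ S.c ⁻¹' A) = (z' ∈ S'.c ⁻¹' A) := by
    rw [Set.mem_preimage, Set.mem_preimage, h0]
  have h3 : (S.T z ∈ S.c ⁻¹' A) = (S'.T z' ∈ S'.c ⁻¹' A) := by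
    rw [Set.mem_preimage, Set.mem_preimage, h1]
  unfold Sys.bT
  by_cases hc : z' ∈ S'.c ⁻¹' A ∧ n = 0
  · refine ⟨-1, 0, by simp, ?_, ?_⟩
    · rw [tau_inv_apply, h2, if_pos hc, zpow_neg_one]
      rfl
    · rw [tau_inv_apply, if_pos hc, zpow_neg_one]
      rfl
  · refine ⟨0, n - ii (z' ∈ S'.c ⁻¹' A) + ii (S'.T z' ∈ S'.c ⁻¹' A), by simp, ?_, ?_⟩
    · rw [tau_inv_apply, h3, h2, if_neg hc, zpow_zero, Equiv.Perm.one_apply]
    · rw [tau_inv_apply, if_neg hc, zpow_zero, Equiv.Perm.one_apply]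

/-- What an element of the free group does to a slot depends only on the colours in a window.

Proof. `FreeGroup.induction_on`. Generators `inl e` and their inverses: `k = 0`, `R = 1`. Generators `inr A` and their
inverses: `R = 1`, `k ∈ {0, 1, -1}`, `tau_apply`, `tau_inv_apply` (the cases depend on the colours of `z`, `T z`, for the
inverse also of `z`, `T z`). Products `p * q`: `R = R_p + R_q`; `q` moves `(z, n)` to `(T ^ k z, n')`, `|k| ≤ R_q`, and the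
windows of radius `R_p` around `T ^ k z` and `T' ^ k z'` agree. -/
theorem loc (p : PP V) : ∃ R : ℕ, ∀ (S S' : Sys V) (z : S.Z) (z' : S'.Z),
    (∀ m : ℤ, |m| ≤ R → S.c ((S.T ^ m) z) = S'.c ((S'.T ^ m) z')) →
    ∀ n : ℕ, ∃ (k : ℤ) (n' : ℕ), |k| ≤ R ∧ S.Ph p (z, n) = ((S.T ^ k) z, n') ∧
      S'.Ph p (z', n) = ((S'.T ^ k) z', n') := by
  induction p using FreeGroup.induction_on with
  | C1 =>
    refine ⟨0, fun S S' z z' _ n => ⟨0, n, by simp, ?_, ?_⟩⟩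
    · rw [map_one, zpow_zero]
      rfl
    · rw [map_one, zpow_zero]
      rfl
  | of x =>
    refine ⟨1, fun S S' z z' h n => ?_⟩
    rcases x with e | A
    · rw [loc_Ph_inl, loc_Ph_inl]
      exact loc_bF S S' z z' h _ n
    · rw [loc_Ph_inr, loc_Ph_inr]
      exact loc_bT S S' z z' h _ n
  | inv_of x _ =>
    refine ⟨1, fun S S' z z' h n => ?_⟩
    rcases x with e | A
    · change ∃ (k : ℤ) (n' : ℕ), |k| ≤ ((1 : ℕ) : ℤ) ∧
        S.Ph (FreeGroup.of (Sum.inl e))⁻¹ (z, n) = _ ∧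
        S'.Ph (FreeGroup.of (Sum.inl e))⁻¹ (z', n) = _
      rw [map_inv, map_inv, loc_Ph_inl, loc_Ph_inl, ← map_inv, ← map_inv]
      exact loc_bF S S' z z' h _ n
    · change ∃ (k : ℤ) (n' : ℕ), |k| ≤ ((1 : ℕ) : ℤ) ∧
        S.Ph (FreeGroup.of (Sum.inr A))⁻¹ (z, n) = _ ∧
        S'.Ph (FreeGroup.of (Sum.inr A))⁻¹ (z', n) = _
      rw [map_inv, map_inv, loc_Ph_inr, loc_Ph_inr]
      exact loc_bT_inv S S' z z' h _ n
  | mul p q hp hq =>
    obtain ⟨Rp, hp⟩ := hp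
    obtain ⟨Rq, hq⟩ := hq
    refine ⟨Rp + Rq, fun S S' z z' h n => ?_⟩
    obtain ⟨k, n1, hk, h1, h2⟩ := hq S S' z z' (fun m hm => h m (by push_cast; omega)) n
    obtain ⟨l, n2, hl, h3, h4⟩ := hp S S' ((S.T ^ k) z) ((S'.T ^ k) z') (fun m hm => by
      rw [← Equiv.Perm.mul_apply, ← Equiv.Perm.mul_apply, ← zpow_add, ← zpow_add]
      refine h (m + k) ((abs_add_le m k).trans ?_)
      push_cast
      omega) n1
    refine ⟨l + k, n2, (abs_add_le l k).trans (by push_cast; omega), ?_, ?_⟩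
    · rw [map_mul, Equiv.Perm.mul_apply, h1, h3, zpow_add, Equiv.Perm.mul_apply]
    · rw [map_mul, Equiv.Perm.mul_apply, h2, h4, zpow_add, Equiv.Perm.mul_apply]

theorem loc_bound [Finite V] (e : V → V → Fin1) :
    ∃ M : ℕ, ∀ v w n, M ≤ n → (e v w : Equiv.Perm ℕ) n = n := by
  have : Fintype V := Fintype.ofFinite V
  have h : ∀ x : V × V, ∃ M : ℕ, ∀ n, M ≤ n → (e x.1 x.2 : Equiv.Perm ℕ) n = n :=
    fun x => (e x.1 x.2).2
  choose M hM using h
  refine ⟨∑ x : V × V, M x, fun v w n hn => hM (v, w) n (le_trans ?_ hn)⟩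
  exact Finset.single_le_sum (f := M) (fun _ _ => Nat.zero_le _) (Finset.mem_univ (v, w))

theorem loc_high [Finite V] (p : PP V) : ∃ M K : ℕ, ∀ (S : Sys V) (z : S.Z) (n : ℕ), M ≤ n →
    ∃ n' : ℕ, S.Ph p (z, n) = (z, n') ∧ n ≤ n' + K := by
  induction p using FreeGroup.induction_on with
  | C1 =>
    refine ⟨0, 0, fun S z n _ => ⟨n, ?_, le_rfl⟩⟩
    rw [map_one]
    rfl
  | of x =>
    rcases x with e | A
    · obtain ⟨M, hM⟩ := loc_bound e
      refine ⟨M, 0, fun S z n hn => ⟨n, ?_, le_rfl⟩⟩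
      rw [loc_Ph_inl, Sys.bF_apply]
      exact Prod.ext rfl (hM _ _ n hn)
    · refine ⟨1, 1, fun S z n hn =>
        ⟨n - ii (S.T z ∈ S.c ⁻¹' A) + ii (z ∈ S.c ⁻¹' A), ?_, ?_⟩⟩
      · rw [loc_Ph_inr]
        unfold Sys.bT
        rw [tau_apply, if_neg (by omega)]
      · have h1 : ii (S.T z ∈ S.c ⁻¹' A) ≤ 1 := by
          unfold ii
          split_ifs <;> omega
        omega
  | inv_of x _ =>
    rcases x with e | A
    · obtain ⟨M, hM⟩ := loc_bound e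
      refine ⟨M, 0, fun S z n hn => ⟨n, ?_, le_rfl⟩⟩
      change S.Ph (FreeGroup.of (Sum.inl e))⁻¹ (z, n) = _
      rw [map_inv, loc_Ph_inl, Equiv.Perm.inv_eq_iff_eq, Sys.bF_apply]
      exact Prod.ext rfl (hM _ _ n hn).symm
    · refine ⟨1, 1, fun S z n hn =>
        ⟨n - ii (z ∈ S.c ⁻¹' A) + ii (S.T z ∈ S.c ⁻¹' A), ?_, ?_⟩⟩
      · change S.Ph (FreeGroup.of (Sum.inr A))⁻¹ (z, n) = _
        rw [map_inv, loc_Ph_inr]
        unfold Sys.bT
        rw [tau_inv_apply, if_neg (by omega)]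
      · have h1 : ii (z ∈ S.c ⁻¹' A) ≤ 1 := by
          unfold ii
          split_ifs <;> omega
        omega
  | mul p q hp hq =>
    obtain ⟨Mp, Kp, hp⟩ := hp
    obtain ⟨Mq, Kq, hq⟩ := hq
    refine ⟨Mq + Mp + Kq, Kp + Kq, fun S z n hn => ?_⟩
    obtain ⟨n1, h1, h2⟩ := hq S z n (by omega)
    obtain ⟨n2, h3, h4⟩ := hp S z n1 (by omega)
    refine ⟨n2, ?_, by omega⟩
    rw [map_mul, Equiv.Perm.mul_apply, h1, h3]

/-- `loc` with `S' = S`, and `flx`-type bound: bounded displacement, and high slots stay in their block. For the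
second part: high slots are never in the slot `0`; induction as in `loc` (or use `flx`). -/
theorem loc_disp [Finite V] (p : PP V) : ∃ R M : ℕ, ∀ (S : Sys V) (z : S.Z) (n : ℕ),
    ∃ k : ℤ, |k| ≤ R ∧ (S.Ph p (z, n)).1 = (S.T ^ k) z ∧ (M ≤ n → k = 0) := by
  obtain ⟨R, hR⟩ := loc p
  obtain ⟨M, K, hM⟩ := loc_high p
  refine ⟨R, M, fun S z n => ?_⟩
  by_cases hn : M ≤ n
  · obtain ⟨n', h1, -⟩ := hM S z n hn
    refine ⟨0, by simp, ?_, fun _ => rfl⟩
    rw [h1, zpow_zero]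
    rfl
  · obtain ⟨k, n', hk, h1, -⟩ := hR S S z z (fun _ _ => rfl) n
    refine ⟨k, hk, ?_, fun h => absurd h hn⟩
    rw [h1]

/-- refinement of the colours does not change the permutation; `FreeGroup.induction_on` or `FreeGroup.ext_hom` -/
theorem Ph_rf (π : V' → V) (S : Sys V') (p : PP V) : S.Ph (rf π p) = (S.push π).Ph p := by
  induction p using FreeGroup.induction_on with
  | C1 =>
    rw [map_one, map_one, map_one]
    rfl
  | of x =>
    rcases x with e | A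
    · rw [loc_Ph_inl]
      unfold rf
      rw [FreeGroup.map.of]
      exact loc_Ph_inl S _
    · rw [loc_Ph_inr]
      unfold rf
      rw [FreeGroup.map.of]
      exact loc_Ph_inr S _
  | inv_of x hx =>
    rw [map_inv, map_inv, map_inv, hx]
    rfl
  | mul p q hp hq =>
    rw [map_mul, map_mul, map_mul, hp, hq]
    rfl

/-- the right part of `ev` -/
theorem ev_right [Finite V] (S : Sys V) (p : PP V) : (S.ev p).right = S.Ph p := by
  induction p using FreeGroup.induction_on with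
  | C1 =>
    rw [map_one, map_one]
    rfl
  | of x =>
    rcases x with e | A
    · rw [loc_Ph_inl]
      unfold Sys.ev
      rw [FreeGroup.lift_apply_of]
      rfl
    · rw [loc_Ph_inr]
      unfold Sys.ev
      rw [FreeGroup.lift_apply_of]
      rfl
  | inv_of x hx =>
    rw [map_inv, map_inv, SemidirectProduct.inv_right, hx]
  | mul p q hp hq =>
    rw [map_mul, map_mul, SemidirectProduct.mul_right, hp, hq]

end Pool.Agent.H13.BD
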