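import Pool.Agent.H13.BD.Dye2
import Pool.Agent.H13.BD.Loc

/-!
# The left part of the evaluation is given by the potential
-/

set_option autoImplicit false

open Classical

namespace Pool.Agent.H13.BD

open Pool.Agent.H13.TFG

/-- the action -/
noncomputable abbrev ac (Y : Type) : Equiv.Perm (Y × ℕ) →* MulAut (RAAG (tg Y)) :=
  raagAct (tg Y) (Equiv.Perm (Y × ℕ)) (tg_smul Y)

/-- the permutations of the slots -/
noncomputable def phy {Ω V : Type} (c : Ω × ℤ → V) : PP V →* Equiv.Perm ((Ω × ℤ) × ℕ) :=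
  (ysys c).Ph

/-- the evaluation -/
noncomputable def evy {Ω V : Type} [Finite V] (c : Ω × ℤ → V) : PP V →* GG (Ω × ℤ) :=
  (ysys c).ev

/-- the first token of each block, in the state `g` -/
def sty {Ω : Type} (g : Equiv.Perm ((Ω × ℤ) × ℕ)) : Ω × ℤ ↪ (Ω × ℤ) × ℕ :=
  ⟨fun b => g (b, 0), fun _ _ h => congrArg Prod.fst (g.injective h)⟩

section basic

variable {Ω V V' : Type}

theorem Sys.Ph_inl (S : Sys V) (a : V → V → Fin1) :
    S.Ph (FreeGroup.of (Sum.inl a)) = S.bF (fun v w => (a v w : Equiv.Perm ℕ)) := by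
  unfold Sys.Ph
  rw [FreeGroup.lift_apply_of]
  rfl

theorem Sys.Ph_inr (S : Sys V) (A : Set V) : S.Ph (FreeGroup.of (Sum.inr A)) = S.bT A := by
  unfold Sys.Ph
  rw [FreeGroup.lift_apply_of]
  rfl

theorem Sys.ev_inl [Finite V] (S : Sys V) (a : V → V → Fin1) :
    S.ev (FreeGroup.of (Sum.inl a)) = S.F (fun v w => (a v w : Equiv.Perm ℕ)) := by
  unfold Sys.ev
  rw [FreeGroup.lift_apply_of]
  rfl

theorem Sys.ev_inr [Finite V] (S : Sys V) (A : Set V) :
    S.ev (FreeGroup.of (Sum.inr A)) = S.t A := by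
  unfold Sys.ev
  rw [FreeGroup.lift_apply_of]
  rfl

theorem phy_inl (c : Ω × ℤ → V) (a : V → V → Fin1) (t : (Ω × ℤ) × ℕ) :
    (phy c (FreeGroup.of (Sum.inl a)) t).1 = t.1 := by
  have h : phy c (FreeGroup.of (Sum.inl a)) =
      bp (fun y => (a (c y) (c (shf Ω y)) : Equiv.Perm ℕ)) := (ysys c).Ph_inl a
  rw [h, bp_apply]

theorem phy_inr (c : Ω × ℤ → V) (A : Set V) :
    phy c (FreeGroup.of (Sum.inr A)) = tau (shf Ω) (c ⁻¹' A) := (ysys c).Ph_inr A

theorem evy_inl [Finite V] (c : Ω × ℤ → V) (a : V → V → Fin1) :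
    ∃ e : Equiv.Perm ((Ω × ℤ) × ℕ), evy c (FreeGroup.of (Sum.inl a)) =
      SemidirectProduct.inr e :=
  ⟨(ysys c).bF (fun v w => (a v w : Equiv.Perm ℕ)), (ysys c).ev_inl a⟩

theorem evy_inr [Finite V] (c : Ω × ℤ → V) (A : Set V) :
    evy c (FreeGroup.of (Sum.inr A)) =
      ⟨LA c (sty 1) A, tau (shf Ω) (c ⁻¹' A)⟩ := (ysys c).ev_inr A

theorem evy_right [Finite V'] (c' : Ω × ℤ → V') (π : V' → V) (p : PP V) :
    (evy c' (rf π p)).right = phy (fun y => π (c' y)) p := by
  have h1 : (evy c' (rf π p)).right = (ysys c').Ph (rf π p) := ev_right _ _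
  rw [h1, Ph_rf]
  rfl

theorem mk_single {A : Type} (a : A) (ε : Bool) :
    FreeGroup.mk [(a, ε)] = sg (FreeGroup.of a) ε := by
  cases ε <;> rfl

end basic

variable {Ω V' Q : Type} [Finite V'] [Finite Q] {c' : Ω × ℤ → V'} {q : Ω × ℤ → Q}

theorem th_congr {M : ℕ} {e e' : Q → ℕ → ℤ} (h : ∀ κ s, e' κ s = e κ s) :
    Th c' q M e' = Th c' q M e := by
  have h1 : e' = e := by
    funext κ s
    exact h κ s
  rw [h1]

theorem th_zero {M : ℕ} {e : Q → ℕ → ℤ} (h : ∀ κ s, e κ s = 0) : Th c' q M e = 1 := by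
  unfold Th
  have h1 : (fun i : Q × Fin M => pot (e i.1 i.2)) = 1 := by
    funext i
    rw [h, pot_zero]
    rfl
  rw [h1, map_one]

theorem ac_LA (g h : Equiv.Perm ((Ω × ℤ) × ℕ)) (A : Set V') :
    ac (Ω × ℤ) g (LA c' (sty h) A) = LA c' (sty (g * h)) A := by
  have h1 := LA_act c' (sty h) g A
  exact h1

theorem dye_left (hq : Function.Surjective q) {M R : ℕ}
    (hr : ∀ m : ℤ, |m| ≤ R → ∀ y y' : Ω × ℤ, c' y = c' y' →
      q (y.1, y.2 - m) = q (y'.1, y'.2 - m))
    {V : Type} (π : V' → V) (L : List (Gn V × Bool))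
    (hL : ∀ L1 L2, L = L1 ++ L2 →
      ∃ e, Tm q M R (phy (fun y => π (c' y)) (FreeGroup.mk L1)) e) (L1 : List (Gn V × Bool)) :
    ∀ (L2 : List (Gn V × Bool)), L = L1 ++ L2 → ∀ e,
      Tm q M R (phy (fun y => π (c' y)) (FreeGroup.mk L1)) e →
      (evy c' (rf π (FreeGroup.mk L1))).left = (Th c' q M e)⁻¹ := by
  induction L1 using List.reverseRecOn with
  | nil =>
    intro L2 _ e he
    have h1 : (FreeGroup.mk [] : PP V) = 1 := rfl
    have h2 : ∀ κ s, e κ s = 0 := by
      intro κ s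
      obtain ⟨y, rfl⟩ := hq κ
      have h3 := he.loc y s
      rw [h1, map_one] at h3
      have h4 : y = (y.1, y.2 + e (q y) s) := h3
      have h5 : y.2 = y.2 + e (q y) s := congrArg Prod.snd h4
      omega
    rw [h1, map_one, map_one, th_zero h2, inv_one]
    rfl
  | append_singleton L1 x ih =>
    intro L2 hL2 e' he'
    rw [List.append_assoc] at hL2
    obtain ⟨e, he⟩ := hL L1 ([x] ++ L2) hL2
    have ih' := ih ([x] ++ L2) hL2 e he
    have h1 : (FreeGroup.mk (L1 ++ [x]) : PP V) = FreeGroup.mk L1 * FreeGroup.mk [x] := by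
      rw [FreeGroup.mul_mk]
    rw [h1, map_mul] at he'
    rw [h1, map_mul, map_mul, SemidirectProduct.mul_left, evy_right, ih']
    obtain ⟨a, ε⟩ := x
    rw [mk_single] at he' ⊢
    rw [map_sg] at he'
    rw [map_sg, map_sg]
    generalize phy (fun y => π (c' y)) (FreeGroup.mk L1) = g at he he' ⊢
    rcases a with a | A
    · -- a block permutation
      have h2 : ∀ κ s, e' κ s = e κ s := by
        intro κ s
        obtain ⟨y, rfl⟩ := hq κ
        have h3 := he.loc y s
        have h4 := he'.loc y s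
        rw [mul_inv_rev, Equiv.Perm.mul_apply] at h4
        have h5 : ∀ t : (Ω × ℤ) × ℕ,
            ((sg (phy (fun y => π (c' y)) (FreeGroup.of (Sum.inl a))) ε)⁻¹ t).1 = t.1 := by
          intro t
          have h6 := phy_inl (fun y => π (c' y)) a
          cases ε with
          | true =>
            rw [sg_true]
            have h7 := h6 ((phy (fun y => π (c' y)) (FreeGroup.of (Sum.inl a)))⁻¹ t)
            rw [← Equiv.Perm.mul_apply, mul_inv_cancel] at h7
            exact h7.symm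
          | false =>
            rw [sg_false, inv_inv]
            exact h6 t
        rw [h5, h3] at h4
        have h6 := (Prod.mk.inj h4).2
        omega
      have h3 : (sg (evy c' (rf π (FreeGroup.of (Sum.inl a)))) ε).left = 1 := by
        have h4 : rf π (FreeGroup.of (Sum.inl a)) =
            FreeGroup.of (Sum.inl (fun v w => a (π v) (π w))) := rfl
        obtain ⟨u, hu⟩ := evy_inl c' (fun v w => a (π v) (π w))
        rw [h4, hu]
        cases ε with
        | true => rfl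
        | false =>
          rw [sg_false, ← map_inv]
          rfl
      rw [h3, map_one, mul_one, th_congr h2]
    · -- a token move
      have h4 : rf π (FreeGroup.of (Sum.inr A)) = FreeGroup.of (Sum.inr (π ⁻¹' A)) := rfl
      rw [h4, evy_inr]
      rw [phy_inr] at he'
      have h5 : (fun y => π (c' y)) ⁻¹' A = c' ⁻¹' (π ⁻¹' A) := rfl
      rw [h5] at he'
      cases ε with
      | true =>
        rw [sg_true] at he' ⊢
        change (Th c' q M e)⁻¹ * ac (Ω × ℤ) g (LA c' (sty 1) (π ⁻¹' A)) = _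
        rw [ac_LA, mul_one, th_step hq hr he he' (sty g) (fun _ => rfl), inv_mul_cancel_left]
      | false =>
        rw [sg_false] at he' ⊢
        rw [SemidirectProduct.inv_left]
        change (Th c' q M e)⁻¹ * ac (Ω × ℤ) g (ac (Ω × ℤ) (tau (shf Ω) (c' ⁻¹' (π ⁻¹' A)))⁻¹
          (LA c' (sty 1) (π ⁻¹' A))⁻¹) = _
        have he2 : Tm q M R (g * (tau (shf Ω) (c' ⁻¹' (π ⁻¹' A)))⁻¹ *
            tau (shf Ω) (c' ⁻¹' (π ⁻¹' A))) e := by
          rw [inv_mul_cancel_right]
          exact he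
        rw [map_inv, map_inv, ac_LA, ac_LA, mul_one,
          th_step hq hr he' he2 (sty _) (fun _ => rfl), mul_inv_rev, inv_inv,
          inv_mul_cancel_left]

end Pool.Agent.H13.BD
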