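import Pool.Agent.H13.BD.LftDef
import Pool.Agent.H98.FJ.Closed

/-!
# Groups of permutations of bounded displacement along a map with bounded fibres
-/

set_option autoImplicit false

open Classical

namespace Pool.Agent.H13.BD

open Pool.Agent.H98.FJ

/-- A map with fibres of at most `K` elements can be made injective. -/
theorem fib_inj {X Y : Type} (ι : X → Y) (K : ℕ)
    (hι : ∀ y, {x | ι x = y}.Finite ∧ {x | ι x = y}.ncard ≤ K) :
    ∃ j : X ↪ Y × Fin K, ∀ x, (j x).1 = ι x := by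
  have h1 : ∀ y, Nonempty ({x | ι x = y} ↪ Fin K) := by
    intro y
    have hf : Finite {x | ι x = y} := (hι y).1
    have hf2 : Fintype {x | ι x = y} := Fintype.ofFinite _
    apply Function.Embedding.nonempty_of_card_le
    rw [Fintype.card_fin, ← Nat.card_eq_fintype_card]
    exact (hι y).2
  let r : ∀ y, {x | ι x = y} ↪ Fin K := fun y => (h1 y).some
  refine ⟨⟨fun x => (ι x, r (ι x) ⟨x, rfl⟩), ?_⟩, fun x => rfl⟩
  intro x x' h
  have h2 := Prod.mk.inj h
  have h4 : ∀ (y : Y) (h : ι x' = y), r y ⟨x', h⟩ = r (ι x') ⟨x', rfl⟩ := by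
    rintro _ rfl
    rfl
  have h5 : r (ι x) ⟨x, rfl⟩ = r (ι x) ⟨x', h2.1.symm⟩ := by
    rw [h4 (ι x) h2.1.symm]
    exact h2.2
  exact congrArg Subtype.val ((r (ι x)).injective h5)

/-- `K` floors: one goes up, and from the last floor of `y` to the first floor of `T y` -/
theorem exists_tower {Y : Type} (T : Equiv.Perm Y) (K : ℕ) :
    ∃ S : Equiv.Perm (Y × Fin K), ∀ (y : Y) (k k' : Fin K) (n : ℤ),
      ∃ m : ℤ, |m| ≤ K * |n| + K ∧ ((T ^ n) y, k') = (S ^ m) (y, k) := by
  rcases Nat.eq_zero_or_pos K with hK | hK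
  · subst hK
    exact ⟨1, fun _ k => k.elim0⟩
  · -- the floors
    let o : Fin K := ⟨0, hK⟩
    let l : Fin K := ⟨K - 1, by omega⟩
    let S : Equiv.Perm (Y × Fin K) :=
      { toFun := fun p => if h : (p.2 : ℕ) + 1 < K then (p.1, ⟨(p.2 : ℕ) + 1, h⟩) else (T p.1, o)
        invFun := fun p => if (p.2 : ℕ) = 0 then (T.symm p.1, l)
          else (p.1, ⟨(p.2 : ℕ) - 1, by omega⟩)
        left_inv := by
          rintro ⟨y, k⟩
          dsimp only
          by_cases h : (k : ℕ) + 1 < K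
          · rw [dif_pos h]
            simp
          · rw [dif_neg h]
            have h1 : (k : ℕ) = K - 1 := by omega
            simp [o, l, ← h1]
        right_inv := by
          rintro ⟨y, k⟩
          dsimp only
          by_cases h : (k : ℕ) = 0
          · rw [if_pos h]
            have h1 : ¬ ((l : ℕ) + 1 < K) := by simp [l]; omega
            dsimp only
            rw [dif_neg h1, Equiv.apply_symm_apply]
            exact Prod.ext rfl (Fin.ext h.symm)
          · rw [if_neg h]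
            have h1 : (k : ℕ) - 1 + 1 < K := by omega
            dsimp only
            rw [dif_pos h1]
            refine Prod.ext rfl (Fin.ext ?_)
            change (k : ℕ) - 1 + 1 = k
            omega }
    have hS1 : ∀ (y : Y) (k : ℕ) (hk : k < K), (S ^ k) (y, o) = (y, ⟨k, hk⟩) := by
      intro y k
      induction k with
      | zero => intro hk; rfl
      | succ k ih =>
        intro hk
        rw [pow_succ', Equiv.Perm.mul_apply, ih (by omega)]
        change (if h : k + 1 < K then (y, (⟨k + 1, h⟩ : Fin K)) else (T y, o)) = _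
        rw [dif_pos hk]
    have hS2 : ∀ y : Y, (S ^ K) (y, o) = (T y, o) := by
      intro y
      have h1 : S ^ K = S * S ^ (K - 1) := by rw [mul_pow_sub_one hK.ne']
      rw [h1, Equiv.Perm.mul_apply, hS1 y (K - 1) (by omega)]
      change (if h : K - 1 + 1 < K then (y, (⟨K - 1 + 1, h⟩ : Fin K)) else (T y, o)) = _
      rw [dif_neg (by omega)]
    have hS3 : ∀ (n : ℕ) (y : Y), ((S ^ K) ^ n) (y, o) = ((T ^ n) y, o) := by
      intro n
      induction n with
      | zero => intro y; rfl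
      | succ n ih =>
        intro y
        rw [pow_succ, Equiv.Perm.mul_apply, hS2, ih, pow_succ, Equiv.Perm.mul_apply]
    have hS4 : ∀ (n : ℤ) (y : Y), ((S ^ K) ^ n) (y, o) = ((T ^ n) y, o) := by
      intro n y
      obtain ⟨m, rfl | rfl⟩ := Int.eq_nat_or_neg n
      · rw [zpow_natCast, zpow_natCast, hS3]
      · rw [zpow_neg, zpow_neg, Equiv.Perm.inv_eq_iff_eq, zpow_natCast, zpow_natCast, hS3]
        have h2 : (T ^ m) ((T ^ m)⁻¹ y) = y := (T ^ m).apply_symm_apply y
        rw [h2]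
    refine ⟨S, fun y k k' n => ⟨k' + K * n - k, ?_, ?_⟩⟩
    · have h1 : |(K : ℤ) * n| = K * |n| := by rw [abs_mul, Nat.abs_cast]
      have h2 := abs_le.1 (le_of_eq h1)
      have hk := k.2
      have hk' := k'.2
      rw [abs_le]
      constructor <;> omega
    · have h1 := hS1 y k k.2
      have h2 : (y, k) = (S ^ (k : ℕ)) (y, o) := h1.symm
      rw [h2, ← zpow_natCast, ← Equiv.Perm.mul_apply, ← zpow_add]
      have h3 : ((k' : ℕ) : ℤ) + K * n - (k : ℕ) + (k : ℕ) = ((k' : ℕ) : ℤ) + K * n := by ring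
      rw [h3, zpow_add, Equiv.Perm.mul_apply, zpow_mul, zpow_natCast, zpow_natCast, hS4,
        hS1 _ k' k'.2]

theorem fib_mem {C : (G : Type) → [Group G] → Prop} (hC : Inherits C)
    (hB : ∀ (X : Type) (T : Equiv.Perm X) (H : Subgroup (Equiv.Perm X)),
      (∀ g ∈ H, ∃ N : ℕ, Bd T N g) → C H) {X Y : Type} (T : Equiv.Perm Y) (ι : X → Y) (K : ℕ)
    (hι : ∀ y, {x | ι x = y}.Finite ∧ {x | ι x = y}.ncard ≤ K)
    (H : Subgroup (Equiv.Perm X))
    (hH : ∀ g ∈ H, ∃ N : ℕ, ∀ x, ∃ n : ℤ, |n| ≤ N ∧ ι (g x) = (T ^ n) (ι x)) :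
    C H := by
  obtain ⟨j, hj⟩ := fib_inj ι K hι
  obtain ⟨S, hS⟩ := exists_tower T K
  let φ : Equiv.Perm X →* Equiv.Perm (Y × Fin K) := Equiv.Perm.viaEmbeddingHom j
  have hφ : ∀ g x, φ g (j x) = j (g x) := fun g x =>
    Equiv.Perm.viaEmbedding_apply _ _ _
  have hφ2 : ∀ g y, y ∉ Set.range j → φ g y = y := fun g y hy =>
    Equiv.Perm.viaEmbedding_apply_of_notMem _ _ _ hy
  have hmem : ∀ g ∈ H.map φ, ∃ N : ℕ, Bd S N g := by
    rintro _ ⟨g, hg, rfl⟩
    obtain ⟨N, hN⟩ := hH g hg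
    refine ⟨K * N + K, fun y => ?_⟩
    by_cases hy : y ∈ Set.range j
    · obtain ⟨x, rfl⟩ := hy
      obtain ⟨n, hn, hn2⟩ := hN x
      obtain ⟨m, hm, hm2⟩ := hS (ι x) (j x).2 (j (g x)).2 n
      refine ⟨m, hm.trans ?_, ?_⟩
      · push_cast
        have h1 : (K : ℤ) * |n| ≤ K * N := mul_le_mul_of_nonneg_left hn (by positivity)
        linarith
      · have h1 : j x = (ι x, (j x).2) := Prod.ext (hj x) rfl
        have h2 : j (g x) = ((T ^ n) (ι x), (j (g x)).2) := Prod.ext ((hj _).trans hn2) rfl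
        rw [hφ, h2, hm2, ← h1]
    · rw [hφ2 _ _ hy]
      exact ⟨0, by rw [abs_zero]; positivity, by rw [zpow_zero]; rfl⟩
  let ψ : H →* H.map φ := (φ.comp H.subtype).codRestrict (H.map φ)
    (fun g => ⟨g.1, g.2, rfl⟩)
  refine hC.of_injective ψ ?_ (hB _ S _ hmem)
  intro g h hgh
  have h1 : φ g.1 = φ h.1 := congrArg Subtype.val hgh
  exact Subtype.ext (Equiv.Perm.viaEmbeddingHom_injective j h1)

end Pool.Agent.H13.BD
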