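import Pool.Agent.H13.BD.LftDef

/-!
# Lifts of permutations of bounded displacement: existence and uniqueness
-/

set_option autoImplicit false

open Classical

namespace Pool.Agent.H13.BD

variable {X : Type} (T : Equiv.Perm X)

theorem Lg_anti {P Q : ℕ} (h : P ≤ Q) : Lg T Q ⊆ Lg T P := by
  intro x hx k hk hk2
  exact hx k hk (hk2.trans (by exact_mod_cast h))

theorem LftA_comm (j k : ℤ) (x : X) : (T ^ j) ((T ^ k) x) = (T ^ (j + k)) x := by
  rw [zpow_add, Equiv.Perm.mul_apply]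

theorem LftA_cancel (j k : ℤ) (x : X) (h : (T ^ j) x = (T ^ k) x) : (T ^ (j - k)) x = x := by
  have h1 : (T ^ (-k)) ((T ^ j) x) = (T ^ (-k)) ((T ^ k) x) := congrArg _ h
  rw [LftA_comm, LftA_comm] at h1
  have e1 : -k + j = j - k := by ring
  have e2 : -k + k = 0 := by ring
  rw [e1, e2] at h1
  simpa using h1

theorem Lg_pow (P : ℕ) (k : ℤ) (x : X) (hx : x ∈ Lg T P) : (T ^ k) x ∈ Lg T P := by
  intro j hj hj2 h
  rw [LftA_comm] at h
  have h1 := LftA_cancel T (j + k) k x h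
  have e : j + k - k = j := by ring
  rw [e] at h1
  exact hx j hj hj2 h1

/-- the map of the lines given by a displacement function -/
noncomputable def LftA_U (P : ℕ) (d : X → ℤ) (y : X × ℤ) : X × ℤ :=
  if y.1 ∈ Lg T P then (y.1, y.2 + d ((T ^ y.2) y.1)) else y

theorem LftA_U_pos {P : ℕ} {d : X → ℤ} {y : X × ℤ} (h : y.1 ∈ Lg T P) :
    LftA_U T P d y = (y.1, y.2 + d ((T ^ y.2) y.1)) := if_pos h

theorem LftA_U_neg {P : ℕ} {d : X → ℤ} {y : X × ℤ} (h : y.1 ∉ Lg T P) :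
    LftA_U T P d y = y := if_neg h

theorem LftA_inv (N : ℕ) (a b : Equiv.Perm X) (hab : ∀ x, b (a x) = x) (d d' : X → ℤ)
    (hd : ∀ x, |d x| ≤ N ∧ a x = (T ^ (d x)) x) (hd' : ∀ x, |d' x| ≤ N ∧ b x = (T ^ (d' x)) x)
    (y : X × ℤ) : LftA_U T (2 * N) d' (LftA_U T (2 * N) d y) = y := by
  by_cases hy : y.1 ∈ Lg T (2 * N)
  · rw [LftA_U_pos T hy]
    have hy' : ((y.1, y.2 + d ((T ^ y.2) y.1)) : X × ℤ).1 ∈ Lg T (2 * N) := hy
    rw [LftA_U_pos T hy']
    obtain ⟨x, n⟩ := y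
    dsimp only
    have hx : x ∈ Lg T (2 * N) := hy
    have h1 := hd ((T ^ n) x)
    have h2 := hd' ((T ^ (n + d ((T ^ n) x))) x)
    have h3 : a ((T ^ n) x) = (T ^ (n + d ((T ^ n) x))) x := by
      rw [h1.2, LftA_comm, add_comm]
    have h4 : b ((T ^ (n + d ((T ^ n) x))) x) = (T ^ n) x := by
      rw [← h3, hab]
    rw [h4, LftA_comm] at h2
    have h5 := LftA_cancel T _ _ x h2.2
    have h6 : n - (d' ((T ^ (n + d ((T ^ n) x))) x) + (n + d ((T ^ n) x))) = 0 := by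
      by_contra h7
      refine hx _ h7 ?_ h5
      have h8 := h1.1
      have h9 := h2.1
      rw [abs_le] at *
      push_cast
      constructor <;> omega
    refine Prod.ext rfl ?_
    change n + d ((T ^ n) x) + d' ((T ^ (n + d ((T ^ n) x))) x) = n
    omega
  · rw [LftA_U_neg T hy, LftA_U_neg T hy]

/-- Proof. Let `P := 2 * N`. For `y = (x, n)` with `x ∈ Lg T P` let `u y := (x, n + m)` where `m` is the unique integer with
`|m| ≤ N` and `g (T ^ n x) = T ^ m (T ^ n x)`; for the other `y` let `u y := y`. The inverse is defined in the same way from `g⁻¹`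
(`Bd T N g⁻¹`: if `g x = T ^ n x` for `x = g⁻¹ y` then `g⁻¹ y = T ^ (-n) y`). The compositions are the identity: for
`u (x, n) = (x, n + m)`, `v (x, n + m) = (x, n + m + m')`, `T ^ (n + m + m') x = g⁻¹ (g (T ^ n x)) = T ^ n x`, so `m + m' = 0` as
`|m + m'| ≤ 2 N` and `x ∈ Lg T (2 N)`. -/
theorem lft_exists (g : Equiv.Perm X) (N : ℕ) (hg : Bd T N g) :
    ∃ u, IsLift T g u := by
  have hg' : Bd T N g⁻¹ := by
    intro y
    obtain ⟨n, hn, hn2⟩ := hg (g⁻¹ y)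
    refine ⟨-n, by rw [abs_neg]; exact hn, ?_⟩
    have h1 : g (g⁻¹ y) = y := g.apply_symm_apply y
    rw [h1] at hn2
    have h2 : (T ^ (-n)) y = (T ^ (-n)) ((T ^ n) (g⁻¹ y)) := congrArg _ hn2
    rw [h2, LftA_comm]
    simp
  choose d hd using hg
  choose d' hd' using hg'
  refine ⟨⟨LftA_U T (2 * N) d, LftA_U T (2 * N) d', ?_, ?_⟩, ?_, 2 * N, ?_⟩
  · exact LftA_inv T N g g⁻¹ (fun x => g.symm_apply_apply x) d d' hd hd'
  · exact LftA_inv T N g⁻¹ g (fun x => g.apply_symm_apply x) d' d hd' hd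
  · refine ⟨N, fun y => ?_⟩
    change (LftA_U T (2 * N) d y).1 = y.1 ∧ |(LftA_U T (2 * N) d y).2 - y.2| ≤ N
    by_cases hy : y.1 ∈ Lg T (2 * N)
    · rw [LftA_U_pos T hy]
      refine ⟨rfl, ?_⟩
      have h1 := (hd ((T ^ y.2) y.1)).1
      dsimp only
      rw [add_sub_cancel_left]
      exact h1
    · rw [LftA_U_neg T hy]
      exact ⟨rfl, by simp⟩
  · intro y hy
    change g ((T ^ y.2) y.1) = (T ^ (LftA_U T (2 * N) d y).2) y.1
    rw [LftA_U_pos T hy, (hd ((T ^ y.2) y.1)).2, LftA_comm]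
    rw [add_comm]

/-- Proof. For `y = (x, n)`, `x` of large period, `T ^ (u y).2 x = g (T ^ n x) = T ^ (u' y).2 x`, and
`|(u y).2 - (u' y).2|` is at most the sum of the displacement bounds. -/
theorem lft_unique (g : Equiv.Perm X) (u u' : Equiv.Perm (X × ℤ)) (hu : IsLift T g u)
    (hu' : IsLift T g u') : ∃ P : ℕ, ∀ y : X × ℤ, y.1 ∈ Lg T P → u y = u' y := by
  obtain ⟨⟨N1, hN1⟩, P1, hP1⟩ := hu
  obtain ⟨⟨N2, hN2⟩, P2, hP2⟩ := hu'
  refine ⟨max (max P1 P2) (N1 + N2), fun y hy => ?_⟩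
  have y1 : y.1 ∈ Lg T P1 :=
    Lg_anti T ((le_max_left P1 P2).trans (le_max_left _ (N1 + N2))) hy
  have y2 : y.1 ∈ Lg T P2 :=
    Lg_anti T ((le_max_right P1 P2).trans (le_max_left _ (N1 + N2))) hy
  have y3 : y.1 ∈ Lg T (N1 + N2) := Lg_anti T (le_max_right _ _) hy
  have h1 : (T ^ (u y).2) y.1 = (T ^ (u' y).2) y.1 := by
    rw [← hP1 y y1, ← hP2 y y2]
  have h2 := LftA_cancel T _ _ _ h1
  have h3 : (u y).2 - (u' y).2 = 0 := by
    by_contra h4
    refine y3 _ h4 ?_ h2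
    have h5 := (hN1 y).2
    have h6 := (hN2 y).2
    rw [abs_le] at *
    push_cast
    constructor <;> omega
  refine Prod.ext ?_ (by omega)
  rw [(hN1 y).1, (hN2 y).1]

theorem lft_mul (g h : Equiv.Perm X) (u v : Equiv.Perm (X × ℤ)) (hu : IsLift T g u)
    (hv : IsLift T h v) : IsLift T (g * h) (u * v) := by
  obtain ⟨hu1, P1, hP1⟩ := hu
  obtain ⟨hv1, P2, hP2⟩ := hv
  refine ⟨mul_mem hu1 hv1, max P1 P2, fun y hy => ?_⟩
  obtain ⟨N2, hN2⟩ := hv1
  have y1 : y.1 ∈ Lg T P1 := Lg_anti T (le_max_left P1 P2) hy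
  have y2 : y.1 ∈ Lg T P2 := Lg_anti T (le_max_right P1 P2) hy
  have hv2 : (v y).1 = y.1 := (hN2 y).1
  have y3 : (v y).1 ∈ Lg T P1 := by rw [hv2]; exact y1
  have h1 := hP2 y y2
  have h2 := hP1 (v y) y3
  rw [Equiv.Perm.mul_apply, Equiv.Perm.mul_apply, h1]
  rw [hv2] at h2
  exact h2

instance NN_normal : (NN T).Normal := by
  constructor
  rintro n ⟨P, hP⟩ g
  refine ⟨P, fun y hy => ?_⟩
  obtain ⟨N, hN⟩ := (g⁻¹).2
  have h1 : ((g⁻¹ : Wb X).1 y).1 = y.1 := (hN y).1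
  have h2 : n.1 ((g⁻¹ : Wb X).1 y) = (g⁻¹ : Wb X).1 y := by
    apply hP
    rw [h1]
    exact hy
  change g.1 (n.1 ((g⁻¹ : Wb X).1 y)) = y
  rw [h2]
  change g.1 (g.1⁻¹ y) = y
  exact g.1.apply_symm_apply y

/-- The homomorphism of a group of permutations of bounded displacement to `Wb X ⧸ NN T`. Its kernel: `g` fixes all
points of large period. Proof: `MonoidHom.mk'` with `g ↦ mk (a lift of g)` (`lft_exists`); multiplicative by `lft_mul` and
`lft_unique`. If `g` is in the kernel then its lift `u` fixes `(x, 0)` for `x ∈ Lg T P`, so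
`g x = T ^ (u (x, 0)).2 x = x` for `x` of large period. -/
theorem lft_hom (H : Subgroup (Equiv.Perm X)) (hH : ∀ g ∈ H, ∃ N : ℕ, Bd T N g) :
    ∃ φ : H →* (Wb X ⧸ NN T), ∀ g : H, φ g = 1 → ∃ P : ℕ, ∀ x ∈ Lg T P, g.1 x = x := by
  have hex : ∀ g : H, ∃ u, IsLift T g.1 u := by
    intro g
    obtain ⟨N, hN⟩ := hH g.1 g.2
    exact lft_exists T g.1 N hN
  choose u hu using hex
  let f : H → Wb X := fun g => ⟨u g, (hu g).1⟩
  have hmul : ∀ g h : H, (QuotientGroup.mk (f (g * h)) : Wb X ⧸ NN T) =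
      QuotientGroup.mk (f g) * QuotientGroup.mk (f h) := by
    intro g h
    rw [← QuotientGroup.mk_mul, QuotientGroup.eq]
    obtain ⟨P, hP⟩ := lft_unique T (g * h : H).1 (u (g * h)) (u g * u h) (hu (g * h))
      (lft_mul T g.1 h.1 (u g) (u h) (hu g) (hu h))
    refine ⟨P, fun y hy => ?_⟩
    change (u (g * h))⁻¹ ((u g * u h) y) = y
    rw [← hP y hy]
    exact (u (g * h)).symm_apply_apply y
  refine ⟨MonoidHom.mk' (fun g => (QuotientGroup.mk (f g) : Wb X ⧸ NN T)) hmul, fun g hg => ?_⟩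
  have h1 : (QuotientGroup.mk (f g) : Wb X ⧸ NN T) = 1 := hg
  rw [QuotientGroup.eq_one_iff] at h1
  obtain ⟨P1, hP1⟩ := h1
  obtain ⟨P2, hP2⟩ := (hu g).2
  refine ⟨max P1 P2, fun x hx => ?_⟩
  have x1 : x ∈ Lg T P1 := Lg_anti T (le_max_left P1 P2) hx
  have x2 : x ∈ Lg T P2 := Lg_anti T (le_max_right P1 P2) hx
  have h2 : u g (x, 0) = (x, 0) := hP1 (x, 0) x1
  have h3 := hP2 (x, 0) x2
  rw [h2] at h3
  simpa using h3

end Pool.Agent.H13.BD
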