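import Pool.Agent.H13.BD.LftDef
import Pool.Agent.H98.FJ.Closed

/-!
# `Wb X ⧸ NN T` is a directed colimit of wobbling groups
-/

set_option autoImplicit false

open Classical

namespace Pool.Agent.H13.BD

open Pool.Agent.H98.FJ

theorem lftB_fst {X : Type} (w : Wb X) (y : X × ℤ) : (w.1 y).1 = y.1 := by
  obtain ⟨N, hN⟩ := w.2
  exact (hN y).1

theorem lftB_symm_fst {X : Type} (w : Wb X) (y : X × ℤ) : (w.1.symm y).1 = y.1 := by
  have h := lftB_fst w (w.1.symm y)
  rw [Equiv.apply_symm_apply] at h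
  exact h.symm

theorem lftB_eq {X : Type} (w : Wb X) (y : X × ℤ) : w.1 y = (y.1, (w.1 y).2) :=
  Prod.ext (lftB_fst w y) rfl

theorem lftB_symm_eq {X : Type} (w : Wb X) (y : X × ℤ) :
    w.1.symm y = (y.1, (w.1.symm y).2) :=
  Prod.ext (lftB_symm_fst w y) rfl

/-- restriction of a member of the wobbling group to the lines over a set, as a permutation -/
def lftBPerm {X : Type} (S : Set X) (w : Wb X) : Equiv.Perm (S × ℤ) where
  toFun y := (y.1, (w.1 (y.1.1, y.2)).2)
  invFun y := (y.1, (w.1.symm (y.1.1, y.2)).2)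
  left_inv y := by
    refine Prod.ext rfl ?_
    change (w.1.symm (y.1.1, (w.1 (y.1.1, y.2)).2)).2 = y.2
    have h := lftB_eq w (y.1.1, y.2)
    rw [← h, Equiv.symm_apply_apply]
  right_inv y := by
    refine Prod.ext rfl ?_
    change (w.1 (y.1.1, (w.1.symm (y.1.1, y.2)).2)).2 = y.2
    have h := lftB_symm_eq w (y.1.1, y.2)
    rw [← h, Equiv.apply_symm_apply]

theorem lftBPerm_apply {X : Type} (S : Set X) (w : Wb X) (y : S × ℤ) :
    lftBPerm S w y = (y.1, (w.1 (y.1.1, y.2)).2) := rfl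

/-- restriction of a member of the wobbling group to the lines over a set -/
def lftBHom {X : Type} (S : Set X) : Wb X →* Wb S where
  toFun w := ⟨lftBPerm S w, by
    obtain ⟨N, hN⟩ := w.2
    exact ⟨N, fun y => ⟨rfl, (hN (y.1.1, y.2)).2⟩⟩⟩
  map_one' := by
    apply Subtype.ext
    ext1 y
    rfl
  map_mul' v w := by
    apply Subtype.ext
    ext1 y
    refine Prod.ext rfl ?_
    change (v.1 (w.1 (y.1.1, y.2))).2 = (v.1 (y.1.1, (w.1 (y.1.1, y.2)).2)).2
    have h := lftB_eq w (y.1.1, y.2)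
    rw [← h]

theorem lftB_mem_ker {X : Type} (S : Set X) (w : Wb X) :
    w ∈ (lftBHom S).ker ↔ ∀ y : X × ℤ, y.1 ∈ S → w.1 y = y := by
  constructor
  · intro h y hy
    have h1 : lftBHom S w = 1 := h
    have h2 : lftBPerm S w = 1 := congrArg Subtype.val h1
    have h3 : lftBPerm S w (⟨y.1, hy⟩, y.2) = (⟨y.1, hy⟩, y.2) := by
      rw [h2]
      rfl
    have h4 := congrArg Prod.snd h3
    exact Prod.ext (lftB_fst w y) h4
  · intro h
    change lftBHom S w = 1
    apply Subtype.ext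
    change lftBPerm S w = 1
    ext1 y
    rw [lftBPerm_apply, h (y.1.1, y.2) y.1.2]
    rfl

variable {X : Type} (T : Equiv.Perm X)

theorem lftB_Lg_anti {P Q : ℕ} (h : P ≤ Q) : Lg T Q ⊆ Lg T P :=
  fun _ hy k hk hk2 => hy k hk (hk2.trans (by exact_mod_cast h))

/-- Proof. `Inherits.quot` for the group `Wb X`, the projection to `Wb X ⧸ NN T` and the kernels
`N P := {w | ∀ y, y.1 ∈ Lg T P → w.1 y = y}`, `P : ℕ`, of the restriction homomorphisms `Wb X →* Wb (Lg T P)`
(`(w y).1 = y.1`, so `w` restricts to `(Lg T P) × ℤ`). So `Wb X ⧸ N P` embeds in `Wb (Lg T P)` (`Subtype` of `X` as a type),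
which is in the class. `N P ≤ N Q` for `P ≤ Q` (`Lg T Q ⊆ Lg T P`), and `NN T` is the union of the `N P`. -/
theorem nn_mem {C : (G : Type) → [Group G] → Prop} (hC : Inherits C)
    (hW : ∀ Ω : Type, C (Wb Ω)) (hn : (NN T).Normal) : C (Wb X ⧸ NN T) := by
  refine hC.quot (QuotientGroup.mk' (NN T)) (QuotientGroup.mk'_surjective (NN T))
    (fun P : ℕ => (lftBHom (Lg T P)).ker) ?_ ?_ ?_ ?_
  · intro P Q h w hw
    have h1 := (lftB_mem_ker (Lg T P) w).1 hw
    exact (lftB_mem_ker (Lg T Q) w).2 fun y hy => h1 y (lftB_Lg_anti T h hy)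
  · intro P w hw
    rw [QuotientGroup.ker_mk']
    exact ⟨P, (lftB_mem_ker (Lg T P) w).1 hw⟩
  · intro w hw
    rw [QuotientGroup.ker_mk'] at hw
    obtain ⟨P, hP⟩ := hw
    exact ⟨P, (lftB_mem_ker (Lg T P) w).2 hP⟩
  · intro P
    exact hC.of_injective (QuotientGroup.kerLift (lftBHom (Lg T P)))
      (QuotientGroup.kerLift_injective (lftBHom (Lg T P))) (hW (Lg T P))

end Pool.Agent.H13.BD
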