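import Mathlib

/-!
# Groups of permutations with bounded supports in the fibres
-/

set_option autoImplicit false

open Classical

namespace Pool.Agent.H13.BD

theorem fnt_ai {X : Type} (a : Equiv.Perm X) (x : X) : a (a⁻¹ x) = x := a.apply_symm_apply x

theorem fnt_ia {X : Type} (a : Equiv.Perm X) (x : X) : a⁻¹ (a x) = x := a.symm_apply_apply x

theorem fnt_enum {X : Type} (N : Set X) (B : ℕ) (hf : N.Finite) (hB : N.ncard ≤ B) :
    ∃ e : X → ℕ, (∀ x ∈ N, ∀ y ∈ N, e x = e y → x = y) ∧ ∀ x ∈ N, e x < B := by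
  rw [Set.ncard_eq_toFinset_card _ hf] at hB
  refine ⟨fun x => if h : x ∈ hf.toFinset then ((hf.toFinset.equivFin ⟨x, h⟩ : Fin _) : ℕ) else 0, ?_, ?_⟩
  · intro x hx y hy hxy
    have hx' : x ∈ hf.toFinset := hf.mem_toFinset.2 hx
    have hy' : y ∈ hf.toFinset := hf.mem_toFinset.2 hy
    simp only [dif_pos hx', dif_pos hy'] at hxy
    have h1 := hf.toFinset.equivFin.injective (Fin.ext hxy)
    exact congrArg Subtype.val h1
  · intro x hx
    have hx' : x ∈ hf.toFinset := hf.mem_toFinset.2 hx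
    simp only [dif_pos hx']
    exact lt_of_lt_of_le (Fin.is_lt _) hB

/-- the action of `a` on `N` in the coordinates `e` -/
def fntRel {X : Type} (N : Set X) (e : X → ℕ) (B : ℕ) (a : Equiv.Perm X) : Fin B → Fin B → Prop :=
  fun p q => ∃ x ∈ N, e x = p ∧ e (a x) = q

theorem fntRel_mul {X : Type} (N : Set X) (e : X → ℕ) (B : ℕ)
    (he : ∀ x ∈ N, ∀ y ∈ N, e x = e y → x = y) (heB : ∀ x ∈ N, e x < B) (a c : Equiv.Perm X)
    (hc : ∀ x ∈ N, c x ∈ N) (p r : Fin B) :
    fntRel N e B (a * c) p r ↔ ∃ q, fntRel N e B c p q ∧ fntRel N e B a q r := by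
  constructor
  · rintro ⟨x, hx, h1, h2⟩
    exact ⟨⟨e (c x), heB _ (hc x hx)⟩, ⟨x, hx, h1, rfl⟩, ⟨c x, hc x hx, rfl, h2⟩⟩
  · rintro ⟨q, ⟨x, hx, h1, h2⟩, ⟨y, hy, h3, h4⟩⟩
    have h5 : c x = y := he _ (hc x hx) _ hy (h2.trans h3.symm)
    refine ⟨x, hx, h1, ?_⟩
    rw [Equiv.Perm.mul_apply, h5]
    exact h4

theorem fntRel_inv {X : Type} (N : Set X) (e : X → ℕ) (B : ℕ) (a : Equiv.Perm X)
    (ha : ∀ x ∈ N, a⁻¹ x ∈ N) (ha' : ∀ x ∈ N, a x ∈ N) (p q : Fin B) :
    fntRel N e B a⁻¹ p q ↔ fntRel N e B a q p := by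
  constructor
  · rintro ⟨x, hx, h1, h2⟩
    refine ⟨a⁻¹ x, ha x hx, h2, ?_⟩
    rw [fnt_ai]
    exact h1
  · rintro ⟨x, hx, h1, h2⟩
    refine ⟨a x, ha' x hx, h2, ?_⟩
    rw [fnt_ia]
    exact h1

/-- A finite set of permutations which preserve the fibres of `b` and move at most `B` points of each fibre generates a
finite group.

Proof (compare `AG_locallyFinite` in `Pool/Agent/H13/TFG/Lfn.lean`). Let `N i := {x | b x = i ∧ ∃ g ∈ s, g x ≠ x}`. All
elements of the closure preserve `N i` (they preserve `b`, and fix all points which are fixed by all `g ∈ s`, so they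
preserve the complement of this set). Choose embeddings `ι i : N i ↪ Fin B`. This gives homomorphisms
`ρ i : closure s →* Equiv.Perm (Fin B)` (`Equiv.Perm.subtypePerm`, `Equiv.Perm.viaEmbeddingHom`). The type of `i` is the
function `s → Equiv.Perm (Fin B)`, `g ↦ ρ i g`; if `i` and `j` have the same type then `ρ i = ρ j`
(`MonoidHom.eqOn_closure`, or closure induction). Choose a representative for each type. An element `a` of the closure is
determined by the family `ρ i a`, `i` a representative: finitely many elements. -/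
theorem fnt {X I : Type} (b : X → I) (s : Finset (Equiv.Perm X)) (B : ℕ)
    (hb : ∀ g ∈ s, ∀ x, b (g x) = b x)
    (hB : ∀ i, {x | b x = i ∧ ∃ g ∈ s, g x ≠ x}.Finite ∧
      {x | b x = i ∧ ∃ g ∈ s, g x ≠ x}.ncard ≤ B) :
    Finite (Subgroup.closure (s : Set (Equiv.Perm X))) := by
  -- invariance
  have hcb : ∀ a ∈ Subgroup.closure (s : Set (Equiv.Perm X)), (∀ x, b (a x) = b x) ∧
      ∀ x, (∀ g ∈ s, g x = x) → a x = x := by
    intro a ha
    induction ha using Subgroup.closure_induction with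
    | mem g hg => exact ⟨hb g (Finset.mem_coe.1 hg), fun x hx => hx g (Finset.mem_coe.1 hg)⟩
    | one => exact ⟨fun x => rfl, fun x _ => rfl⟩
    | mul a c _ _ iha ihc =>
      refine ⟨fun x => ?_, fun x hx => ?_⟩
      · rw [Equiv.Perm.mul_apply, iha.1, ihc.1]
      · rw [Equiv.Perm.mul_apply, ihc.2 x hx, iha.2 x hx]
    | inv a _ iha =>
      refine ⟨fun x => ?_, fun x hx => ?_⟩
      · have h1 := iha.1 (a⁻¹ x)
        rw [fnt_ai] at h1
        exact h1.symm
      · have h1 := iha.2 x hx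
        rw [Equiv.Perm.inv_eq_iff_eq]
        exact h1.symm
  obtain ⟨N, hN⟩ : ∃ N : I → Set X, ∀ i, N i = {x | b x = i ∧ ∃ g ∈ s, g x ≠ x} :=
    ⟨fun i => {x | b x = i ∧ ∃ g ∈ s, g x ≠ x}, fun _ => rfl⟩
  have hNm : ∀ i x, x ∈ N i ↔ b x = i ∧ ∃ g ∈ s, g x ≠ x := by
    intro i x
    rw [hN]
    rfl
  have hpres : ∀ a ∈ Subgroup.closure (s : Set (Equiv.Perm X)), ∀ i, ∀ x ∈ N i, a x ∈ N i := by
    intro a ha i x hx
    rw [hNm] at hx ⊢
    refine ⟨by rw [(hcb a ha).1, hx.1], ?_⟩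
    by_contra hcon
    push Not at hcon
    have h1 := (hcb a⁻¹ (Subgroup.inv_mem _ ha)).2 (a x) hcon
    rw [fnt_ia] at h1
    obtain ⟨g, hg, hgx⟩ := hx.2
    apply hgx
    rw [h1]
    exact hcon g hg
  have henum : ∀ i, ∃ e : X → ℕ, (∀ x ∈ N i, ∀ y ∈ N i, e x = e y → x = y) ∧ ∀ x ∈ N i, e x < B := by
    intro i
    apply fnt_enum
    · rw [hN]; exact (hB i).1
    · rw [hN]; exact (hB i).2
  choose e he heB using henum
  -- equal types give equal actions
  have hty : ∀ i j, fntRel (N i) (e i) B 1 = fntRel (N j) (e j) B 1 →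
      (∀ g ∈ s, fntRel (N i) (e i) B g = fntRel (N j) (e j) B g) →
      ∀ a ∈ Subgroup.closure (s : Set (Equiv.Perm X)),
        fntRel (N i) (e i) B a = fntRel (N j) (e j) B a := by
    intro i j h1 hs a ha
    induction ha using Subgroup.closure_induction with
    | mem g hg => exact hs g (Finset.mem_coe.1 hg)
    | one => exact h1
    | mul a c ha hc iha ihc =>
      funext p r
      apply propext
      rw [fntRel_mul (N i) (e i) B (he i) (heB i) a c (hpres c hc i),
        fntRel_mul (N j) (e j) B (he j) (heB j) a c (hpres c hc j), iha, ihc]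
    | inv a ha iha =>
      funext p r
      apply propext
      rw [fntRel_inv (N i) (e i) B a (hpres a⁻¹ (Subgroup.inv_mem _ ha) i) (hpres a ha i),
        fntRel_inv (N j) (e j) B a (hpres a⁻¹ (Subgroup.inv_mem _ ha) j) (hpres a ha j), iha]
  -- the type of a fibre
  obtain ⟨ty, hty'⟩ : ∃ ty : I → (Fin B → Fin B → Prop) × (s → Fin B → Fin B → Prop),
      ∀ i, ty i = (fntRel (N i) (e i) B 1, fun g : s => fntRel (N i) (e i) B (g : Equiv.Perm X)) :=
    ⟨_, fun _ => rfl⟩
  have hty2 : ∀ i j, ty i = ty j → ∀ a ∈ Subgroup.closure (s : Set (Equiv.Perm X)),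
      fntRel (N i) (e i) B a = fntRel (N j) (e j) B a := by
    intro i j hij
    rw [hty' i, hty' j, Prod.mk.injEq] at hij
    exact hty i j hij.1 (fun g hg => congrFun hij.2 ⟨g, hg⟩)
  refine Finite.of_injective (fun (a : Subgroup.closure (s : Set (Equiv.Perm X)))
    (τ : (Fin B → Fin B → Prop) × (s → Fin B → Fin B → Prop)) =>
      if h : ∃ i, ty i = τ then fntRel (N h.choose) (e h.choose) B (a : Equiv.Perm X)
      else fun _ _ => False) ?_
  intro a a' haa
  have key : ∀ i, fntRel (N i) (e i) B (a : Equiv.Perm X) = fntRel (N i) (e i) B (a' : Equiv.Perm X) := by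
    intro i
    have h0 : ∃ k, ty k = ty i := ⟨i, rfl⟩
    have h1 := congrFun haa (ty i)
    simp only [dif_pos h0] at h1
    rw [← hty2 _ _ h0.choose_spec a a.2, ← hty2 _ _ h0.choose_spec a' a'.2]
    exact h1
  apply Subtype.ext
  apply Equiv.ext
  intro x
  by_cases hx : x ∈ N (b x)
  · have h1 : fntRel (N (b x)) (e (b x)) B (a : Equiv.Perm X) ⟨e (b x) x, heB _ x hx⟩
        ⟨e (b x) ((a : Equiv.Perm X) x), heB _ _ (hpres a a.2 _ x hx)⟩ := ⟨x, hx, rfl, rfl⟩
    rw [key] at h1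
    obtain ⟨y, hy, h2, h3⟩ := h1
    have h4 : y = x := he _ y hy x hx h2
    rw [h4] at h3
    exact (he _ _ (hpres a' a'.2 _ x hx) _ (hpres a a.2 _ x hx) h3).symm
  · rw [hNm] at hx
    have hx' : ∀ g ∈ s, g x = x := by
      intro g hg
      by_contra hcon
      exact hx ⟨rfl, g, hg, hcon⟩
    rw [(hcb a a.2).2 x hx', (hcb a' a'.2).2 x hx']

end Pool.Agent.H13.BD
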