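import Pool.Agent.H13.BD.LftDef
import Pool.Agent.H13.BD.Fnt
import Pool.Agent.H44.GW.Zext

/-!
# Permutations of bounded displacement which fix the points of large period
-/

set_option autoImplicit false

open Classical

namespace Pool.Agent.H13.BD

open Pool.Agent.H44.GW

variable {X : Type} (T : Equiv.Perm X)

/-- Proof. `fnt` for the images in `Equiv.Perm X` of the elements of a finite set, with `b : X → I` the projection to the
orbits of `T` (`Quotient (Equiv.Perm.SameCycle.setoid T)`): the elements preserve the orbits by `hK1`; let `P` be a common bound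
for the finitely many elements (the maximum of the `P` of `hK2`; `Lg` decreases with `P`). A point `x` which is moved by one
of them is not in `Lg T P`, so `T ^ k x = x` for some `0 < |k| ≤ P` and its orbit has at most `P` elements. The generated
subgroup of `K` is finite as it is isomorphic to the subgroup generated in `Equiv.Perm X`. -/
theorem per_lf (K : Subgroup (Equiv.Perm X)) (hK1 : ∀ g ∈ K, ∃ N : ℕ, Bd T N g)
    (hK2 : ∀ g ∈ K, ∃ P : ℕ, ∀ x ∈ Lg T P, g x = x) : LF K := by
  intro s hs
  have hbound : ∃ P : ℕ, ∀ g ∈ s, ∀ x ∈ Lg T P, (g : Equiv.Perm X) x = x := by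
    refine Set.Finite.induction_on (motive := fun (s : Set K) _ => ∃ P : ℕ, ∀ g ∈ s, ∀ x ∈ Lg T P,
      (g : Equiv.Perm X) x = x) s hs ⟨0, fun g hg => absurd hg (Set.notMem_empty g)⟩ ?_
    intro a s' _ _ ih
    obtain ⟨P, hP⟩ := ih
    obtain ⟨Q, hQ⟩ := hK2 a.1 a.2
    refine ⟨max P Q, ?_⟩
    intro g hg x hx
    rcases Set.mem_insert_iff.1 hg with h | h
    · rw [h]
      exact hQ x (fun k hk hk2 => hx k hk (hk2.trans (by exact_mod_cast le_max_right P Q)))
    · exact hP g h x (fun k hk hk2 => hx k hk (hk2.trans (by exact_mod_cast le_max_left P Q)))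
  obtain ⟨P, hP⟩ := hbound
  have hs' : (((fun g : K => (g : Equiv.Perm X)) '' s)).Finite := hs.image _
  have hfin : Finite (Subgroup.closure ((hs'.toFinset : Finset (Equiv.Perm X)) :
      Set (Equiv.Perm X))) := by
    refine fnt (fun x => Quotient.mk (Equiv.Perm.SameCycle.setoid T) x) hs'.toFinset P ?_ ?_
    · intro g hg x
      rw [Set.Finite.mem_toFinset] at hg
      obtain ⟨g', -, rfl⟩ := hg
      obtain ⟨N, hN⟩ := hK1 g'.1 g'.2
      obtain ⟨n, -, hn⟩ := hN x
      refine Quotient.sound ?_
      have h1 : Equiv.Perm.SameCycle T ((g' : Equiv.Perm X) x) x := by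
        refine Equiv.Perm.SameCycle.symm ⟨n, ?_⟩
        exact hn.symm
      exact h1
    · intro i
      have hsub : ∃ F : Finset X, F.card ≤ P ∧
          {x | Quotient.mk (Equiv.Perm.SameCycle.setoid T) x = i ∧
            ∃ g ∈ hs'.toFinset, g x ≠ x} ⊆ (F : Set X) := by
        by_cases hne : ∃ x0, Quotient.mk (Equiv.Perm.SameCycle.setoid T) x0 = i ∧
            ∃ g ∈ hs'.toFinset, g x0 ≠ x0
        · obtain ⟨x0, hx0, g, hg, hgx⟩ := hne
          rw [Set.Finite.mem_toFinset] at hg
          obtain ⟨g', hg', rfl⟩ := hg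
          have h1 : x0 ∉ Lg T P := fun h => hgx (hP g' hg' x0 h)
          have h2 : ∃ k : ℤ, k ≠ 0 ∧ |k| ≤ P ∧ (T ^ k) x0 = x0 := by
            by_contra hcon
            apply h1
            intro k hk hk2 hk3
            exact hcon ⟨k, hk, hk2, hk3⟩
          obtain ⟨k, hk, hkP, hkx⟩ := h2
          refine ⟨(Finset.range P).image (fun m : ℕ => (T ^ m) x0),
            Finset.card_image_le.trans (by rw [Finset.card_range]), ?_⟩
          rintro x ⟨hx, -⟩
          have h3 : Equiv.Perm.SameCycle T x0 x := by
            have h4 : Quotient.mk (Equiv.Perm.SameCycle.setoid T) x0 =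
              Quotient.mk (Equiv.Perm.SameCycle.setoid T) x := hx0.trans hx.symm
            exact Quotient.exact h4
          obtain ⟨j, hj⟩ := h3
          have h5 : 0 ≤ j % k := Int.emod_nonneg j hk
          have h6 : j % k < |k| := Int.emod_lt_abs j hk
          have h7 : (T ^ (j % k)) x0 = x := by
            have h8 : j = j % k + k * (j / k) := (Int.emod_add_mul_ediv j k).symm
            have h9 : (T ^ (k * (j / k))) x0 = x0 := by
              rw [zpow_mul]
              exact Equiv.Perm.zpow_apply_eq_self_of_apply_eq_self hkx _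
            rw [← hj]
            conv_rhs => rw [h8, zpow_add, Equiv.Perm.mul_apply, h9]
          rw [Finset.mem_coe, Finset.mem_image]
          refine ⟨(j % k).toNat, ?_, ?_⟩
          · rw [Finset.mem_range]
            omega
          · rw [← h7, ← zpow_natCast, Int.toNat_of_nonneg h5]
        · refine ⟨∅, by simp, ?_⟩
          intro x hx
          exact absurd ⟨x, hx⟩ hne
      obtain ⟨F, hF, hsF⟩ := hsub
      refine ⟨F.finite_toSet.subset hsF, ?_⟩
      calc _ ≤ (F : Set X).ncard := Set.ncard_le_ncard hsF F.finite_toSet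
        _ = F.card := Set.ncard_coe_finset F
        _ ≤ P := hF
  refine ⟨(Subgroup.closure ((hs'.toFinset : Finset (Equiv.Perm X)) :
      Set (Equiv.Perm X))).comap K.subtype, ?_, ?_⟩
  · exact Finite.of_injective (fun a : (Subgroup.closure ((hs'.toFinset : Finset (Equiv.Perm X)) :
      Set (Equiv.Perm X))).comap K.subtype =>
        (⟨(a.1 : Equiv.Perm X), a.2⟩ : Subgroup.closure
          ((hs'.toFinset : Finset (Equiv.Perm X)) : Set (Equiv.Perm X))))
      (fun a b h => Subtype.ext (Subtype.ext (Subtype.mk.inj h)))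
  · intro g hg
    change (g : Equiv.Perm X) ∈ Subgroup.closure ((hs'.toFinset : Finset (Equiv.Perm X)) :
      Set (Equiv.Perm X))
    apply Subgroup.subset_closure
    rw [Finset.mem_coe, Set.Finite.mem_toFinset]
    exact ⟨g, hg, rfl⟩

end Pool.Agent.H13.BD
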