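import Pool.Agent.H13.BD.Mai
import Pool.Agent.H13.BD.LftA
import Pool.Agent.H13.BD.LftB
import Pool.Agent.H13.BD.LftC

/-!
# Groups of permutations of bounded displacement
-/

set_option autoImplicit false

open Classical

namespace Pool.Agent.H13.BD

open Pool.Agent.H98.FJ Pool.Agent.H44.GW

/-- Proof. `lft_hom` gives `φ`. `lfKernel (inheritsExt hC hE) φ`: the range is a subgroup of `Wb X ⧸ NN T` (`nn_mem`,
`wb_mem`, `NN_normal`), and the kernel is isomorphic to its image in `Equiv.Perm X`, a subgroup as in `per_lf`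
(`LF` passes along injective homomorphisms: `LF.of_injective`). -/
theorem bd_mem {C : (G : Type) → [Group G] → Prop} (hC : Inherits C) (hE : Extension C)
    (X : Type) (T : Equiv.Perm X) (H : Subgroup (Equiv.Perm X))
    (hH : ∀ g ∈ H, ∃ N : ℕ, Bd T N g) : C H := by
  obtain ⟨φ, hφ⟩ := lft_hom T H hH
  refine lfKernel (inheritsExt hC hE) φ (hC.sub _ _
    (nn_mem T hC (fun Ω => wb_mem hC hE Ω) (NN_normal T))) ?_
  let K : Subgroup (Equiv.Perm X) := φ.ker.map H.subtype
  have hK : LF K := by
    apply per_lf T K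
    · rintro _ ⟨g, _, rfl⟩
      exact hH g.1 g.2
    · rintro _ ⟨g, hg, rfl⟩
      exact hφ g hg
  let ψ : φ.ker →* K := (H.subtype.comp φ.ker.subtype).codRestrict K
    (fun g => ⟨g.1, g.2, rfl⟩)
  refine LF.of_injective ψ ?_ hK
  intro a b hab
  have h : (ψ a).1 = (ψ b).1 := congrArg Subtype.val hab
  apply Subtype.ext
  apply Subtype.ext
  exact h

end Pool.Agent.H13.BD
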