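import Mathlib

/-!
# The flux of a permutation of the integers of bounded displacement
-/

set_option autoImplicit false

open Classical

namespace Pool.Agent.H13.BD

/-- the difference of the two cardinalities -/
noncomputable def fluF (f : Equiv.Perm ℤ) (c b : ℤ) : ℤ :=
  ({n : ℤ | n < b ∧ c ≤ f n}.ncard : ℤ) - ({n : ℤ | b ≤ n ∧ f n < c}.ncard : ℤ)

theorem flu_finA (f : Equiv.Perm ℤ) (N : ℕ) (hf : ∀ n, |f n - n| ≤ N) (c b : ℤ) :
    {n : ℤ | n < b ∧ c ≤ f n}.Finite := by
  refine (Set.finite_Icc (c - N) b).subset ?_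
  rintro n ⟨h1, h2⟩
  have h3 := abs_le.1 (hf n)
  exact ⟨by omega, by omega⟩

theorem flu_finB (f : Equiv.Perm ℤ) (N : ℕ) (hf : ∀ n, |f n - n| ≤ N) (c b : ℤ) :
    {n : ℤ | b ≤ n ∧ f n < c}.Finite := by
  refine (Set.finite_Icc b (c + N)).subset ?_
  rintro n ⟨h1, h2⟩
  have h3 := abs_le.1 (hf n)
  exact ⟨by omega, by omega⟩

theorem flu_succ_left (f : Equiv.Perm ℤ) (N : ℕ) (hf : ∀ n, |f n - n| ≤ N) (c b : ℤ) :
    fluF f (c + 1) b = fluF f c b - 1 := by
  have hm : ∀ n, f n = c ↔ n = f.symm c := fun n =>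
    ⟨fun h => by rw [← h, Equiv.symm_apply_apply], fun h => by rw [h, Equiv.apply_symm_apply]⟩
  generalize f.symm c = m at hm
  have hmc : f m = c := (hm m).2 rfl
  unfold fluF
  rcases lt_or_ge m b with h | h
  · have h1 : {n : ℤ | n < b ∧ c ≤ f n} = insert m {n : ℤ | n < b ∧ c + 1 ≤ f n} := by
      ext n
      have h2 := hm n
      simp only [Set.mem_ofPred_eq, Set.mem_insert_iff]
      omega
    have h3 : {n : ℤ | b ≤ n ∧ f n < c + 1} = {n : ℤ | b ≤ n ∧ f n < c} := by
      ext n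
      have h2 := hm n
      simp only [Set.mem_ofPred_eq]
      omega
    have h4 : m ∉ {n : ℤ | n < b ∧ c + 1 ≤ f n} := by
      simp only [Set.mem_ofPred_eq]
      omega
    rw [h1, h3, Set.ncard_insert_of_notMem h4 (flu_finA f N hf _ _)]
    push_cast
    ring
  · have h1 : {n : ℤ | n < b ∧ c ≤ f n} = {n : ℤ | n < b ∧ c + 1 ≤ f n} := by
      ext n
      have h2 := hm n
      simp only [Set.mem_ofPred_eq]
      omega
    have h3 : {n : ℤ | b ≤ n ∧ f n < c + 1} = insert m {n : ℤ | b ≤ n ∧ f n < c} := by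
      ext n
      have h2 := hm n
      simp only [Set.mem_ofPred_eq, Set.mem_insert_iff]
      omega
    have h4 : m ∉ {n : ℤ | b ≤ n ∧ f n < c} := by
      simp only [Set.mem_ofPred_eq]
      omega
    rw [h1, h3, Set.ncard_insert_of_notMem h4 (flu_finB f N hf _ _)]
    push_cast
    ring

theorem flu_succ_right (f : Equiv.Perm ℤ) (N : ℕ) (hf : ∀ n, |f n - n| ≤ N) (c b : ℤ) :
    fluF f c (b + 1) = fluF f c b + 1 := by
  unfold fluF
  rcases lt_or_ge (f b) c with h | h
  · have h1 : {n : ℤ | n < b + 1 ∧ c ≤ f n} = {n : ℤ | n < b ∧ c ≤ f n} := by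
      ext n
      simp only [Set.mem_ofPred_eq]
      by_cases hn : n = b
      · subst hn
        omega
      · omega
    have h3 : {n : ℤ | b ≤ n ∧ f n < c} = insert b {n : ℤ | b + 1 ≤ n ∧ f n < c} := by
      ext n
      simp only [Set.mem_ofPred_eq, Set.mem_insert_iff]
      by_cases hn : n = b
      · subst hn
        omega
      · omega
    have h4 : b ∉ {n : ℤ | b + 1 ≤ n ∧ f n < c} := by
      simp only [Set.mem_ofPred_eq]
      omega
    rw [h1, h3, Set.ncard_insert_of_notMem h4 (flu_finB f N hf _ _)]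
    push_cast
    ring
  · have h1 : {n : ℤ | n < b + 1 ∧ c ≤ f n} = insert b {n : ℤ | n < b ∧ c ≤ f n} := by
      ext n
      simp only [Set.mem_ofPred_eq, Set.mem_insert_iff]
      by_cases hn : n = b
      · subst hn
        omega
      · omega
    have h3 : {n : ℤ | b ≤ n ∧ f n < c} = {n : ℤ | b + 1 ≤ n ∧ f n < c} := by
      ext n
      simp only [Set.mem_ofPred_eq]
      by_cases hn : n = b
      · subst hn
        omega
      · omega
    have h4 : b ∉ {n : ℤ | n < b ∧ c ≤ f n} := by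
      simp only [Set.mem_ofPred_eq]
      omega
    rw [h1, h3, Set.ncard_insert_of_notMem h4 (flu_finA f N hf _ _)]
    push_cast
    ring

theorem flu_formula (f : Equiv.Perm ℤ) (N : ℕ) (hf : ∀ n, |f n - n| ≤ N) (c b : ℤ) :
    fluF f c b = fluF f 0 0 - c + b := by
  have h1 : ∀ c : ℤ, fluF f c 0 = fluF f 0 0 - c := by
    intro c
    induction c using Int.induction_on with
    | zero => ring
    | succ i ih =>
      rw [flu_succ_left f N hf, ih]
      ring
    | pred i ih =>
      have h2 := flu_succ_left f N hf (-(i : ℤ) - 1) 0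
      rw [sub_add_cancel, ih] at h2
      linarith
  induction b using Int.induction_on with
  | zero => rw [h1]; ring
  | succ i ih =>
    rw [flu_succ_right f N hf, ih]
    ring
  | pred i ih =>
    have h2 := flu_succ_right f N hf c (-(i : ℤ) - 1)
    rw [sub_add_cancel, ih] at h2
    linarith

theorem flu_abs (f : Equiv.Perm ℤ) (N : ℕ) (hf : ∀ n, |f n - n| ≤ N) : |fluF f 0 0| ≤ N := by
  have h1 : {n : ℤ | n < 0 ∧ 0 ≤ f n}.ncard ≤ N := by
    have h2 : {n : ℤ | n < 0 ∧ 0 ≤ f n} ⊆ (Finset.Ico (-(N : ℤ)) 0 : Finset ℤ) := by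
      rintro n ⟨h3, h4⟩
      have h5 := abs_le.1 (hf n)
      rw [Finset.mem_coe, Finset.mem_Ico]
      exact ⟨by omega, by omega⟩
    have h6 := Set.ncard_le_ncard h2 (Finset.finite_toSet _)
    rw [Set.ncard_coe_finset, Int.card_Ico] at h6
    omega
  have h2 : {n : ℤ | 0 ≤ n ∧ f n < 0}.ncard ≤ N := by
    have h2 : {n : ℤ | 0 ≤ n ∧ f n < 0} ⊆ (Finset.Ico (0 : ℤ) N : Finset ℤ) := by
      rintro n ⟨h3, h4⟩
      have h5 := abs_le.1 (hf n)
      rw [Finset.mem_coe, Finset.mem_Ico]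
      exact ⟨by omega, by omega⟩
    have h6 := Set.ncard_le_ncard h2 (Finset.finite_toSet _)
    rw [Set.ncard_coe_finset, Int.card_Ico] at h6
    omega
  unfold fluF
  rw [abs_le]
  constructor <;> omega

/-- Proof. For `b : ℤ` let `φ b := ∑ᶠ n, ((if b ≤ f n then 1 else 0) - (if b ≤ n then 1 else 0) : ℤ)`; the summand vanishes
unless `|n - b| ≤ N` (or use a finite sum over `Finset.Icc (b - N) (b + N)` or any larger interval). Then
`φ (b + 1) = φ b`: the difference is the sum of `(if n = b then 1 else 0) - (if f n = b then 1 else 0)`, which is `1 - 1 = 0`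
(`f` is bijective). So `φ` is a constant `k`; `|k| ≤ N` as at most `N` integers `n < b` have `b ≤ f n` and at most `N` integers
`n ≥ b` have `f n < b`. The same sum for `f - k` at `b` is `φ (b + k) + ∑ᶠ n, ((if b + k ≤ n then 1 else 0) -
(if b ≤ n then 1 else 0)) = k - k = 0`, and it is the difference of the two cardinalities. -/
theorem flu (f : Equiv.Perm ℤ) (N : ℕ) (hf : ∀ n, |f n - n| ≤ N) :
    ∃ k : ℤ, |k| ≤ N ∧ ∀ b : ℤ, {n : ℤ | n < b ∧ b ≤ f n - k}.ncard =
      {n : ℤ | b ≤ n ∧ f n - k < b}.ncard := by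
  refine ⟨fluF f 0 0, flu_abs f N hf, fun b => ?_⟩
  have h1 := flu_formula f N hf (b + fluF f 0 0) b
  generalize fluF f 0 0 = k at h1
  have h2 : fluF f (b + k) b = 0 := by
    rw [h1]
    ring
  unfold fluF at h2
  have h3 : {n : ℤ | n < b ∧ b + k ≤ f n} = {n : ℤ | n < b ∧ b ≤ f n - k} := by
    ext n
    simp only [Set.mem_ofPred_eq]
    omega
  have h4 : {n : ℤ | b ≤ n ∧ f n < b + k} = {n : ℤ | b ≤ n ∧ f n - k < b} := by
    ext n
    simp only [Set.mem_ofPred_eq]
    omega
  rw [h3, h4] at h2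
  omega

end Pool.Agent.H13.BD
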