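import Pool.Agent.H13.BD.Words

/-!
# Generators of the wobbling group
-/

set_option autoImplicit false

open Classical

namespace Pool.Agent.H13.BD

/-- `g` swaps `y` and `T y` for all `y ∈ A`, where `A` and `T A` are disjoint -/
def IsSwap {Y : Type} (T : Equiv.Perm Y) (A : Set Y) (g : Equiv.Perm Y) : Prop :=
  (∀ y ∈ A, T y ∉ A) ∧ ∀ y, g y = if y ∈ A then T y else if T.symm y ∈ A then T.symm y else y

/-- `g` is `T` on the invariant set `A` and trivial outside of `A` -/
def IsPart {Y : Type} (T : Equiv.Perm Y) (A : Set Y) (g : Equiv.Perm Y) : Prop :=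
  (∀ y, T y ∈ A ↔ y ∈ A) ∧ ∀ y, g y = if y ∈ A then T y else y

/-- the generators -/
def GS (Ω : Type) : Set (Equiv.Perm (Ω × ℤ)) :=
  {g | ∃ A, IsSwap (shf Ω) A g ∨ IsPart (shf Ω) A g}

end Pool.Agent.H13.BD
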