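import Pool.Agent.H13.BD.GS

/-!
# Permutations of bounded displacement with flux zero
-/

set_option autoImplicit false

open Classical

namespace Pool.Agent.H13.BD

theorem spl_inv (R R' : Set ℤ) (hR : R.Finite) (hR' : R'.Finite) (hd : ∀ n, n ∈ R → n ∉ R')
    (hc : R.ncard = R'.ncard) : ∃ u : ℤ → ℤ, (∀ n, u (u n) = n) ∧ (∀ n ∈ R, u n ∈ R') ∧
      (∀ n ∈ R', u n ∈ R) ∧ (∀ n, n ∉ R → n ∉ R' → u n = n) := by
  have : Finite R := hR
  have : Finite R' := hR'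
  have hcard : Nat.card R = Nat.card R' := hc
  obtain ⟨e⟩ := (Finite.card_eq).1 hcard
  set u : ℤ → ℤ := fun n => if h : n ∈ R then (e ⟨n, h⟩ : ℤ) else
    if h' : n ∈ R' then (e.symm ⟨n, h'⟩ : ℤ) else n with hu
  have h1 : ∀ n (h : n ∈ R), u n = e ⟨n, h⟩ := fun n h => dif_pos h
  have h2 : ∀ n (h : n ∈ R'), u n = e.symm ⟨n, h⟩ := fun n h => by
    have h3 : n ∉ R := fun h4 => hd n h4 h
    simp only [hu]
    rw [dif_neg h3, dif_pos h]
  have h3 : ∀ n, n ∉ R → n ∉ R' → u n = n := fun n h h' => by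
    simp only [hu]
    rw [dif_neg h, dif_neg h']
  have h4 : ∀ n ∈ R, u n ∈ R' := fun n h => by
    rw [h1 n h]
    exact (e ⟨n, h⟩).2
  have h5 : ∀ n ∈ R', u n ∈ R := fun n h => by
    rw [h2 n h]
    exact (e.symm ⟨n, h⟩).2
  refine ⟨u, fun n => ?_, h4, h5, h3⟩
  by_cases h : n ∈ R
  · rw [h2 (u n) (h4 n h)]
    have h6 : (⟨u n, h4 n h⟩ : R') = e ⟨n, h⟩ := Subtype.ext (h1 n h)
    rw [h6, Equiv.symm_apply_apply]
  · by_cases h' : n ∈ R'
    · rw [h1 (u n) (h5 n h')]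
      have h6 : (⟨u n, h5 n h'⟩ : R) = e.symm ⟨n, h'⟩ := Subtype.ext (h2 n h')
      rw [h6, Equiv.apply_symm_apply]
    · rw [h3 n h h', h3 n h h']

theorem spl_div (L : ℤ) (hL : 0 < L) (n m : ℤ) (h : ∀ j : ℤ, n < j * L ↔ m < j * L) :
    m / L = n / L := by
  refine eq_of_forall_le_iff fun j => ?_
  rw [Int.le_ediv_iff_mul_le hL, Int.le_ediv_iff_mul_le hL, ← not_lt, ← not_lt, h]

/-- Proof. `L := 2 * N + 1`. For `ω` and `k : ℤ` let `b = k L`, `R = {n | n < b ∧ b ≤ (g (ω, n)).2}`,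
`R' = {n | b ≤ n ∧ (g (ω, n)).2 < b}`; both are contained in `[b - N, b + N)`, finite and of the same cardinality, so there is
an involution `u_{ω,k} : Equiv.Perm ℤ` exchanging `R` and `R'` and fixing all other integers. For an integer `n` let
`κ n = (n + N) / L`, so `n ∈ [κ L - N, κ L + N]`. Let `k₀ (ω, n) := (ω, u_{ω, κ n} n)`: an involution of `Ω × ℤ` as
`κ (u_{ω, κ n} n) = κ n` (`u` preserves `[b - N, b + N)`). It preserves the blocks for `a = -N`. `h := g * k₀` satisfies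
`n < k L ↔ (h (ω, n)).2 < k L` for all `k` (cases: `κ n = k`, then use `R`, `R'`; `κ n < k`: then `n` and its image under `k₀` are
`< k L - N`, so the image under `g` is `< k L`; `κ n > k`: then both are `≥ k L + N` and the image under `g` is `≥ k L`), so it
preserves the blocks for `a = 0` (`Int.ediv` characterised by the inequalities). -/
theorem spl {Ω : Type} (g : Equiv.Perm (Ω × ℤ)) (N : ℕ)
    (hg : ∀ y, (g y).1 = y.1 ∧ |(g y).2 - y.2| ≤ N)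
    (h0 : ∀ (ω : Ω) (b : ℤ), {n : ℤ | n < b ∧ b ≤ (g (ω, n)).2}.ncard =
      {n : ℤ | b ≤ n ∧ (g (ω, n)).2 < b}.ncard) :
    ∃ (L : ℕ) (a : ℤ) (h k : Equiv.Perm (Ω × ℤ)), 0 < L ∧ g = h * k ∧
      (∀ y, (h y).1 = y.1 ∧ (h y).2 / L = y.2 / L) ∧
      (∀ y, (k y).1 = y.1 ∧ ((k y).2 - a) / L = (y.2 - a) / L) := by
  have hg2 : ∀ (ω : Ω) (n : ℤ), -(N : ℤ) ≤ (g (ω, n)).2 - n ∧ (g (ω, n)).2 - n ≤ N :=
    fun ω n => abs_le.1 (hg (ω, n)).2
  obtain ⟨L, hL⟩ : ∃ L : ℕ, (L : ℤ) = 2 * (N : ℤ) + 1 := ⟨2 * N + 1, by push_cast; ring⟩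
  have hN0 : (0 : ℤ) ≤ N := Int.natCast_nonneg N
  have hL0 : (0 : ℤ) < L := by omega
  have hR : ∀ (ω : Ω) (b : ℤ) (n : ℤ), n ∈ {n : ℤ | n < b ∧ b ≤ (g (ω, n)).2} →
      b - N ≤ n ∧ n < b := by
    intro ω b n hn
    have h1 : n < b ∧ b ≤ (g (ω, n)).2 := hn
    have h2 := hg2 ω n
    omega
  have hR' : ∀ (ω : Ω) (b : ℤ) (n : ℤ), n ∈ {n : ℤ | b ≤ n ∧ (g (ω, n)).2 < b} →
      b ≤ n ∧ n < b + N := by
    intro ω b n hn
    have h1 : b ≤ n ∧ (g (ω, n)).2 < b := hn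
    have h2 := hg2 ω n
    omega
  have hex : ∀ (ω : Ω) (k : ℤ), ∃ u : ℤ → ℤ, (∀ n, u (u n) = n) ∧
      (∀ n ∈ {n : ℤ | n < k * L ∧ k * L ≤ (g (ω, n)).2},
        u n ∈ {n : ℤ | k * L ≤ n ∧ (g (ω, n)).2 < k * L}) ∧
      (∀ n ∈ {n : ℤ | k * L ≤ n ∧ (g (ω, n)).2 < k * L},
        u n ∈ {n : ℤ | n < k * L ∧ k * L ≤ (g (ω, n)).2}) ∧
      (∀ n, n ∉ {n : ℤ | n < k * L ∧ k * L ≤ (g (ω, n)).2} →
        n ∉ {n : ℤ | k * L ≤ n ∧ (g (ω, n)).2 < k * L} → u n = n) := by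
    intro ω k
    refine spl_inv _ _ ?_ ?_ ?_ (h0 ω (k * L))
    · exact (Set.finite_Ico (k * L - N) (k * L)).subset fun n hn => hR ω _ n hn
    · exact (Set.finite_Ico (k * L) (k * L + N)).subset fun n hn => hR' ω _ n hn
    · rintro n ⟨h1, -⟩ ⟨h2, -⟩
      omega
  choose u hu1 hu2 hu3 hu4 using hex
  have hκ1 : ∀ n : ℤ, ((n + N) / L) * L ≤ n + N := fun n => Int.ediv_mul_le _ hL0.ne'
  have hκ2 : ∀ n : ℤ, n + N < ((n + N) / L) * L + L := fun n => Int.lt_ediv_add_one_mul_self _ hL0 |>.trans_eq (by ring)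
  have hκ3 : ∀ n k : ℤ, k * L ≤ n + N → n + N < k * L + L → (n + N) / L = k := by
    intro n k h1 h2
    apply le_antisymm
    · have h3 : (n + N) / L < k + 1 := by
        rw [Int.ediv_lt_iff_lt_mul hL0, add_mul, one_mul]
        exact h2
      omega
    · rw [Int.le_ediv_iff_mul_le hL0]
      exact h1
  -- the image is in the same block
  have hblock : ∀ (ω : Ω) (n : ℤ), (u ω ((n + N) / L) n + N) / L = (n + N) / L := by
    intro ω n
    set k := (n + N) / L with hk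
    by_cases h1 : n ∈ {n : ℤ | n < k * L ∧ k * L ≤ (g (ω, n)).2}
    · have h2 := hR' ω _ _ (hu2 ω k n h1)
      apply hκ3 <;> omega
    · by_cases h2 : n ∈ {n : ℤ | k * L ≤ n ∧ (g (ω, n)).2 < k * L}
      · have h3 := hR ω _ _ (hu3 ω k n h2)
        apply hκ3 <;> omega
      · rw [hu4 ω k n h1 h2]
  have hinv : ∀ y : Ω × ℤ, (fun y : Ω × ℤ => (y.1, u y.1 ((y.2 + N) / L) y.2))
      ((fun y : Ω × ℤ => (y.1, u y.1 ((y.2 + N) / L) y.2)) y) = y := by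
    rintro ⟨ω, n⟩
    dsimp only
    rw [hblock, hu1]
  set k₀ : Equiv.Perm (Ω × ℤ) :=
    ⟨fun y => (y.1, u y.1 ((y.2 + N) / L) y.2), fun y => (y.1, u y.1 ((y.2 + N) / L) y.2),
      hinv, hinv⟩ with hk₀
  have hk₀a : ∀ y : Ω × ℤ, k₀ y = (y.1, u y.1 ((y.2 + N) / L) y.2) := fun y => rfl
  have hk₀i : ∀ y : Ω × ℤ, k₀⁻¹ y = (y.1, u y.1 ((y.2 + N) / L) y.2) := fun y => rfl
  refine ⟨L, -N, g * k₀⁻¹, k₀, by exact_mod_cast hL0, (inv_mul_cancel_right g k₀).symm, ?_, ?_⟩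
  · rintro ⟨ω, n⟩
    rw [Equiv.Perm.mul_apply, hk₀i]
    dsimp only
    refine ⟨(hg _).1, spl_div L hL0 _ _ fun j => ?_⟩
    have e1 := hκ1 n
    have e2 := hκ2 n
    have e3 := hκ1 (u ω ((n + N) / L) n)
    have e4 := hκ2 (u ω ((n + N) / L) n)
    rw [hblock] at e3 e4
    have e5 := hg2 ω (u ω ((n + N) / L) n)
    rcases lt_trichotomy ((n + N) / L) j with hj | hj | hj
    · have e6 : ((n + N) / L) * L + L ≤ j * L := by
        have := mul_le_mul_of_nonneg_right (show (n + N) / L + 1 ≤ j from hj) hL0.le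
        rwa [add_mul, one_mul] at this
      constructor <;> intro _ <;> omega
    · by_cases h1 : n ∈ {n : ℤ | n < j * L ∧ j * L ≤ (g (ω, n)).2}
      · have h2 : (g (ω, u ω j n)).2 < j * L := (hu2 ω j n h1).2
        rw [hj]
        exact ⟨fun _ => h2, fun _ => h1.1⟩
      · by_cases h2 : n ∈ {n : ℤ | j * L ≤ n ∧ (g (ω, n)).2 < j * L}
        · have h3 : j * L ≤ (g (ω, u ω j n)).2 := (hu3 ω j n h2).2
          rw [hj]
          have h4 : j * L ≤ n := h2.1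
          constructor <;> intro _ <;> omega
        · rw [hj, hu4 ω j n h1 h2]
          have h3 : ¬ (n < j * L ∧ j * L ≤ (g (ω, n)).2) := h1
          have h4 : ¬ (j * L ≤ n ∧ (g (ω, n)).2 < j * L) := h2
          constructor <;> intro _ <;> omega
    · have e6 : j * L + L ≤ ((n + N) / L) * L := by
        have := mul_le_mul_of_nonneg_right (show j + 1 ≤ (n + N) / L from hj) hL0.le
        rwa [add_mul, one_mul] at this
      constructor <;> intro _ <;> omega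
  · rintro ⟨ω, n⟩
    rw [hk₀a]
    dsimp only
    refine ⟨rfl, ?_⟩
    rw [sub_neg_eq_add, sub_neg_eq_add]
    exact hblock ω n

end Pool.Agent.H13.BD
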