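import Pool.Agent.H13.BD.Blk
import Pool.Agent.H13.BD.Spl
import Pool.Agent.H13.BD.Flu

/-!
# The generators generate the wobbling group
-/

set_option autoImplicit false

open Classical

namespace Pool.Agent.H13.BD

/-- the shift by one of the lines of `D` -/
noncomputable def genL {Ω : Type} (D : Set Ω) : Equiv.Perm (Ω × ℤ) where
  toFun y := if y.1 ∈ D then (y.1, y.2 + 1) else y
  invFun y := if y.1 ∈ D then (y.1, y.2 - 1) else y
  left_inv y := by
    by_cases h : y.1 ∈ D
    · simp only [if_pos h, add_sub_cancel_right]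
    · simp only [if_neg h]
  right_inv y := by
    by_cases h : y.1 ∈ D
    · simp only [if_pos h, sub_add_cancel]
    · simp only [if_neg h]

theorem genL_apply {Ω : Type} (D : Set Ω) (y : Ω × ℤ) :
    genL D y = (y.1, y.2 + if y.1 ∈ D then 1 else 0) := by
  change (if y.1 ∈ D then (y.1, y.2 + 1) else y) = _
  by_cases h : y.1 ∈ D
  · rw [if_pos h, if_pos h]
  · rw [if_neg h, if_neg h, add_zero]

theorem genL_inv_apply {Ω : Type} (D : Set Ω) (y : Ω × ℤ) :
    (genL D)⁻¹ y = (y.1, y.2 - if y.1 ∈ D then 1 else 0) := by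
  change (if y.1 ∈ D then (y.1, y.2 - 1) else y) = _
  by_cases h : y.1 ∈ D
  · rw [if_pos h, if_pos h]
  · rw [if_neg h, if_neg h, sub_zero]

theorem genL_mem {Ω : Type} (D : Set Ω) : genL D ∈ Subgroup.closure (GS Ω) := by
  apply Subgroup.subset_closure
  refine ⟨{y | y.1 ∈ D}, Or.inr ⟨fun y => Iff.rfl, fun y => rfl⟩⟩

theorem gen_lin {Ω : Type} (N : ℕ) : ∀ (k : Ω → ℤ) (_ : ∀ ω, |k ω| ≤ N)
    (s : Equiv.Perm (Ω × ℤ)) (_ : ∀ y, s y = (y.1, y.2 + k y.1)),
    s ∈ Subgroup.closure (GS Ω) := by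
  induction N with
  | zero =>
    intro k hk s hs
    have h1 : s = 1 := by
      apply Equiv.ext
      intro y
      have h2 : k y.1 = 0 := by
        have h3 := abs_le.1 (hk y.1)
        push_cast at h3
        omega
      rw [hs, h2, add_zero]
      rfl
    rw [h1]
    exact one_mem _
  | succ N ih =>
    intro k hk s hs
    set P := genL {ω : Ω | 0 < k ω} with hP
    set M := genL {ω : Ω | k ω < 0} with hM
    have h1 : s * P⁻¹ * M ∈ Subgroup.closure (GS Ω) := by
      refine ih (fun ω => k ω - (if ω ∈ {ω : Ω | 0 < k ω} then 1 else 0) +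
        (if ω ∈ {ω : Ω | k ω < 0} then 1 else 0)) ?_ _ ?_
      · intro ω
        have h3 := abs_le.1 (hk ω)
        push_cast at h3
        rw [abs_le]
        rcases lt_trichotomy (k ω) 0 with h | h | h
        · rw [if_neg (show ω ∉ {ω : Ω | 0 < k ω} from fun h' => absurd h (not_lt.2 (le_of_lt h'))),
            if_pos (show ω ∈ {ω : Ω | k ω < 0} from h)]
          constructor <;> omega
        · rw [if_neg (show ω ∉ {ω : Ω | 0 < k ω} from fun h' => absurd h (ne_of_gt h')),
            if_neg (show ω ∉ {ω : Ω | k ω < 0} from fun h' => absurd h (ne_of_lt h'))]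
          constructor <;> omega
        · rw [if_pos (show ω ∈ {ω : Ω | 0 < k ω} from h),
            if_neg (show ω ∉ {ω : Ω | k ω < 0} from fun h' => absurd h (not_lt.2 (le_of_lt h')))]
          constructor <;> omega
      · intro y
        rw [Equiv.Perm.mul_apply, Equiv.Perm.mul_apply, hM, hP, genL_apply, genL_inv_apply, hs]
        refine Prod.ext rfl ?_
        dsimp only
        ring_nf
    have h2 : s = s * P⁻¹ * M * M⁻¹ * P := by group
    rw [h2]
    exact mul_mem (mul_mem h1 (inv_mem (genL_mem _))) (genL_mem _)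

/-- the shift of each line by a bounded number is a product of generators: the product over `j ∈ [-N, N]` of the powers
`g_j ^ j` of `IsPart` for `A_j = {y | k y.1 = j}` (induction on a finset `t` of integers containing the nonzero values of `k`) -/
theorem lin {Ω : Type} (k : Ω → ℤ) (N : ℕ) (hk : ∀ ω, |k ω| ≤ N) (s : Equiv.Perm (Ω × ℤ))
    (hs : ∀ y, s y = (y.1, y.2 + k y.1)) : s ∈ Subgroup.closure (GS Ω) :=
  gen_lin N k hk s hs

/-- the permutation of one line -/
def genF {Ω : Type} (g : Equiv.Perm (Ω × ℤ)) (h1 : ∀ y, (g y).1 = y.1) (ω : Ω) :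
    Equiv.Perm ℤ where
  toFun n := (g (ω, n)).2
  invFun n := (g.symm (ω, n)).2
  left_inv n := by
    have h2 : (ω, (g (ω, n)).2) = g (ω, n) := Prod.ext (h1 (ω, n)).symm rfl
    change (g.symm (ω, (g (ω, n)).2)).2 = n
    rw [h2, Equiv.symm_apply_apply]
  right_inv n := by
    have h3 : (g.symm (ω, n)).1 = ω := by
      have h4 := h1 (g.symm (ω, n))
      rw [Equiv.apply_symm_apply] at h4
      exact h4.symm
    have h2 : (ω, (g.symm (ω, n)).2) = g.symm (ω, n) := Prod.ext h3.symm rfl
    change (g (ω, (g.symm (ω, n)).2)).2 = n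
    rw [h2, Equiv.apply_symm_apply]

/-- Proof. Let `g` have displacement `≤ N`. For each `ω` apply `flu` to the permutation `n ↦ (g (ω, n)).2` of `ℤ`: this gives
`k ω`. Let `s (ω, n) = (ω, n + k ω)`, `g' := s⁻¹ * g`, so `g' (ω, n) = (ω, (g (ω, n)).2 - k ω)`, displacement `≤ 2 N`; `spl` and
`blk` (twice, the first time with `a = 0`) show `g' ∈ closure`, and `s ∈ closure` by `lin`. -/
theorem wb_gen {Ω : Type} (g : Equiv.Perm (Ω × ℤ)) (hg : g ∈ Wb Ω) :
    g ∈ Subgroup.closure (GS Ω) := by
  obtain ⟨N, hN⟩ := hg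
  have hf : ∀ ω n, |genF g (fun y => (hN y).1) ω n - n| ≤ N := fun ω n => (hN (ω, n)).2
  choose k hk1 hk2 using fun ω => flu (genF g (fun y => (hN y).1) ω) N (hf ω)
  let s : Equiv.Perm (Ω × ℤ) :=
    { toFun := fun y => (y.1, y.2 + k y.1)
      invFun := fun y => (y.1, y.2 - k y.1)
      left_inv := fun y => by simp
      right_inv := fun y => by simp }
  have hs : s ∈ Subgroup.closure (GS Ω) := lin k N hk1 s (fun y => rfl)
  have hg' : ∀ y, (s⁻¹ * g) y = (y.1, (g y).2 - k y.1) := by
    intro y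
    change ((g y).1, (g y).2 - k (g y).1) = _
    rw [(hN y).1]
  obtain ⟨L, a, h, k₀, hL, hhk, hh, hk₀⟩ := spl (s⁻¹ * g) (2 * N) (by
    intro y
    rw [hg' y]
    refine ⟨rfl, ?_⟩
    have h1 := abs_le.1 (hN y).2
    have h2 := abs_le.1 (hk1 y.1)
    rw [abs_le]
    push_cast
    constructor <;> omega) (by
    intro ω b
    have h1 := hk2 ω b
    have h2 : ∀ n, ((s⁻¹ * g) (ω, n)).2 = genF g (fun y => (hN y).1) ω n - k ω := by
      intro n
      rw [hg']
      rfl
    simp only [h2]
    exact h1)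
  have h1 : h ∈ Subgroup.closure (GS Ω) := blk L hL 0 h (fun y => by
    rw [sub_zero, sub_zero]
    exact hh y)
  have h2 : k₀ ∈ Subgroup.closure (GS Ω) := blk L hL a k₀ hk₀
  have h3 : g = s * (h * k₀) := by
    rw [← hhk]
    group
  rw [h3]
  exact mul_mem hs (mul_mem h1 h2)

end Pool.Agent.H13.BD
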