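import Pool.Agent.H13.BD.GS
import Pool.Agent.H13.BD.Loc

/-!
# The generators are realised
-/

set_option autoImplicit false

open Classical

namespace Pool.Agent.H13.BD

/-- The permutations of the slots which fix the high slots and come from the free group for some finite family of sets.
`mul_mem'`: refine to the union of the two families (`Ph_rf`, `rs_cl`). -/
noncomputable def BQ (Ω : Type) : Subgroup (Equiv.Perm ((Ω × ℤ) × ℕ)) where
  carrier := {q | q ∈ FH (Ω × ℤ) ∧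
    ∃ (i : Finset (Set (Ω × ℤ))) (p : PP (i → Prop)), (ysys (cl i)).Ph p = q}
  one_mem' := ⟨one_mem _, ∅, 1, map_one _⟩
  mul_mem' := by
    rintro q q' ⟨hq, i, p, hp⟩ ⟨hq', j, p', hp'⟩
    refine ⟨mul_mem hq hq', i ∪ j, rf (rs Finset.subset_union_left) p *
      rf (rs Finset.subset_union_right) p', ?_⟩
    rw [map_mul, Ph_rf, Ph_rf, ← hp, ← hp']
    rfl
  inv_mem' := by
    rintro q ⟨hq, i, p, hp⟩
    refine ⟨inv_mem hq, i, p⁻¹, ?_⟩
    rw [map_inv, hp]
    rfl

theorem hat_FH {Y : Type} (g : Equiv.Perm Y) : hat g ∈ FH Y := by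
  refine ⟨1, fun y n hn => ?_⟩
  obtain ⟨m, rfl⟩ : ∃ m, n = m + 1 := ⟨n - 1, by omega⟩
  exact hat_succ g y m

theorem hat_part {Y : Type} (T : Equiv.Perm Y) (A : Set Y) (g : Equiv.Perm Y)
    (h : IsPart T A g) : tau T A = hat g := by
  obtain ⟨h1, h2⟩ := h
  apply Equiv.ext
  rintro ⟨y, n⟩
  rw [tau_apply]
  have h3 := h1 y
  have h4 := h2 y
  by_cases hy : y ∈ A
  · have hT : T y ∈ A := h3.2 hy
    rw [if_pos hy] at h4
    cases n with
    | zero => rw [if_pos ⟨hT, rfl⟩, hat_zero, h4]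
    | succ m =>
      rw [if_neg (fun h5 => Nat.succ_ne_zero m h5.2), hat_succ, ii_pos hT, ii_pos hy]
      rfl
  · have hT : T y ∉ A := fun h5 => hy (h3.1 h5)
    rw [if_neg hy] at h4
    rw [if_neg (fun h5 => hT h5.1), ii_neg hT, ii_neg hy]
    cases n with
    | zero => rw [hat_zero, h4]
    | succ m => rw [hat_succ]; rfl

theorem hat_swap {Y : Type} (T : Equiv.Perm Y) (A : Set Y) (g : Equiv.Perm Y)
    (h : IsSwap T A g) (B : Set Y) (hB : ∀ y, y ∈ B ↔ T.symm y ∈ A)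
    (b : Equiv.Perm (Y × ℕ)) (hb : ∀ y n, b (y, n) = (y, if y ∈ B then Equiv.swap 0 1 n else n)) :
    (tau T B)⁻¹ * b * tau T B = hat g := by
  obtain ⟨h1, h2⟩ := h
  apply Equiv.ext
  rintro ⟨y, n⟩
  rw [Equiv.Perm.mul_apply, Equiv.Perm.mul_apply, tau_apply]
  have h3 := h2 y
  have hTB : T y ∈ B ↔ y ∈ A := by
    rw [hB, T.symm_apply_apply]
  by_cases hy : y ∈ A
  · have hTy : T y ∈ B := hTB.2 hy
    have hyB : y ∉ B := by
      intro h5
      have h6 := h1 _ ((hB y).1 h5)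
      rw [T.apply_symm_apply] at h6
      exact h6 hy
    have hTTy : T (T y) ∉ B := by
      intro h5
      rw [hB, T.symm_apply_apply] at h5
      exact h1 y hy h5
    rw [if_pos hy] at h3
    cases n with
    | zero =>
      rw [if_pos ⟨hTy, rfl⟩, hb, if_pos hTy, Equiv.swap_apply_left, tau_inv_apply,
        if_neg (fun h5 => one_ne_zero h5.2), ii_pos hTy, ii_neg hTTy, hat_zero, h3]
    | succ m =>
      rw [if_neg (fun h5 => Nat.succ_ne_zero m h5.2), ii_pos hTy, ii_neg hyB, hb, if_neg hyB,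
        tau_inv_apply, if_neg (fun h5 => hyB h5.1), ii_neg hyB, ii_pos hTy, hat_succ]
      rfl
  · have hTy : T y ∉ B := fun h5 => hy (hTB.1 h5)
    rw [if_neg hy] at h3
    rw [if_neg (fun h5 => hTy h5.1), ii_neg hTy]
    by_cases hyB : y ∈ B
    · rw [if_pos ((hB y).1 hyB)] at h3
      rw [ii_pos hyB, hb, if_pos hyB]
      cases n with
      | zero =>
        rw [show (0 - 0 + 1 : ℕ) = 1 from rfl, Equiv.swap_apply_right, tau_inv_apply,
          if_pos ⟨hyB, rfl⟩, hat_zero, h3]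
      | succ m =>
        have h5 : Equiv.swap 0 1 (m + 1 - 0 + 1) = m + 2 := by
          rw [show m + 1 - 0 + 1 = m + 2 from rfl]
          exact Equiv.swap_apply_of_ne_of_ne (by omega) (by omega)
        rw [h5, tau_inv_apply, if_neg (fun h6 => Nat.succ_ne_zero (m + 1) h6.2), ii_pos hyB,
          ii_neg hTy, hat_succ]
        rfl
    · rw [if_neg (fun h5 => hyB ((hB y).2 h5))] at h3
      rw [ii_neg hyB, hb, if_neg hyB, tau_inv_apply, if_neg (fun h5 => hyB h5.1), ii_neg hyB,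
        ii_neg hTy]
      cases n with
      | zero => rw [hat_zero, h3]
      | succ m => rw [hat_succ]; rfl

/-- the transposition of the first two slots -/
def hatSw : Fin1 := ⟨Equiv.swap 0 1, ⟨2, fun n hn =>
  Equiv.swap_apply_of_ne_of_ne (by omega) (by omega)⟩⟩

/-- Proof. `hat g ∈ FH` is clear. If `IsPart (shf Ω) A g` take `i = {A}` and `p = of (inr {v | v ⟨A, _⟩})`: `Ph p = tau (shf Ω) A`
and this is `hat g` (`tau_apply`: for `A` invariant the other slots are fixed). If `IsSwap (shf Ω) A g` take `B := T '' A`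
(`= {y | T.symm y ∈ A}`), `i = {B}`, `β v w := swap 0 1` if `v ⟨B, _⟩`, else `1` (finitary), and
`p = (of (inr B'))⁻¹ * of (inl β) * of (inr B')` where `B' = {v | v ⟨B, _⟩}`; `Ph p = (tau B)⁻¹ * bp β * tau B = hat g`: for
`y ∈ A`: `(y, 0) ↦ (T y, 0) ↦ (T y, 1) ↦ (T y, 0)`, `(T y, 0) ↦ (T y, 1) ↦ (T y, 0) ↦ (y, 0)`, and all other slots are fixed
(note `y ∉ B`, `T (T y) ∉ B` for `y ∈ A`). -/
theorem hat_gs {Ω : Type} (g : Equiv.Perm (Ω × ℤ)) (hg : g ∈ GS Ω) : hat g ∈ BQ Ω := by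
  refine ⟨hat_FH g, ?_⟩
  obtain ⟨A, h | h⟩ := hg
  · obtain ⟨B, hB⟩ : ∃ B : Set (Ω × ℤ), B = {y | (shf Ω).symm y ∈ A} := ⟨_, rfl⟩
    have hB1 : ∀ y, y ∈ B ↔ (shf Ω).symm y ∈ A := by
      intro y
      rw [hB]
      rfl
    let bb : {x // x ∈ ({B} : Finset (Set (Ω × ℤ)))} := ⟨B, Finset.mem_singleton_self B⟩
    let β : (({x // x ∈ ({B} : Finset (Set (Ω × ℤ)))}) → Prop) →
      (({x // x ∈ ({B} : Finset (Set (Ω × ℤ)))}) → Prop) → Fin1 :=
        fun v _ => if v bb then hatSw else 1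
    refine ⟨{B}, (FreeGroup.of (Sum.inr {v | v bb}))⁻¹ * FreeGroup.of (Sum.inl β) *
      FreeGroup.of (Sum.inr {v | v bb}), ?_⟩
    have e1 : (ysys (cl {B})).Ph (FreeGroup.of (Sum.inr {v | v bb})) = tau (shf Ω) B :=
      FreeGroup.lift_apply_of
    have e2 : (ysys (cl {B})).Ph (FreeGroup.of (Sum.inl β)) =
        (ysys (cl {B})).bF (fun v w => (β v w : Equiv.Perm ℕ)) :=
      FreeGroup.lift_apply_of
    rw [map_mul, map_mul, map_inv, e1, e2]
    refine hat_swap (shf Ω) A g h B hB1 _ ?_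
    intro y n
    refine (Sys.bF_apply (ysys (cl {B})) _ (y, n)).trans ?_
    by_cases hy : y ∈ B
    · have h3 : β ((ysys (cl {B})).c y) ((ysys (cl {B})).c ((ysys (cl {B})).T y)) = hatSw :=
        if_pos hy
      rw [if_pos hy]
      change (y, (β ((ysys (cl {B})).c y) ((ysys (cl {B})).c ((ysys (cl {B})).T y)) :
        Equiv.Perm ℕ) n) = _
      rw [h3]
      rfl
    · have h3 : β ((ysys (cl {B})).c y) ((ysys (cl {B})).c ((ysys (cl {B})).T y)) = 1 :=
        if_neg hy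
      rw [if_neg hy]
      change (y, (β ((ysys (cl {B})).c y) ((ysys (cl {B})).c ((ysys (cl {B})).T y)) :
        Equiv.Perm ℕ) n) = _
      rw [h3]
      rfl
  · refine ⟨{A}, FreeGroup.of (Sum.inr {v | v ⟨A, Finset.mem_singleton_self A⟩}), ?_⟩
    rw [← hat_part (shf Ω) A g h]
    exact FreeGroup.lift_apply_of

end Pool.Agent.H13.BD
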