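import Pool.Agent.H13.BD.Words

/-!
# The finite system of the recurrent edges
-/

set_option autoImplicit false

open Classical

namespace Pool.Agent.H13.BD

namespace Sys

variable {V V' : Type}

/-- The disjoint union over the (finitely many) recurrent edges of finite systems in which they occur:
`Z := Σ p : {p : V × V // S.Rec p.1 p.2}, (R p).Z`, `T := Equiv.sigmaCongrRight fun p => (R p).T`. For `←`: by the choice of
`R p`. For `→`: an edge of `R p` is recurrent (`⟨R p, …⟩`). -/
theorem exists_core [Finite V] (S : Sys V) :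
    ∃ R : Sys V, Finite R.Z ∧ ∀ v w, R.Edge v w ↔ S.Rec v w := by
  choose R hfin hsub hedge using fun p : {p : V × V // S.Rec p.1 p.2} => p.2
  refine ⟨⟨Σ p : {p : V × V // S.Rec p.1 p.2}, (R p).Z,
    Equiv.sigmaCongrRight fun p => (R p).T, fun z => (R z.1).c z.2⟩, ?_, ?_⟩
  · change Finite (Σ p : {p : V × V // S.Rec p.1 p.2}, (R p).Z)
    infer_instance
  · intro v w
    constructor
    · rintro ⟨⟨p, y⟩, h1, h2⟩
      exact ⟨R p, hfin p, hsub p, ⟨y, h1, h2⟩⟩
    · intro h
      obtain ⟨y, h1, h2⟩ := hedge ⟨(v, w), h⟩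
      exact ⟨⟨⟨(v, w), h⟩, y⟩, h1, h2⟩

/-- the finite system of the recurrent edges -/
noncomputable def core [Finite V] (S : Sys V) : Sys V := (exists_core S).choose

theorem core_finite [Finite V] (S : Sys V) : Finite S.core.Z := (exists_core S).choose_spec.1

theorem core_edge [Finite V] (S : Sys V) (v w : V) : S.core.Edge v w ↔ S.Rec v w :=
  (exists_core S).choose_spec.2 v w

theorem Rec.edge {S : Sys V} {v w : V} (h : S.Rec v w) : S.Edge v w := by
  obtain ⟨R, -, h1, h2⟩ := h
  exact h1 v w h2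

/-- push forward the finite system -/
theorem Rec.push {S : Sys V'} (π : V' → V) {v w : V'} (h : S.Rec v w) :
    (S.push π).Rec (π v) (π w) := by
  obtain ⟨R, h0, h1, h2⟩ := h
  refine ⟨R.push π, h0, ?_, ?_⟩
  · rintro a b ⟨z, hz1, hz2⟩
    obtain ⟨y, hy1, hy2⟩ := h1 _ _ ⟨z, rfl, rfl⟩
    refine ⟨y, ?_, ?_⟩
    · rw [← hz1]
      exact congrArg π hy1
    · rw [← hz2]
      exact congrArg π hy2
  · obtain ⟨z, hz1, hz2⟩ := h2
    exact ⟨z, congrArg π hz1, congrArg π hz2⟩

/-- an edge of `core` of `S`, for coarser colours -/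
theorem core_push [Finite V] [Finite V'] (S : Sys V') (π : V' → V) (v w : V)
    (h : (S.core.push π).Edge v w) : (S.push π).core.Edge v w := by
  obtain ⟨z, h1, h2⟩ := h
  have h3 : S.core.Edge (S.core.c z) (S.core.c (S.core.T z)) := ⟨z, rfl, rfl⟩
  have h4 := Rec.push π ((core_edge S _ _).1 h3)
  have h5 : π (S.core.c z) = v := h1
  have h6 : π (S.core.c (S.core.T z)) = w := h2
  rw [h5, h6] at h4
  exact (core_edge (S.push π) v w).2 h4

end Sys

end Pool.Agent.H13.BD
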