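import Pool.Agent.H13.BD.Words

/-!
# Windows of recurrent edges
-/

set_option autoImplicit false

open Classical

namespace Pool.Agent.H13.BD

namespace Sys

variable {V : Type} (S : Sys V)

/-- the cyclic system of a periodic sequence -/
theorem win_cycf (n : ℕ) (hn : 0 < n) (u : ℕ → V) (r : V → V → Prop)
    (h : ∀ i < n, r (u i) (u (i + 1))) (hl : u n = u 0) :
    ∃ (Q : Sys V) (z : Q.Z), Finite Q.Z ∧ (∀ a b, Q.Edge a b → r a b) ∧
      (∀ i : ℕ, i ≤ n → Q.c ((Q.T ^ (i : ℤ)) z) = u i) ∧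
      ∀ k : ℤ, |k| < n → (Q.T ^ k) z = z → k = 0 := by
  have : NeZero n := ⟨hn.ne'⟩
  have hnat : ∀ k : ℕ, ∀ x : ZMod n, ((Equiv.addRight (1 : ZMod n)) ^ k) x = x + (k : ZMod n) := by
    intro k
    induction k with
    | zero => intro x; simp
    | succ k ih =>
      intro x
      rw [pow_succ, Equiv.Perm.mul_apply, ih, Equiv.coe_addRight, Nat.cast_succ]
      ring
  have hpow : ∀ k : ℤ, ((Equiv.addRight (1 : ZMod n)) ^ k) 0 = (k : ZMod n) := by
    intro k
    obtain ⟨m, rfl | rfl⟩ := Int.eq_nat_or_neg k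
    · rw [zpow_natCast, hnat, zero_add, Int.cast_natCast]
    · rw [zpow_neg, zpow_natCast, Equiv.Perm.inv_eq_iff_eq, hnat, Int.cast_neg, Int.cast_natCast]
      ring
  refine ⟨⟨ZMod n, Equiv.addRight 1, fun x => u x.val⟩, (0 : ZMod n), ?_, ?_, ?_, ?_⟩
  · exact (inferInstance : Finite (ZMod n))
  · rintro a b ⟨x, rfl, rfl⟩
    change r (u (ZMod.val (x : ZMod n))) (u (ZMod.val ((x : ZMod n) + 1)))
    have h1 : ZMod.val ((x : ZMod n) + 1) = ((x : ZMod n).val + 1) % n := by
      rw [ZMod.val_add, ZMod.val_one_eq_one_mod, Nat.add_mod_mod]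
    have h2 : (x : ZMod n).val < n := ZMod.val_lt x
    rw [h1]
    by_cases h3 : (x : ZMod n).val + 1 < n
    · rw [Nat.mod_eq_of_lt h3]
      exact h _ h2
    · have h4 : (x : ZMod n).val + 1 = n := by omega
      have h5 := h _ h2
      rw [h4] at h5 ⊢
      rw [Nat.mod_self, ← hl]
      exact h5
  · intro i hi
    change u (ZMod.val (((Equiv.addRight (1 : ZMod n)) ^ (i : ℤ)) 0)) = u i
    rw [hpow, Int.cast_natCast, ZMod.val_natCast]
    rcases hi.eq_or_lt with h1 | h1
    · rw [h1, Nat.mod_self, hl]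
    · rw [Nat.mod_eq_of_lt h1]
  · intro k hk hk2
    change ((Equiv.addRight (1 : ZMod n)) ^ k) 0 = (0 : ZMod n) at hk2
    rw [hpow] at hk2
    exact Int.eq_zero_of_abs_lt_dvd ((ZMod.intCast_zmod_eq_zero_iff_dvd k n).1 hk2) hk

theorem win_wlk {r : V → V → Prop} {x y : V} (h : Relation.ReflTransGen r x y) :
    ∃ (k : ℕ) (u : ℕ → V), u 0 = x ∧ u k = y ∧ ∀ i < k, r (u i) (u (i + 1)) := by
  induction h with
  | refl => exact ⟨0, fun _ => x, rfl, rfl, fun i hi => absurd hi (Nat.not_lt_zero i)⟩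
  | @tail b c _ hbc ih =>
    obtain ⟨k, u, h0, hk, hu⟩ := ih
    refine ⟨k + 1, fun i => if i ≤ k then u i else c, ?_, ?_, ?_⟩
    · simpa using h0
    · simp
    · intro i hi
      dsimp only
      rw [if_pos (by omega : i ≤ k)]
      by_cases h1 : i + 1 ≤ k
      · rw [if_pos h1]
        exact hu i (by omega)
      · rw [if_neg h1]
        have h2 : i = k := by omega
        rw [h2, hk]
        exact hbc

/-- A closed walk gives a finite cyclic system. Proof: `n := l.length + 1`, `Z := ZMod n` (or `Fin n` with `finRotate`),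
`T := Equiv.addRight 1`, `c i := (v :: l)[i.val]`. -/
theorem cyc (v : V) (l : List V) (r : V → V → Prop) (h : List.IsChain r (v :: l))
    (hl : r ((v :: l).getLast (by simp)) v) :
    ∃ (Q : Sys V) (z : Q.Z), Finite Q.Z ∧ (∀ a b, Q.Edge a b → r a b) ∧
      (∀ i : ℕ, (hi : i < (v :: l).length) → Q.c ((Q.T ^ (i : ℤ)) z) = (v :: l)[i]) ∧
      ∀ k : ℤ, |k| < (v :: l).length → (Q.T ^ k) z = z → k = 0 := by
  have h1 := List.isChain_iff_getElem.1 h
  have hlen : (v :: l).length = l.length + 1 := List.length_cons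
  obtain ⟨Q, z, hQ, hE, hc, hk⟩ := win_cycf (l.length + 1) (Nat.succ_pos _)
    (fun i => if hi : i < (v :: l).length then (v :: l)[i] else v) r (by
      intro i hi
      rw [dif_pos (by omega : i < (v :: l).length)]
      by_cases h2 : i + 1 < (v :: l).length
      · rw [dif_pos h2]
        exact h1 i h2
      · rw [dif_neg h2]
        rw [List.getLast_eq_getElem] at hl
        have h3 : (v :: l).length - 1 = i := by omega
        simp only [h3] at hl
        exact hl) (by
      rw [dif_neg (by omega : ¬ l.length + 1 < (v :: l).length),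
        dif_pos (by omega : 0 < (v :: l).length)]
      rfl)
  refine ⟨Q, z, hQ, hE, ?_, ?_⟩
  · intro i hi
    rw [hc i (by omega), dif_pos hi]
  · intro k hk1 hk2
    refine hk k ?_ hk2
    rw [hlen] at hk1
    exact hk1

/-- A recurrent edge can be closed by a walk of recurrent edges. Proof: let `R` be the finite system, `z` with the
colours `v`, `w` of `z`, `T z`. As `R.Z` is finite `T ^ n z = z` for some `n > 0`; the edges of `T z, T ^ 2 z, …, T ^ n z = z`
are recurrent (`⟨R, …⟩`). -/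
theorem Rec.back {v w : V} (h : S.Rec v w) : Relation.ReflTransGen S.Rec w v := by
  obtain ⟨Q, hQ, hE, z, hv, hw⟩ := h
  have := hQ
  obtain ⟨n, hn, hn1⟩ := isOfFinOrder_iff_pow_eq_one.1 (isOfFinOrder_of_finite Q.T)
  have h1 : ∀ k : ℕ, Relation.ReflTransGen S.Rec (Q.c (Q.T z)) (Q.c ((Q.T ^ (k + 1)) z)) := by
    intro k
    induction k with
    | zero =>
      rw [zero_add, pow_one]
    | succ k ih =>
      refine ih.tail ⟨Q, hQ, hE, (Q.T ^ (k + 1)) z, rfl, ?_⟩
      rw [pow_succ' _ (k + 1), Equiv.Perm.mul_apply]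
  have h2 := h1 (n - 1)
  rw [Nat.sub_add_cancel hn, hn1, Equiv.Perm.one_apply, hv, hw] at h2
  exact h2

/-- A window of recurrent edges occurs in a finite cyclic system whose edges are recurrent. Proof: let
`v i := S.c (T ^ (i - R) z)` for `0 ≤ i ≤ 2 R + 1`; by `Rec.back` there are walks from `v (i + 1)` to `v i`, so
`ReflTransGen S.Rec (v (2 R + 1)) (v 0)`, which gives a chain (`List.exists_isChain_cons_of_relationReflTransGen`) from
`v (2 R + 1)` to `v 0`. If `v (2 R + 1) = v 0` use `v 0, …, v (2 R)`, otherwise append the chain from `v (2 R + 1)` without its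
last element `v 0`. (Or: first close the walk: the sequence `v 0, …, v (2 R), v (2 R + 1), u 1, …, u k` with an edge from
`u k` to `v 0`, unless `k = 0`.) Apply `cyc` with `z' := T ^ R z₀`; the length is `> 2 R ≥ R`; shift the base point. -/
theorem win (z : S.Z) (R : ℕ)
    (h : ∀ m : ℤ, |m| ≤ R → S.Rec (S.c ((S.T ^ m) z)) (S.c ((S.T ^ (m + 1)) z))) :
    ∃ (Q : Sys V) (z' : Q.Z), Finite Q.Z ∧ (∀ a b, Q.Edge a b → S.Rec a b) ∧
      (∀ m : ℤ, |m| ≤ R → Q.c ((Q.T ^ m) z') = S.c ((S.T ^ m) z)) ∧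
      ∀ k : ℤ, |k| ≤ R → (Q.T ^ k) z' = z' → k = 0 := by
  set a : ℕ → V := fun i => S.c ((S.T ^ ((i : ℤ) - R)) z) with ha
  have hedge : ∀ i : ℕ, i ≤ 2 * R → S.Rec (a i) (a (i + 1)) := by
    intro i hi
    have h1 := h ((i : ℤ) - R) (by rw [abs_le]; constructor <;> omega)
    have h2 : (i : ℤ) - R + 1 = ((i + 1 : ℕ) : ℤ) - R := by push_cast; ring
    rw [h2] at h1
    exact h1
  have hback : ∀ i : ℕ, i ≤ 2 * R + 1 → Relation.ReflTransGen S.Rec (a i) (a 0) := by
    intro i
    induction i with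
    | zero => intro _; exact Relation.ReflTransGen.refl
    | succ i ih =>
      intro hi
      exact (Rec.back S (hedge i (by omega))).trans (ih (by omega))
  obtain ⟨k, u, hu0, huk, hu⟩ := win_wlk (hback (2 * R + 1) le_rfl)
  obtain ⟨Q, z0, hQ, hE, hc, hk⟩ := win_cycf (2 * R + 1 + k) (by omega)
    (fun i => if i ≤ 2 * R + 1 then a i else u (i - (2 * R + 1))) S.Rec (by
      intro i hi
      by_cases h1 : i + 1 ≤ 2 * R + 1
      · rw [if_pos (by omega : i ≤ 2 * R + 1), if_pos h1]
        exact hedge i (by omega)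
      · rw [if_neg h1]
        by_cases h2 : i ≤ 2 * R + 1
        · rw [if_pos h2]
          have h3 : i = 2 * R + 1 := by omega
          have h4 := hu 0 (by omega)
          rw [hu0] at h4
          rw [h3, show 2 * R + 1 + 1 - (2 * R + 1) = 0 + 1 by omega]
          exact h4
        · rw [if_neg h2, show i + 1 - (2 * R + 1) = (i - (2 * R + 1)) + 1 by omega]
          exact hu _ (by omega)) (by
      rw [if_pos (by omega : 0 ≤ 2 * R + 1)]
      by_cases h1 : k = 0
      · rw [if_pos (by omega)]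
        rw [h1] at huk
        rw [h1, add_zero, ← hu0, huk]
      · rw [if_neg (by omega), show 2 * R + 1 + k - (2 * R + 1) = k by omega, huk])
  refine ⟨Q, (Q.T ^ (R : ℤ)) z0, hQ, hE, ?_, ?_⟩
  · intro m hm
    rw [abs_le] at hm
    obtain ⟨j, hj⟩ : ∃ j : ℕ, (j : ℤ) = m + R := ⟨(m + R).toNat, by omega⟩
    rw [← Equiv.Perm.mul_apply, ← zpow_add, ← hj, hc j (by omega)]
    rw [if_pos (by omega)]
    simp only [ha]
    rw [hj, add_sub_cancel_right]
  · intro j hj hj2
    refine hk j (by push_cast; omega) ?_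
    rw [← Equiv.Perm.mul_apply, ← zpow_add, add_comm, zpow_add, Equiv.Perm.mul_apply] at hj2
    exact (Q.T ^ (R : ℤ)).injective hj2

/-- If a colour recurs on the orbit of `z` then the edge at its first occurrence is recurrent. Proof: `cyc` for the walk
`S.c z, S.c (T z), …, S.c (T ^ (k - 1) z)` and `r := S.Edge`; for `k = 1` the walk has the only element `S.c z`. -/
theorem onc (z : S.Z) (k : ℕ) (hk : 0 < k) (h : S.c ((S.T ^ (k : ℤ)) z) = S.c z) :
    S.Rec (S.c z) (S.c (S.T z)) := by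
  obtain ⟨Q, z0, hQ, hE, hc, -⟩ := win_cycf k hk
    (fun i => S.c ((S.T ^ (i : ℤ)) z)) S.Edge (by
      intro i _
      refine ⟨(S.T ^ (i : ℤ)) z, rfl, ?_⟩
      rw [← Equiv.Perm.mul_apply, ← zpow_one_add, add_comm]
      push_cast
      rfl) (by
      rw [h, Nat.cast_zero, zpow_zero, Equiv.Perm.one_apply])
  refine ⟨Q, hQ, hE, z0, ?_, ?_⟩
  · have h1 := hc 0 (Nat.zero_le _)
    rw [Nat.cast_zero, zpow_zero, Equiv.Perm.one_apply] at h1
    rw [h1, zpow_zero, Equiv.Perm.one_apply]
  · have h1 := hc 1 hk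
    rw [Nat.cast_one, zpow_one] at h1
    rw [h1, zpow_one]

end Sys

end Pool.Agent.H13.BD
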