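import Pool.Agent.H13.BD.MLp
import Pool.Agent.H13.BD.Loc
import Pool.Agent.H13.BD.Rec
import Pool.Agent.H13.BD.Win
import Pool.Agent.H13.BD.Fnt

/-!
# The kernel of an approximation is locally finite
-/

set_option autoImplicit false

open Classical

namespace Pool.Agent.H13.BD

theorem klf_rf {V : Type} (p : PP V) : rf (id : V → V) p = p := by
  have h1 : (Sum.map (fun (e : V → V → Fin1) v w => e (id v) (id w))
      (fun A : Set V => (id : V → V) ⁻¹' A)) = id := by
    funext x
    rcases x with e | A <;> rfl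
  unfold rf
  rw [h1]
  exact FreeGroup.map.id p

/-- An element `p` which is trivial for the finite system of the recurrent edges fixes the slots in the middle of a
window of recurrent edges. Proof: `R` from `loc p`. By `Sys.win` the window occurs in a finite system `Q` with recurrent
edges, `Q.ev p = 1` by `mlp` for `π = id` (`rf id p = p`) and `Sys.core_edge`, so `Q.Ph p = 1` (`ev_right`), and by `loc`
`S.Ph p (y, n) = (T ^ k y, n')` with `(T ^ k z', n') = Q.Ph p (z', n) = (z', n)`, so `k = 0`, `n' = n`. -/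
theorem klf1 {V : Type} [Finite V] (S : Sys V) (p : PP V) (hp : S.core.ev p = 1) :
    ∃ R : ℕ, ∀ y : S.Z, (∀ m : ℤ, |m| ≤ R →
      S.Rec (S.c ((S.T ^ m) y)) (S.c ((S.T ^ (m + 1)) y))) → ∀ n, S.Ph p (y, n) = (y, n) := by
  obtain ⟨R, hR⟩ := loc p
  refine ⟨R, fun y hy n => ?_⟩
  obtain ⟨Q, z', hfin, hQ, hc, hk⟩ := S.win y R hy
  have h1 : Q.ev p = 1 := by
    have h2 := mlp (id : V → V) S.core Q
      (fun v w hvw => (S.core_edge v w).2 (hQ v w hvw)) p hp
    rwa [klf_rf] at h2
  have h3 : Q.Ph p = 1 := by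
    rw [← ev_right, h1]
    rfl
  obtain ⟨k, n', h4, h5, h6⟩ := hR S Q y z' (fun m hm => (hc m hm).symm) n
  rw [h3, Equiv.Perm.one_apply] at h6
  have h7 := congrArg Prod.fst h6
  have h8 := congrArg Prod.snd h6
  dsimp only at h7 h8
  have h9 := hk k h4 h7.symm
  rw [h5, h9, ← h8, zpow_zero, Equiv.Perm.one_apply]

/-- On each line at most `Nat.card V` positions start an edge which is not recurrent. Proof: the colour is injective on
these positions: if `c (ω, a) = c (ω, b)` with `a < b` then the edge at `(ω, a)` is recurrent by `Sys.onc`. -/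
theorem klf2 {Ω V : Type} [Finite V] (c : Ω × ℤ → V) (ω : Ω) :
    {a : ℤ | ¬ (ysys c).Rec (c (ω, a)) (c (ω, a + 1))}.Finite ∧
      {a : ℤ | ¬ (ysys c).Rec (c (ω, a)) (c (ω, a + 1))}.ncard ≤ Nat.card V := by
  have hinj : Set.InjOn (fun a : ℤ => c (ω, a))
      {a : ℤ | ¬ (ysys c).Rec (c (ω, a)) (c (ω, a + 1))} := by
    have key : ∀ a b : ℤ, a < b → c (ω, a) = c (ω, b) →
        (ysys c).Rec (c (ω, a)) (c (ω, a + 1)) := by
      intro a b hab h
      obtain ⟨k, hk⟩ := Int.eq_ofNat_of_zero_le (show 0 ≤ b - a by omega)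
      have h1 : ((ysys c).T ^ (k : ℤ)) (ω, a) = (ω, b) := by
        show (shf Ω ^ (k : ℤ)) (ω, a) = (ω, b)
        rw [shf_pow]
        refine Prod.ext rfl ?_
        show a + (k : ℤ) = b
        omega
      refine (ysys c).onc (ω, a) k (by omega) ?_
      rw [h1]
      exact h.symm
    intro a ha b hb hab
    rcases lt_trichotomy a b with h | h | h
    · exact absurd (key a b h hab) ha
    · exact h
    · exact absurd (key b a h hab.symm) hb
  refine ⟨Set.Finite.of_finite_image (Set.toFinite _) hinj, ?_⟩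
  rw [← Set.InjOn.ncard_image hinj, ← Set.ncard_univ]
  exact Set.ncard_le_ncard (Set.subset_univ _) (Set.toFinite _)

theorem klf_bound {α : Type} (s : Finset α) (P : α → ℕ → Prop)
    (hP : ∀ a m n, m ≤ n → P a m → P a n) (h : ∀ a ∈ s, ∃ n, P a n) :
    ∃ n, ∀ a ∈ s, P a n := by
  induction s using Finset.induction_on with
  | empty => exact ⟨0, fun a ha => absurd ha (Finset.notMem_empty a)⟩
  | insert b s hb ih =>
    obtain ⟨n, hn⟩ := ih fun a ha => h a (Finset.mem_insert_of_mem ha)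
    obtain ⟨m, hm⟩ := h b (Finset.mem_insert_self _ _)
    refine ⟨max m n, fun a ha => ?_⟩
    rcases Finset.mem_insert.1 ha with rfl | ha
    · exact hP a m _ (le_max_left _ _) hm
    · exact hP a n _ (le_max_right _ _) (hn a ha)

/-- Proof. Choose for each `q ∈ s` an element `p` as in the hypothesis, `R_p` from `klf1` and `M_q` from `q ∈ FH`; let `R`, `M` be
upper bounds for the finitely many `q`. Apply `fnt` with `b t := t.1.1` (the line); `b` is preserved by `loc_disp`
(`shf_pow`). A slot `((ω, a), n)` which is moved by some `q ∈ s` has `n < M` and by `klf1` there is `m` with `|m| ≤ R` such that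
the edge at `(ω, a + m)` is not recurrent; by `klf2` there are at most `Nat.card V * (2 * R + 1) * M` such slots on the
line `ω`. -/
theorem klf {Ω V : Type} [Finite V] (c : Ω × ℤ → V) (s : Finset (Equiv.Perm ((Ω × ℤ) × ℕ)))
    (hs : ∀ q ∈ s, q ∈ FH (Ω × ℤ) ∧ ∃ p : PP V, (ysys c).core.ev p = 1 ∧ (ysys c).Ph p = q) :
    Finite (Subgroup.closure (s : Set (Equiv.Perm ((Ω × ℤ) × ℕ)))) := by
  obtain ⟨M, hM⟩ := klf_bound s (fun q M => ∀ y n, M ≤ n → q (y, n) = (y, n))
    (fun q m n hmn h y k hk => h y k (hmn.trans hk)) (fun q hq => (hs q hq).1)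
  obtain ⟨R, hR⟩ := klf_bound s (fun q R => ∀ y : Ω × ℤ, (∀ m : ℤ, |m| ≤ R →
      (ysys c).Rec ((ysys c).c (((ysys c).T ^ m) y)) ((ysys c).c (((ysys c).T ^ (m + 1)) y))) →
      ∀ n, q (y, n) = (y, n))
    (fun q m n hmn h y hy k => h y (fun l hl => hy l (hl.trans (by exact_mod_cast hmn))) k)
    (fun q hq => by
      obtain ⟨-, p, hp, rfl⟩ := hs q hq
      obtain ⟨R, hR⟩ := klf1 (ysys c) p hp
      exact ⟨R, hR⟩)
  refine fnt (fun t : (Ω × ℤ) × ℕ => t.1.1) s (Nat.card V * ((2 * R + 1) * M)) ?_ ?_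
  · intro q hq x
    obtain ⟨-, p, -, rfl⟩ := hs q hq
    obtain ⟨R', M', h1⟩ := loc_disp p
    obtain ⟨k, -, h2, -⟩ := h1 (ysys c) x.1 x.2
    have h3 : ((ysys c).T ^ k) x.1 = (x.1.1, x.1.2 + k) := shf_pow k x.1
    show ((ysys c).Ph p x).1.1 = x.1.1
    have h4 : ((ysys c).Ph p x).1 = (x.1.1, x.1.2 + k) := h2.trans h3
    rw [h4]
  · intro ω
    obtain ⟨hA, hA2⟩ := klf2 c ω
    have hsub : {x : (Ω × ℤ) × ℕ | x.1.1 = ω ∧ ∃ g ∈ s, g x ≠ x} ⊆
        ((((hA.toFinset ×ˢ (Finset.Icc (-(R : ℤ)) R ×ˢ Finset.range M)).image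
          (fun x => ((ω, x.1 - x.2.1), x.2.2)) : Finset ((Ω × ℤ) × ℕ))) :
            Set ((Ω × ℤ) × ℕ)) := by
      rintro ⟨⟨ω', a⟩, n⟩ ⟨rfl, q, hq, hne⟩
      have hn : n < M := by
        by_contra hn
        exact hne (hM q hq _ n (not_lt.1 hn))
      have hw : ∃ m : ℤ, |m| ≤ R ∧
          ¬ (ysys c).Rec (c (ω', a + m)) (c (ω', a + m + 1)) := by
        by_contra hcon
        push Not at hcon
        refine hne (hR q hq (ω', a) (fun m hm => ?_) n)
        have h1 : ((ysys c).T ^ m) (ω', a) = (ω', a + m) := shf_pow m (ω', a)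
        have h2 : ((ysys c).T ^ (m + 1)) (ω', a) = (ω', a + m + 1) := by
          have h3 : ((ysys c).T ^ (m + 1)) (ω', a) = (ω', a + (m + 1)) := shf_pow _ (ω', a)
          rw [h3, add_assoc]
        rw [h1, h2]
        exact hcon m hm
      obtain ⟨m, hm, hrec⟩ := hw
      rw [Finset.mem_coe, Finset.mem_image]
      refine ⟨(a + m, m, n), ?_, ?_⟩
      · rw [Finset.mem_product, Finset.mem_product, Set.Finite.mem_toFinset, Finset.mem_Icc,
          Finset.mem_range]
        exact ⟨hrec, abs_le.1 hm, hn⟩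
      · show ((ω', a + m - m), n) = ((ω', a), n)
        rw [add_sub_cancel_right]
    refine ⟨(Finset.finite_toSet _).subset hsub, ?_⟩
    refine (Set.ncard_le_ncard hsub (Finset.finite_toSet _)).trans ?_
    rw [Set.ncard_coe_finset]
    refine Finset.card_image_le.trans ?_
    rw [Finset.card_product, Finset.card_product, Finset.card_range, Int.card_Icc,
      ← Set.ncard_eq_toFinset_card _ hA]
    refine Nat.mul_le_mul hA2 (Nat.mul_le_mul ?_ le_rfl)
    omega

end Pool.Agent.H13.BD
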