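import Pool.Agent.H13.BD.Defs

/-!
# The products `LA` of generators of labels

`LA c φ A` is the product (`Finset.noncommProd`, over the finite set `A`) of the commuting elements
`g1 (lb (c ⁻¹' {k}) φ)`, `k ∈ A`.
-/

set_option autoImplicit false

open Classical

namespace Pool.Agent.H13.BD

open Pool.Agent.H13.TFG

variable {Y V : Type} [Finite V] (c : Y → V)

omit [Finite V] in
theorem lax_pw (φ : Y ↪ Y × ℕ) (s : Finset V) : (s : Set V).Pairwise
    (Function.onFun Commute fun k => g1 (lb (c ⁻¹' {k}) φ)) := by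
  intro k _ k' _ hk
  refine g1_comm ?_
  intro b b' t h1 h2
  obtain ⟨hb, h3⟩ := lb_eq_some.1 h1
  obtain ⟨hb', h4⟩ := lb_eq_some.1 h2
  have h5 : b = b' := φ.injective (h3.trans h4.symm)
  apply hk
  rw [← (hb : c b = k), ← (hb' : c b' = k'), h5]

theorem lax_def (φ : Y ↪ Y × ℕ) (A : Set V) (s : Finset V) (hs : ∀ k, k ∈ s ↔ k ∈ A) :
    LA c φ A = s.noncommProd (fun k => g1 (lb (c ⁻¹' {k}) φ)) (lax_pw c φ s) := by
  have h1 : (Set.toFinite A).toFinset = s := by
    ext k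
    rw [Set.Finite.mem_toFinset, hs]
  unfold LA
  exact Finset.noncommProd_congr h1 (fun _ _ => rfl) _

theorem lax_self (φ : Y ↪ Y × ℕ) (A : Set V) :
    LA c φ A = (Set.toFinite A).toFinset.noncommProd (fun k => g1 (lb (c ⁻¹' {k}) φ))
      (lax_pw c φ _) :=
  lax_def c φ A _ fun _ => Set.Finite.mem_toFinset _

/-- `Finset.noncommProd_union_of_disjoint` -/
theorem LA_union (φ : Y ↪ Y × ℕ) (A B : Set V) (h : Disjoint A B) :
    LA c φ (A ∪ B) = LA c φ A * LA c φ B := by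
  have h1 : Disjoint (Set.toFinite A).toFinset (Set.toFinite B).toFinset := by
    rw [Finset.disjoint_left]
    intro k hk hk'
    rw [Set.Finite.mem_toFinset] at hk hk'
    exact Set.disjoint_left.1 h hk hk'
  rw [lax_def c φ (A ∪ B) ((Set.toFinite A).toFinset ∪ (Set.toFinite B).toFinset) (fun k => by
    rw [Finset.mem_union, Set.Finite.mem_toFinset, Set.Finite.mem_toFinset, Set.mem_union]),
    Finset.noncommProd_union_of_disjoint h1, lax_self c φ A, lax_self c φ B]

/-- the factors are equal: `lb (c ⁻¹' {k}) φ = lb (c ⁻¹' {k}) φ'` for `k ∈ A` -/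
theorem LA_congr (φ φ' : Y ↪ Y × ℕ) (A : Set V) (h : ∀ b, c b ∈ A → φ b = φ' b) :
    LA c φ A = LA c φ' A := by
  rw [lax_self c φ A, lax_self c φ' A]
  refine Finset.noncommProd_congr rfl (fun k hk => ?_) _
  rw [Set.Finite.mem_toFinset] at hk
  have h1 : lb (c ⁻¹' {k}) φ = lb (c ⁻¹' {k}) φ' := by
    funext b
    unfold lb
    by_cases hb : b ∈ c ⁻¹' {k}
    · rw [if_pos hb, if_pos hb, h b]
      rw [(hb : c b = k)]
      exact hk
    · rw [if_neg hb, if_neg hb]
  rw [h1]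

/-- `Finset.map_noncommProd`, `g1_act`, `smul_lb` -/
theorem LA_act (φ : Y ↪ Y × ℕ) (g : Equiv.Perm (Y × ℕ)) (A : Set V) :
    raagAct (tg Y) (Equiv.Perm (Y × ℕ)) (tg_smul Y) g (LA c φ A) =
      LA c (φ.trans g.toEmbedding) A := by
  rw [lax_self c φ A, lax_self c (φ.trans g.toEmbedding) A, Finset.map_noncommProd]
  refine Finset.noncommProd_congr rfl (fun k _ => ?_) _
  rw [g1_act, smul_lb]
  rfl

/-- all factors commute by `g1_comm` (the labels have no common token); `Finset.noncommProd_commute` twice -/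
theorem LA_comm (φ φ' : Y ↪ Y × ℕ) (A B : Set V)
    (h : ∀ b b', c b ∈ A → c b' ∈ B → φ b ≠ φ' b') :
    LA c φ A * LA c φ' B = LA c φ' B * LA c φ A := by
  rw [lax_self c φ A, lax_self c φ' B]
  refine Finset.noncommProd_commute _ _ _ _ fun k' hk' => ?_
  refine (Finset.noncommProd_commute _ _ _ _ fun k hk => ?_).symm
  rw [Set.Finite.mem_toFinset] at hk hk'
  refine g1_comm ?_
  intro b' b t h1 h2
  obtain ⟨hb', h3⟩ := lb_eq_some.1 h1
  obtain ⟨hb, h4⟩ := lb_eq_some.1 h2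
  refine h b b' ?_ ?_ (h4.trans h3.symm)
  · rw [(hb : c b = k)]
    exact hk
  · rw [(hb' : c b' = k')]
    exact hk'

theorem LA_single (φ : Y ↪ Y × ℕ) (k : V) : LA c φ {k} = g1 (lb (c ⁻¹' {k}) φ) := by
  rw [lax_def c φ {k} {k} (fun k' => by rw [Finset.mem_singleton, Set.mem_singleton_iff]),
    Finset.noncommProd_singleton]

theorem LA_empty (φ : Y ↪ Y × ℕ) : LA c φ ∅ = 1 := by
  rw [lax_def c φ ∅ ∅ (fun k' => by simp), Finset.noncommProd_empty]

/-- all labels are empty -/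
theorem LA_eq_one (φ : Y ↪ Y × ℕ) (A : Set V) (h : ∀ b, c b ∉ A) : LA c φ A = 1 := by
  rw [lax_self c φ A, Finset.noncommProd_eq_pow_card _ _ _ 1, one_pow]
  intro k hk
  rw [Set.Finite.mem_toFinset] at hk
  unfold g1
  rw [if_pos]
  intro b
  unfold lb
  rw [if_neg]
  intro hb
  apply h b
  rw [(hb : c b = k)]
  exact hk

/-- colours which are not used do not matter: `A = (A ∩ B) ∪ (A \ B)`, and `LA_eq_one` for `A \ B`, `B \ A` -/
theorem LA_used (φ : Y ↪ Y × ℕ) (A B : Set V) (h : ∀ b, c b ∈ A ↔ c b ∈ B) :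
    LA c φ A = LA c φ B := by
  have key : ∀ A B : Set V, (∀ b, c b ∈ A ↔ c b ∈ B) → LA c φ A = LA c φ (A ∩ B) := by
    intro A B h
    have h1 : A = (A ∩ B) ∪ (A \ B) := (Set.inter_union_sdiff A B).symm
    have h2 : Disjoint (A ∩ B) (A \ B) := Set.disjoint_left.2 fun k hk hk' => hk'.2 hk.2
    have h3 : LA c φ (A \ B) = 1 := LA_eq_one c φ _ fun b hb => hb.2 ((h b).1 hb.1)
    conv_lhs => rw [h1]
    rw [LA_union c φ _ _ h2, h3, mul_one]
  rw [key A B h, key B A fun b => (h b).symm, Set.inter_comm]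

end Pool.Agent.H13.BD
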