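import Pool.Agent.H13.BD.Words

/-!
# Lifts of permutations of bounded displacement to the lines
-/

set_option autoImplicit false

open Classical

namespace Pool.Agent.H13.BD

variable {X : Type} (T : Equiv.Perm X)

/-- the points whose period is infinite or greater than `P` -/
def Lg (P : ℕ) : Set X := {x | ∀ k : ℤ, k ≠ 0 → |k| ≤ P → (T ^ k) x ≠ x}

/-- displacement along `T` bounded by `N` -/
def Bd (N : ℕ) (g : Equiv.Perm X) : Prop := ∀ x, ∃ n : ℤ, |n| ≤ N ∧ g x = (T ^ n) x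

/-- `u` is a lift of `g` to the lines `x × ℤ` over the points `x` of large period; `(x, n)` lies over `T ^ n x` -/
def IsLift (g : Equiv.Perm X) (u : Equiv.Perm (X × ℤ)) : Prop :=
  u ∈ Wb X ∧ ∃ P : ℕ, ∀ y : X × ℤ, y.1 ∈ Lg T P → g ((T ^ y.2) y.1) = (T ^ (u y).2) y.1

/-- the elements of the wobbling group which are trivial on the lines over the points of large period -/
def NN : Subgroup (Wb X) where
  carrier := {w | ∃ P : ℕ, ∀ y : X × ℤ, y.1 ∈ Lg T P → w.1 y = y}
  one_mem' := ⟨0, fun _ _ => rfl⟩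
  mul_mem' := by
    rintro v w ⟨P, hP⟩ ⟨Q, hQ⟩
    refine ⟨max P Q, fun y hy => ?_⟩
    have h1 : y.1 ∈ Lg T P := fun k hk hk2 => hy k hk (hk2.trans (by exact_mod_cast le_max_left P Q))
    have h2 : y.1 ∈ Lg T Q := fun k hk hk2 => hy k hk (hk2.trans (by exact_mod_cast le_max_right P Q))
    change v.1 (w.1 y) = y
    rw [hQ y h2, hP y h1]
  inv_mem' := by
    rintro v ⟨P, hP⟩
    refine ⟨P, fun y hy => ?_⟩
    change v.1⁻¹ y = y
    rw [Equiv.Perm.inv_eq_iff_eq, hP y hy]

end Pool.Agent.H13.BD
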