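import Pool.Agent.H13.TFG.Raag

/-!
# Pinches in words of right-angled Artin groups
-/

set_option autoImplicit false

open Classical

namespace Pool.Agent.H13.BD

open Pool.Agent.H13.TFG

/-- the value of a word -/
def wval {L : Type} (Γ : SimpleGraph L) (w : List (L × Bool)) : RAAG Γ :=
  (w.map fun x => if x.2 then gen Γ x.1 else (gen Γ x.1)⁻¹).prod

section pin

variable {L : Type} (Γ : SimpleGraph L) (a : L)

/-- the cosets of the subgroup generated by the neighbours of `a` -/
abbrev pinX : Type := RAAG Γ ⧸ vsub Γ {b | Γ.Adj a b}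

/-- the trivial coset -/
def pinO : pinX Γ a := QuotientGroup.mk 1

variable {Γ a}

theorem pin_smul_o {g : RAAG Γ} : g • pinO Γ a = pinO Γ a ↔ g ∈ vsub Γ {b | Γ.Adj a b} := by
  have h1 : g • pinO Γ a = QuotientGroup.mk (g * 1) := rfl
  rw [h1, mul_one]
  unfold pinO
  rw [eq_comm, QuotientGroup.eq, inv_one, one_mul]

theorem pin_adj {b : L} (h : Γ.Adj a b) (x : pinX Γ a) :
    (gen Γ b)⁻¹ • x = pinO Γ a ↔ x = pinO Γ a := by
  have h1 : gen Γ b ∈ vsub Γ {b | Γ.Adj a b} := Subgroup.subset_closure ⟨b, h, rfl⟩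
  rw [inv_smul_eq_iff, pin_smul_o.2 h1]

variable (Γ a)

/-- the affine action of a generator -/
noncomputable def pinE (b : L) : Equiv.Perm (pinX Γ a → ℤ) where
  toFun u := fun x => u ((gen Γ b)⁻¹ • x) + (if b = a ∧ x = pinO Γ a then 1 else 0)
  invFun u := fun x => u (gen Γ b • x) - (if b = a ∧ gen Γ b • x = pinO Γ a then 1 else 0)
  left_inv u := by
    funext x
    simp only [inv_smul_smul, add_sub_cancel_right]
  right_inv u := by
    funext x
    simp only [smul_inv_smul, sub_add_cancel]

theorem pinE_comm (b b' : L) (h : Γ.Adj b b') : pinE Γ a b * pinE Γ a b' = pinE Γ a b' * pinE Γ a b := by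
  apply Equiv.ext
  intro u
  funext x
  change (u ((gen Γ b')⁻¹ • ((gen Γ b)⁻¹ • x)) +
      (if b' = a ∧ (gen Γ b)⁻¹ • x = pinO Γ a then 1 else 0)) +
        (if b = a ∧ x = pinO Γ a then 1 else 0) =
    (u ((gen Γ b)⁻¹ • ((gen Γ b')⁻¹ • x)) +
      (if b = a ∧ (gen Γ b')⁻¹ • x = pinO Γ a then 1 else 0)) +
        (if b' = a ∧ x = pinO Γ a then 1 else 0)
  have h1 : (gen Γ b')⁻¹ • ((gen Γ b)⁻¹ • x) = (gen Γ b)⁻¹ • ((gen Γ b')⁻¹ • x) := by
    rw [smul_smul, smul_smul, ← mul_inv_rev, ← mul_inv_rev, gen_comm h]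
  have h2 : (b' = a ∧ (gen Γ b)⁻¹ • x = pinO Γ a) ↔ (b' = a ∧ x = pinO Γ a) := by
    constructor
    · rintro ⟨rfl, h3⟩
      exact ⟨rfl, (pin_adj h.symm x).1 h3⟩
    · rintro ⟨rfl, h3⟩
      exact ⟨rfl, (pin_adj h.symm x).2 h3⟩
  have h3 : (b = a ∧ (gen Γ b')⁻¹ • x = pinO Γ a) ↔ (b = a ∧ x = pinO Γ a) := by
    constructor
    · rintro ⟨rfl, h3⟩
      exact ⟨rfl, (pin_adj h x).1 h3⟩
    · rintro ⟨rfl, h3⟩
      exact ⟨rfl, (pin_adj h x).2 h3⟩
  rw [h1]
  simp only [h2, h3]
  ring

/-- the affine action -/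
noncomputable def pinD : RAAG Γ →* Equiv.Perm (pinX Γ a → ℤ) :=
  raagLift Γ (pinE Γ a) (pinE_comm Γ a)

/-- the number of the letters `(a, ε)` with wall `x` -/
noncomputable def pinN : List (L × Bool) → Bool → pinX Γ a → ℕ
  | [], _, _ => 0
  | (b, true) :: w, ε, x => pinN w ε ((gen Γ b)⁻¹ • x) +
      if b = a ∧ ε = true ∧ x = pinO Γ a then 1 else 0
  | (b, false) :: w, ε, x => pinN w ε (gen Γ b • x) +
      if b = a ∧ ε = false ∧ gen Γ b • x = pinO Γ a then 1 else 0

variable {Γ a}

theorem wval_cons (y : L × Bool) (w : List (L × Bool)) : wval Γ (y :: w) =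
    (if y.2 then gen Γ y.1 else (gen Γ y.1)⁻¹) * wval Γ w := by
  unfold wval
  rw [List.map_cons, List.prod_cons]

theorem wval_append (w w' : List (L × Bool)) : wval Γ (w ++ w') = wval Γ w * wval Γ w' := by
  unfold wval
  rw [List.map_append, List.prod_append]

theorem pinD_eq (w : List (L × Bool)) (x : pinX Γ a) :
    pinD Γ a (wval Γ w) 0 x = (pinN Γ a w true x : ℤ) - pinN Γ a w false x := by
  induction w generalizing x with
  | nil =>
    have h1 : wval Γ ([] : List (L × Bool)) = 1 := rfl
    rw [h1, map_one]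
    simp [pinN]
  | cons y w ih =>
    obtain ⟨b, ε⟩ := y
    rw [wval_cons, map_mul, Equiv.Perm.mul_apply]
    cases ε with
    | true =>
      have h1 : pinD Γ a (if (b, true).2 then gen Γ (b, true).1 else (gen Γ (b, true).1)⁻¹) =
          pinE Γ a b := raagLift_gen _ _ _ _
      rw [h1]
      change (pinD Γ a (wval Γ w) 0) ((gen Γ b)⁻¹ • x) +
        (if b = a ∧ x = pinO Γ a then 1 else 0) = _
      rw [ih]
      simp only [pinN]
      by_cases h2 : b = a ∧ x = pinO Γ a
      · simp [h2]
        ring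
      · simp [h2]
    | false =>
      have h1 : pinD Γ a (if (b, false).2 then gen Γ (b, false).1 else (gen Γ (b, false).1)⁻¹) =
          (pinE Γ a b)⁻¹ := by
        change pinD Γ a (gen Γ b)⁻¹ = _
        rw [map_inv]
        exact congrArg _ (raagLift_gen _ _ _ _)
      rw [h1]
      change (pinD Γ a (wval Γ w) 0) (gen Γ b • x) -
        (if b = a ∧ gen Γ b • x = pinO Γ a then 1 else 0) = _
      rw [ih]
      simp only [pinN]
      by_cases h2 : b = a ∧ gen Γ b • x = pinO Γ a
      · simp [h2]
        ring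
      · simp [h2]

/-- the letter after `p` has the wall `x` -/
def pinW (Γ : SimpleGraph L) (a : L) (p : List (L × Bool)) (ε : Bool) (x : pinX Γ a) : Prop :=
  (if ε then (wval Γ p)⁻¹ • x else gen Γ a • (wval Γ p)⁻¹ • x) = pinO Γ a

theorem pinW_cons (y : L × Bool) (p : List (L × Bool)) (ε : Bool) (x : pinX Γ a) :
    pinW Γ a (y :: p) ε x ↔ pinW Γ a p ε ((if y.2 then gen Γ y.1 else (gen Γ y.1)⁻¹)⁻¹ • x) := by
  unfold pinW
  rw [wval_cons, mul_inv_rev, mul_smul]

theorem pinN_pos {w : List (L × Bool)} {ε : Bool} {x : pinX Γ a} (h : pinN Γ a w ε x ≠ 0) :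
    ∃ p q, w = p ++ (a, ε) :: q ∧ pinW Γ a p ε x := by
  induction w generalizing x with
  | nil => exact absurd rfl h
  | cons y w ih =>
    obtain ⟨b, ε'⟩ := y
    cases ε' with
    | true =>
      by_cases h1 : b = a ∧ ε = true ∧ x = pinO Γ a
      · obtain ⟨rfl, rfl, rfl⟩ := h1
        refine ⟨[], w, rfl, ?_⟩
        unfold pinW wval
        simp
      · simp only [pinN, h1, if_false, add_zero] at h
        obtain ⟨p, q, h2, h3⟩ := ih h
        refine ⟨(b, true) :: p, q, by rw [h2, List.cons_append], ?_⟩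
        rw [pinW_cons]
        exact h3
    | false =>
      by_cases h1 : b = a ∧ ε = false ∧ gen Γ b • x = pinO Γ a
      · obtain ⟨rfl, rfl, h4⟩ := h1
        refine ⟨[], w, rfl, ?_⟩
        unfold pinW wval
        simp [h4]
      · simp only [pinN, h1, if_false, add_zero] at h
        obtain ⟨p, q, h2, h3⟩ := ih h
        refine ⟨(b, false) :: p, q, by rw [h2, List.cons_append], ?_⟩
        rw [pinW_cons]
        simpa using h3

theorem pinN_of {p q : List (L × Bool)} {ε : Bool} {x : pinX Γ a} (h : pinW Γ a p ε x) :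
    pinN Γ a (p ++ (a, ε) :: q) ε x ≠ 0 := by
  induction p generalizing x with
  | nil =>
    unfold pinW wval at h
    cases ε with
    | true =>
      have h1 : x = pinO Γ a := by simpa using h
      simp only [List.nil_append, pinN, h1, and_self, if_true]
      omega
    | false =>
      have h1 : gen Γ a • x = pinO Γ a := by simpa using h
      simp only [List.nil_append, pinN, h1, and_self, if_true]
      omega
  | cons y p ih =>
    obtain ⟨b, ε'⟩ := y
    rw [pinW_cons] at h
    cases ε' with
    | true =>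
      have h1 := ih (x := (gen Γ b)⁻¹ • x) h
      simp only [List.cons_append, pinN]
      omega
    | false =>
      have h1 := ih (x := gen Γ b • x) (by simpa using h)
      simp only [List.cons_append, pinN]
      omega

theorem pinD_vsub {S : Set L} (ha : a ∉ S) {r : RAAG Γ} (hr : r ∈ vsub Γ S) :
    pinD Γ a r 0 = 0 := by
  unfold vsub at hr
  induction hr using Subgroup.closure_induction with
  | mem y hy =>
    obtain ⟨b, hb, rfl⟩ := hy
    have h1 : pinD Γ a (gen Γ b) = pinE Γ a b := raagLift_gen _ _ _ _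
    rw [h1]
    funext x
    have h2 : b ≠ a := by
      rintro rfl
      exact ha hb
    change (0 : ℤ) + (if b = a ∧ x = pinO Γ a then 1 else 0) = 0
    simp [h2]
  | one => rw [map_one]; rfl
  | mul y z _ _ hy hz => rw [map_mul, Equiv.Perm.mul_apply, hz, hy]
  | inv y _ hy =>
    rw [map_inv]
    exact (Equiv.Perm.inv_eq_iff_eq).2 hy.symm

theorem pin_cent {y : RAAG Γ} (hy : y ∈ vsub Γ {b | Γ.Adj a b}) :
    gen Γ a * y = y * gen Γ a := by
  have h1 : vsub Γ {b | Γ.Adj a b} ≤ Subgroup.centralizer {gen Γ a} := by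
    unfold vsub
    rw [Subgroup.closure_le]
    rintro _ ⟨b, hb, rfl⟩
    rw [SetLike.mem_coe, Subgroup.mem_centralizer_singleton_iff]
    exact (gen_comm hb).symm
  exact (Subgroup.mem_centralizer_singleton_iff.1 (h1 hy)).symm

theorem pin_mid {p m : List (L × Bool)} {ε : Bool} {x : pinX Γ a} (h : pinW Γ a p ε x)
    (h' : pinW Γ a (p ++ (a, ε) :: m) (!ε) x) : wval Γ m ∈ vsub Γ {b | Γ.Adj a b} := by
  unfold pinW at h h'
  rw [wval_append, wval_cons] at h'
  cases ε with
  | true =>
    simp only [if_true, Bool.not_true, Bool.false_eq_true, if_false] at h h'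
    have h1 : (wval Γ p * (gen Γ a * wval Γ m))⁻¹ • x =
        ((wval Γ m)⁻¹ * (gen Γ a)⁻¹) • ((wval Γ p)⁻¹ • x) := by
      rw [smul_smul]
      congr 1
      group
    rw [h1, h, smul_smul, pin_smul_o] at h'
    have h2 := pin_cent h'
    have h3 : wval Γ m = (gen Γ a * ((wval Γ m)⁻¹ * (gen Γ a)⁻¹))⁻¹ := by
      have h4 : gen Γ a * (gen Γ a * ((wval Γ m)⁻¹ * (gen Γ a)⁻¹)) = gen Γ a * (wval Γ m)⁻¹ := by
        rw [h2]
        group
      have h5 := mul_left_cancel h4
      rw [h5, inv_inv]
    rw [h3]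
    exact inv_mem h'
  | false =>
    simp only [Bool.false_eq_true, if_false, Bool.not_false, if_true] at h h'
    have h1 : (wval Γ p * ((gen Γ a)⁻¹ * wval Γ m))⁻¹ • x =
        (wval Γ m)⁻¹ • (gen Γ a • ((wval Γ p)⁻¹ • x)) := by
      rw [smul_smul, smul_smul]
      congr 1
      group
    rw [h1, h, pin_smul_o] at h'
    exact (inv_mem_iff).1 h'

theorem pin_gen (Γ : SimpleGraph L) : ∀ (k : ℕ) (w : List (L × Bool)), w.length = k → ∀ S : Set L,
    wval Γ w ∈ vsub Γ S → (∃ y ∈ w, y.1 ∉ S) →
    ∃ (p m q : List (L × Bool)) (v : L) (ε : Bool),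
      w = p ++ (v, ε) :: (m ++ (v, !ε) :: q) ∧ ∀ x ∈ m, Γ.Adj v x.1 := by
  intro k
  induction k using Nat.strong_induction_on with
  | _ k ih =>
    intro w hw S hwS hy
    obtain ⟨⟨a, ε⟩, hyw, hyS⟩ := hy
    obtain ⟨p, q, hpq⟩ := List.append_of_mem hyw
    have hD : pinD Γ a (wval Γ w) 0 = 0 := pinD_vsub hyS hwS
    have key : ∃ (p m q : List (L × Bool)) (ε : Bool) (x : pinX Γ a),
        w = p ++ (a, ε) :: (m ++ (a, !ε) :: q) ∧ pinW Γ a p ε x ∧
          pinW Γ a (p ++ (a, ε) :: m) (!ε) x := by
      obtain ⟨x, hx⟩ : ∃ x, pinW Γ a p ε x := by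
        cases ε with
        | true =>
          refine ⟨wval Γ p • pinO Γ a, ?_⟩
          unfold pinW
          simp
        | false =>
          refine ⟨wval Γ p • (gen Γ a)⁻¹ • pinO Γ a, ?_⟩
          unfold pinW
          simp
      have h1 : pinN Γ a w ε x ≠ 0 := by
        rw [hpq]
        exact pinN_of hx
      have h2 : (pinN Γ a w true x : ℤ) - pinN Γ a w false x = 0 := by
        rw [← pinD_eq, hD]
        rfl
      have h3 : pinN Γ a w (!ε) x ≠ 0 := by
        cases ε with
        | true =>
          change pinN Γ a w false x ≠ 0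
          omega
        | false =>
          change pinN Γ a w true x ≠ 0
          omega
      obtain ⟨p', q', hpq', hx'⟩ := pinN_pos h3
      have h4 : p ++ (a, ε) :: q = p' ++ (a, !ε) :: q' := by rw [← hpq, ← hpq']
      rcases List.append_eq_append_iff.1 h4 with ⟨c, hc1, hc2⟩ | ⟨c, hc1, hc2⟩
      · cases c with
        | nil =>
          exfalso
          rw [List.nil_append] at hc2
          have := congrArg Prod.snd (List.cons.inj hc2).1
          cases ε <;> simp at this
        | cons z c =>
          obtain ⟨h5, h6⟩ := List.cons.inj hc2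
          refine ⟨p, c, q', ε, x, ?_, hx, ?_⟩
          · rw [hpq, h6]
            rfl
          · rw [h5, ← hc1]
            exact hx'
      · cases c with
        | nil =>
          exfalso
          rw [List.nil_append] at hc2
          have := congrArg Prod.snd (List.cons.inj hc2).1
          cases ε <;> simp at this
        | cons z c =>
          obtain ⟨h5, h6⟩ := List.cons.inj hc2
          refine ⟨p', c, q, !ε, x, ?_, hx', ?_⟩
          · rw [hpq', h6, Bool.not_not]
            rfl
          · rw [h5, ← hc1, Bool.not_not]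
            exact hx
    obtain ⟨p, m, q, ε, x, h1, h2, h3⟩ := key
    have h4 := pin_mid h2 h3
    by_cases h5 : ∀ x ∈ m, Γ.Adj a x.1
    · exact ⟨p, m, q, a, ε, h1, h5⟩
    · push Not at h5
      have hlen : m.length < k := by
        rw [← hw, h1]
        simp only [List.length_append, List.length_cons]
        omega
      obtain ⟨p', m', q', v, ε', h6, h7⟩ := ih m.length hlen m rfl _ h4 h5
      refine ⟨p ++ (a, ε) :: p', m', q' ++ (a, !ε) :: q, v, ε', ?_, h7⟩
      rw [h1, h6]
      simp only [List.append_assoc, List.cons_append]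

end pin

/-- A nonempty word with trivial value contains a pinch.

Proof. More generally: **if the value of `w` is in `vsub Γ S` and `w` contains a letter whose vertex `a` is not in `S`,
then `w` has a pinch** (the theorem is the case `S = ∅`, `vsub Γ ∅ = ⊥`). Induction on the length of `w`. For the vertex
`a` let `A := vsub Γ {b | Γ.Adj a b}` and let `RAAG Γ` act on the functions `(RAAG Γ ⧸ A) → ℤ` by the homomorphism
`D : RAAG Γ →* Equiv.Perm ((RAAG Γ ⧸ A) → ℤ)` (`raagLift`): the generator of `b ≠ a` acts by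
`u ↦ fun x => u ((gen b)⁻¹ • x)` and the generator of `a` by
`u ↦ fun x => u ((gen a)⁻¹ • x) + (if x = (1 : RAAG Γ ⧸ A) then 1 else 0)`
(adjacent generators give commuting permutations: if `Γ.Adj a b` then `gen b ∈ A` fixes the coset `1`). By induction on
the word, `D (wval Γ w) 0` is the sum over the letters `(a, ε)` of `w`, `w = p ++ (a, ε) :: q`, of `± 1` (the sign given
by `ε`) at the coset of `wval Γ p` if `ε = true` and of `wval Γ (p ++ [(a, false)])` if `ε = false` (call it the wall
of the letter). On the other hand `D r 0 = 0` for all `r ∈ vsub Γ S`, as `a ∉ S` (closure induction). As `w` contains a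
letter with vertex `a`, there must be two letters with vertex `a`, with different signs and the same wall:
`w = p ++ (a, ε) :: (m ++ (a, !ε) :: q)`, and the equality of the walls says `wval Γ m ∈ A` in both cases (`ε = true`:
the walls are the cosets of `wval p` and of `wval p * gen a * wval m * (gen a)⁻¹`, so `gen a * wval m * (gen a)⁻¹ ∈ A`,
and `gen a` commutes with all elements of `A`; `ε = false`: the cosets of `wval p * (gen a)⁻¹` and of
`wval p * (gen a)⁻¹ * wval m`). If all vertices of `m` are adjacent to `a` this is a pinch. Otherwise `m` contains a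
letter whose vertex is not adjacent to `a`, and the induction hypothesis applies to `m` and `S := {b | Γ.Adj a b}`: `m`
has a pinch, so `w` has. (A convenient form of the first step: for all `w` and all starting points `g : RAAG Γ`, if `w`
contains a letter `(a, ε)` with wall `x` (walls relative to the start `g`) and no letter `(a, !ε)` with wall `x`, then
the sum at `x` is nonzero.) -/
theorem pinch {L : Type} (Γ : SimpleGraph L) (w : List (L × Bool)) (hw : w ≠ [])
    (h : wval Γ w = 1) :
    ∃ (p m q : List (L × Bool)) (v : L) (ε : Bool),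
      w = p ++ (v, ε) :: (m ++ (v, !ε) :: q) ∧ ∀ x ∈ m, Γ.Adj v x.1 := by
  cases w with
  | nil => exact absurd rfl hw
  | cons y w =>
    exact pin_gen Γ _ (y :: w) rfl ∅ (by rw [h]; exact one_mem _)
      ⟨y, List.mem_cons_self, Set.notMem_empty _⟩

end Pool.Agent.H13.BD
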