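import Pool.Agent.H13.BD.Rel
import Pool.Agent.H13.BD.ML

/-!
# The relations of a system depend only on its edges
-/

set_option autoImplicit false

open Classical

namespace Pool.Agent.H13.BD

open Pool.Agent.H13.TFG

/-- the homomorphism of the block permutations -/
def mlpF {V V' : Type} (π : V' → V) (S : Sys V) (R : Sys V') : Bl V →* GG S.Z × GG R.Z :=
  (S.F).prod (R.F.comp (Sys.blc π))

/-- the token moves -/
noncomputable def mlpT {V V' : Type} [Finite V] [Finite V'] (π : V' → V) (S : Sys V)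
    (R : Sys V') (c : V) : GG S.Z × GG R.Z := (S.t {c}, R.t (π ⁻¹' {c}))

theorem mlp_model {V V' : Type} [Finite V] [Finite V'] (π : V' → V) (S : Sys V) (R : Sys V')
    (hE : ∀ v w, (R.push π).Edge v w → S.Edge v w) :
    IsModel S.Edge (mlpF π S R) (mlpT π S R) := by
  have hm := Sys.model_push R π
  refine ⟨fun e he => ?_, fun c e => ?_, fun c d => ?_, fun c hc => ?_⟩
  · exact Prod.ext (S.rel_a e he) (hm.rela e fun v w hvw => he v w (hE v w hvw))
  · exact Prod.ext (S.rel_b {c} e) (hm.relb c e)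
  · exact Prod.ext (S.rel_c {c} {d}) (hm.relc c d)
  · refine Prod.ext (S.rel_d {c} fun b hb => hc (S.c (S.T.symm b)) ⟨S.T.symm b, rfl, ?_⟩)
      (hm.reld c fun v hv => hc v (hE v c hv))
    rw [Equiv.apply_symm_apply]
    exact hb

theorem mlp_inr {V V' : Type} [Finite V] [Finite V'] (π : V' → V) (S : Sys V) (R : Sys V')
    (A : Set V) : ((S.t A, R.t (π ⁻¹' A)) : GG S.Z × GG R.Z) ∈
      Subgroup.closure (Set.range (mlpF π S R) ∪ Set.range (mlpT π S R)) := by
  induction A, Set.toFinite A using Set.Finite.induction_on with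
  | empty =>
    have h1 : ((S.t ∅, R.t (π ⁻¹' ∅)) : GG S.Z × GG R.Z) = 1 := by
      rw [Set.preimage_empty, S.t_empty, R.t_empty]
      rfl
    rw [h1]
    exact Subgroup.one_mem _
  | @insert c A hc _ ih =>
    have h1 : insert c A = A ∪ {c} := by
      rw [Set.union_singleton]
    have h2 : Disjoint A {c} := Set.disjoint_singleton_right.2 hc
    have h3 : Disjoint (π ⁻¹' A) (π ⁻¹' {c}) := h2.preimage π
    have h4 : ((S.t (insert c A), R.t (π ⁻¹' (insert c A))) : GG S.Z × GG R.Z) =
        mlpT π S R c * mlpF π S R (sw fun v w => v ∈ A ∧ w ∈ ({c} : Set V)) *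
          (S.t A, R.t (π ⁻¹' A)) := by
      rw [h1, Set.preimage_union, S.rel_u A {c} h2, R.rel_u (π ⁻¹' A) (π ⁻¹' {c}) h3]
      rfl
    rw [h4]
    refine Subgroup.mul_mem _ (Subgroup.mul_mem _ ?_ ?_) ih
    · exact Subgroup.subset_closure (Or.inr ⟨c, rfl⟩)
    · exact Subgroup.subset_closure (Or.inl ⟨_, rfl⟩)

theorem mlp_ev_inl {V : Type} [Finite V] (S : Sys V) (e : V → V → Fin1) :
    S.ev (FreeGroup.of (Sum.inl e)) = S.F (fun v w => (e v w : Equiv.Perm ℕ)) := by
  unfold Sys.ev
  rw [FreeGroup.lift_apply_of, Sum.elim_inl]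

theorem mlp_ev_inr {V : Type} [Finite V] (S : Sys V) (A : Set V) :
    S.ev (FreeGroup.of (Sum.inr A)) = S.t A := by
  unfold Sys.ev
  rw [FreeGroup.lift_apply_of, Sum.elim_inr]

theorem mlp_rf_inl {V V' : Type} (π : V' → V) (e : V → V → Fin1) :
    rf π (FreeGroup.of (Sum.inl e)) = FreeGroup.of (Sum.inl fun v w => e (π v) (π w)) := by
  unfold rf
  rw [FreeGroup.map.of, Sum.map_inl]

theorem mlp_rf_inr {V V' : Type} (π : V' → V) (A : Set V) :
    rf π (FreeGroup.of (Sum.inr A)) = FreeGroup.of (Sum.inr (π ⁻¹' A)) := by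
  unfold rf
  rw [FreeGroup.map.of, Sum.map_inr]

/-- the homomorphism given by both systems -/
noncomputable def mlpH {V V' : Type} [Finite V] [Finite V'] (π : V' → V) (S : Sys V)
    (R : Sys V') : PP V →* GG S.Z × GG R.Z := (S.ev).prod (R.ev.comp (rf π))

theorem mlp_mem {V V' : Type} [Finite V] [Finite V'] (π : V' → V) (S : Sys V) (R : Sys V')
    (p : PP V) : mlpH π S R p ∈
      Subgroup.closure (Set.range (mlpF π S R) ∪ Set.range (mlpT π S R)) := by
  induction p using FreeGroup.induction_on with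
  | C1 =>
    rw [map_one]
    exact Subgroup.one_mem _
  | of x =>
    rcases x with e | A
    · refine Subgroup.subset_closure (Or.inl ⟨fun v w => (e v w : Equiv.Perm ℕ), ?_⟩)
      refine Prod.ext (mlp_ev_inl S e).symm ?_
      have h1 : R.ev (rf π (FreeGroup.of (Sum.inl e))) =
          R.F (fun v w => (e (π v) (π w) : Equiv.Perm ℕ)) := by
        rw [mlp_rf_inl, mlp_ev_inl]
      exact h1.symm
    · have h1 := mlp_inr π S R A
      have h2 : mlpH π S R (FreeGroup.of (Sum.inr A)) =
          ((S.t A, R.t (π ⁻¹' A)) : GG S.Z × GG R.Z) := by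
        refine Prod.ext (mlp_ev_inr S A) ?_
        have h3 : R.ev (rf π (FreeGroup.of (Sum.inr A))) = R.t (π ⁻¹' A) := by
          rw [mlp_rf_inr, mlp_ev_inr]
        exact h3
      rw [h2]
      exact h1
  | inv_of x hx =>
    rw [map_inv]
    exact Subgroup.inv_mem _ hx
  | mul p q hp hq =>
    rw [map_mul]
    exact Subgroup.mul_mem _ hp hq

/-- An element of the free group which is trivial in `GG S.Z` is trivial in `GG R.Z`, also for finer colours, if the edges
of `R` are edges of `S`.

Proof. `G := GG S.Z × GG R.Z`, `f := (S.F).prod (R.F.comp (Sys.blc π))`, `t c := (S.t {c}, R.t (π ⁻¹' {c}))`. This is a model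
for `S.Edge`: the second component by `Sys.model_push R π` and `hE` (for `rela`, `reld`: an edge of `R.push π` is an edge
of `S`), the first by `Sys.model_push S id` (or directly by `Sys.rel_a`, …). With `ev := MonoidHom.fst`, `ml` applies
(`S.t {c}` is `⟨g1 _, _⟩` by `LA_single`). It remains to see that `(S.ev p, R.ev (rf π p))` is in the subgroup generated
by the generators: this is a homomorphism of `p` (`FreeGroup.lift`, `FreeGroup.induction_on`), for `p = of (inl e)` it is a
value of `f`, for `p = of (inr A)` it is `(S.t A, R.t (π ⁻¹' A))`, and by induction on the finite set `A`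
(`Set.Finite.induction_on` or `Finset.induction_on` with `Set.toFinite A`) it is in the subgroup: `A = ∅`: `Sys.t_empty`;
`insert c A` with `c ∉ A`: `Sys.rel_u` for `A` and `{c}` (`A ∪ {c}`), and for `π ⁻¹' A`, `π ⁻¹' {c}`:
`S.t (A ∪ {c}) = S.t {c} * S.F (sw _) * S.t A`. -/
theorem mlp {V V' : Type} [Finite V] [Finite V'] (π : V' → V) (S : Sys V) (R : Sys V')
    (hE : ∀ v w, (R.push π).Edge v w → S.Edge v w) (p : PP V) (hp : S.ev p = 1) :
    R.ev (rf π p) = 1 := by
  have h1 := ml S (mlpF π S R) (mlpT π S R) (mlp_model π S R hE) (MonoidHom.fst _ _)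
    (fun _ => rfl) (fun c => by
      show (⟨LA S.c (S.st 1) {c}, S.bT {c}⟩ : GG S.Z) = _
      rw [LA_single]) _ (mlp_mem π S R p) hp
  exact congrArg Prod.snd h1

end Pool.Agent.H13.BD
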