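import Pool.Agent.H13.BD.Apx
import Pool.Agent.H13.BD.Dye
import Pool.Agent.H13.BD.Hat
import Pool.Agent.H13.BD.Gen
import Pool.Agent.H13.BD.Col

/-!
# The wobbling group is in the class
-/

set_option autoImplicit false

open Classical

namespace Pool.Agent.H13.BD

open Pool.Agent.H98.FJ

/-- `hat` is injective and maps the wobbling group into `BQ`: `wb_gen`, `hat_gs` -/
theorem hat_wb {Ω : Type} (g : Equiv.Perm (Ω × ℤ)) (hg : g ∈ Wb Ω) : hat g ∈ BQ Ω := by
  have h1 : Subgroup.closure (GS Ω) ≤ (BQ Ω).comap hat := by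
    rw [Subgroup.closure_le]
    intro g hg
    exact hat_gs g hg
  exact h1 (wb_gen g hg)

theorem mai_rf_id {V : Type} (π : V → V) (hπ : ∀ v, π v = v) (p : PP V) : rf π p = p := by
  obtain rfl : π = id := funext hπ
  have h1 : (Sum.map (fun (e : V → V → Fin1) v w => e (id v) (id w)) (fun A => id ⁻¹' A) :
      Gn V → Gn V) = id := by
    funext x
    rcases x with e | A
    · rfl
    · rfl
  unfold rf
  rw [h1]
  exact FreeGroup.map.id p

theorem mai_rf_comp {V V' V'' : Type} (π : V' → V) (π' : V'' → V') (π'' : V'' → V)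
    (h : ∀ v, π'' v = π (π' v)) (p : PP V) : rf π' (rf π p) = rf π'' p := by
  obtain rfl : π'' = fun v => π (π' v) := funext h
  unfold rf
  rw [FreeGroup.map.comp]
  have h1 : ((Sum.map (fun (e : V' → V' → Fin1) v w => e (π' v) (π' w)) (fun A => π' ⁻¹' A)) ∘
      (Sum.map (fun (e : V → V → Fin1) v w => e (π v) (π w)) (fun A => π ⁻¹' A)) :
        Gn V → Gn V'') =
      Sum.map (fun (e : V → V → Fin1) v w => e (π (π' v)) (π (π' w)))
        (fun A => (fun v => π (π' v)) ⁻¹' A) := by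
    funext x
    rcases x with e | A
    · rfl
    · rfl
  rw [h1]

theorem mai_Ph {Ω : Type} {i j : Finset (Set (Ω × ℤ))} (h : i ≤ j) (p : PP (i → Prop)) :
    (ysys (cl j)).Ph (rf (rs h) p) = (ysys (cl i)).Ph p :=
  Ph_rf (rs h) (ysys (cl j)) p

/-- the transition maps -/
noncomputable def maiR {Ω : Type} (i j : Finset (Set (Ω × ℤ))) (h : i ≤ j) :
    P0 (cl i) →* P0 (cl j) :=
  ((rf (rs h)).comp (P0 (cl i)).subtype).codRestrict (P0 (cl j)) (fun x => by
    have h1 : (ysys (cl i)).Ph x.1 ∈ FH (Ω × ℤ) := x.2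
    rw [← mai_Ph h x.1] at h1
    exact h1)

theorem maiR_val {Ω : Type} (i j : Finset (Set (Ω × ℤ))) (h : i ≤ j) (x : P0 (cl i)) :
    (maiR i j h x).1 = rf (rs h) x.1 := rfl

/-- the maps to the colimit -/
noncomputable def maiPhi {Ω : Type} (i : Finset (Set (Ω × ℤ))) : P0 (cl i) →* BQ Ω :=
  ((ysys (cl i)).Ph.comp (P0 (cl i)).subtype).codRestrict (BQ Ω) (fun x => ⟨x.2, i, x.1, rfl⟩)

theorem maiPhi_val {Ω : Type} (i : Finset (Set (Ω × ℤ))) (x : P0 (cl i)) :
    (maiPhi i x).1 = (ysys (cl i)).Ph x.1 := rfl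

theorem mai_mem {Ω V : Type} [Finite V] (c : Ω × ℤ → V) (x : P0 c) :
    x ∈ N0 c ↔ (ysys c).core.ev x.1 = 1 ∧ (ysys c).Ph x.1 = 1 := by
  unfold N0
  rw [MonoidHom.mem_ker]
  constructor
  · intro h
    exact ⟨congrArg Prod.fst h, congrArg Prod.snd h⟩
  · rintro ⟨h1, h2⟩
    exact Prod.ext h1 h2

theorem mai_die {Ω : Type} (i : Finset (Set (Ω × ℤ))) (p : PP (i → Prop))
    (hp : (ysys (cl i)).Ph p = 1) : ∃ (j : Finset (Set (Ω × ℤ))) (h : i ≤ j),
      (ysys (cl j)).core.ev (rf (rs h) p) = 1 := by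
  obtain ⟨Q, hQ, q, H⟩ := dye (cl i) p hp
  have hQf : Fintype Q := Fintype.ofFinite Q
  let j : Finset (Set (Ω × ℤ)) := i ∪ Finset.univ.image (fun κ : Q => q ⁻¹' {κ})
  have hij : i ≤ j := Finset.subset_union_left
  refine ⟨j, hij, ?_⟩
  have h1 : (ysys (cl j)).ev (rf (rs hij) p) = 1 := by
    refine H (j → Prop) (cl j) (rs hij) (fun y => rs_cl hij y) ?_
    intro y y' hy
    have hD : q ⁻¹' {q y} ∈ j := Finset.mem_union_right _
      (Finset.mem_image_of_mem _ (Finset.mem_univ (q y)))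
    have h2 := congrFun hy ⟨q ⁻¹' {q y}, hD⟩
    have h3 : y' ∈ q ⁻¹' {q y} := h2.mp rfl
    exact (Set.mem_singleton_iff.1 h3).symm
  have h2 := mlp id (ysys (cl j)) (ysys (cl j)).core (fun v w h => by
    have h3 : (ysys (cl j)).core.Edge v w := h
    exact (((ysys (cl j)).core_edge v w).1 h3).edge) (rf (rs hij) p) h1
  rwa [mai_rf_id id (fun _ => rfl)] at h2

/-- Proof. `col` for `ι := Finset (Set (Ω × ℤ))`, `P i := P0 (cl i)`, `r i j h` the restriction of `rf (rs h)` (it maps `P0` to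
`P0` by `Ph_rf`), `Φ i` the restriction of `(ysys (cl i)).Ph` to a homomorphism to `BQ Ω`, `N i := N0 (cl i)`. `r_id`, `r_comp`:
`FreeGroup.map.comp`, `FreeGroup.map.id`, or `FreeGroup.ext_hom`. `hr`: if `core.ev p = 1` then the same holds for
`rf (rs h) p` by `mlp` with `S := (ysys (cl i)).core`, `R := (ysys (cl j)).core`, `π := rs h` and `Sys.core_push`
(`(ysys (cl j)).push (rs h) = ysys (cl i)` by `rfl`). `die`: if `(ysys (cl i)).Ph p = 1` then let `Q`, `q` be given by `dye`;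
let `j` be the union of `i` and the finitely many sets `q ⁻¹' {κ}`, `κ : Q`; then `(ysys (cl j)).ev (rf (rs h) p) = 1` by
`dye`, so `(ysys (cl j)).core.ev (rf (rs h) p) = 1` by `mlp` with `S := ysys (cl j)`, `R := core`, `π := id` (`rf id p = p`,
`Sys.core_edge`, `Sys.Rec.edge`). `surj`: the definition of `BQ`. `hG`: `apx`. -/
theorem bq_mem {C : (G : Type) → [Group G] → Prop} (hC : Inherits C) (hE : Extension C)
    (Ω : Type) : C (BQ Ω) := by
  refine col hC (ι := Finset (Set (Ω × ℤ))) (fun i => P0 (cl i)) maiR ?_ ?_ (BQ Ω) maiPhi ?_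
    (fun i => N0 (cl i)) ?_ ?_ ?_ ?_ (fun i => apx hC hE (cl i))
  · intro i h x
    apply Subtype.ext
    rw [maiR_val]
    exact mai_rf_id _ (fun _ => rfl) _
  · intro i j k hij hjk hik x
    apply Subtype.ext
    rw [maiR_val, maiR_val, maiR_val]
    exact mai_rf_comp (rs hij) (rs hjk) (rs hik) (fun _ => rfl) x.1
  · intro i j h x
    apply Subtype.ext
    rw [maiPhi_val, maiPhi_val, maiR_val]
    exact mai_Ph h x.1
  · intro i x hx
    apply Subtype.ext
    exact ((mai_mem (cl i) x).1 hx).2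
  · intro i j h x hx
    have h1 := (mai_mem (cl i) x).1 hx
    refine (mai_mem (cl j) _).2 ⟨?_, ?_⟩
    · rw [maiR_val]
      exact mlp (rs h) (ysys (cl i)).core (ysys (cl j)).core
        (fun v w hvw => Sys.core_push (ysys (cl j)) (rs h) v w hvw) x.1 h1.1
    · rw [maiR_val, mai_Ph]
      exact h1.2
  · rintro ⟨q, hq, i, p, hp⟩
    refine ⟨i, ⟨p, ?_⟩, Subtype.ext hp⟩
    have h1 : (ysys (cl i)).Ph p ∈ FH (Ω × ℤ) := by
      rw [hp]
      exact hq
    exact h1
  · intro i x hx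
    have hp : (ysys (cl i)).Ph x.1 = 1 := congrArg Subtype.val hx
    obtain ⟨j, h, h1⟩ := mai_die i x.1 hp
    refine ⟨j, h, (mai_mem (cl j) _).2 ⟨?_, ?_⟩⟩
    · rw [maiR_val]
      exact h1
    · rw [maiR_val, mai_Ph]
      exact hp

/-- `hat` embeds `Wb Ω` in `BQ Ω` -/
theorem wb_mem {C : (G : Type) → [Group G] → Prop} (hC : Inherits C) (hE : Extension C)
    (Ω : Type) : C (Wb Ω) := by
  let j : Wb Ω →* BQ Ω := (hat.comp (Wb Ω).subtype).codRestrict (BQ Ω) (fun g => hat_wb g.1 g.2)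
  refine hC.of_injective j ?_ (bq_mem hC hE Ω)
  intro g h hgh
  apply Subtype.ext
  apply Equiv.ext
  intro y
  have h1 : hat (g : Equiv.Perm (Ω × ℤ)) = hat (h : Equiv.Perm (Ω × ℤ)) :=
    congrArg Subtype.val hgh
  have h2 := DFunLike.congr_fun h1 (y, 0)
  rw [hat_zero, hat_zero] at h2
  exact congrArg Prod.fst h2

end Pool.Agent.H13.BD
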