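import Pool.Agent.H13.BD.Defs

/-!
# Relations between token moves and block permutations, in the group of permutations of `Y × ℕ`

All proofs: `Equiv.ext`, a slot `(y, n)`, cases `n = 0`, `n = 1`, `n = k + 2` where necessary, and cases for
`y ∈ A`, `T y ∈ A`, `y ∈ B`, `T y ∈ B` (and, for the slots moved to the block of `T y`, the block of `T y`: only
`T y ∈ A`, `T y ∈ B` matter as a token moved there arrives in the slot `0` or `1`, and the swaps at `T y` depend on
`T (T y)`), using `tau_apply`, `bp_apply`, `ii_pos`, `ii_neg`, `Equiv.swap_apply_left`, `Equiv.swap_apply_right`,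
`Equiv.swap_apply_of_ne_of_ne`.
-/

set_option autoImplicit false

open Classical

namespace Pool.Agent.H13.BD

variable {Y : Type} (T : Equiv.Perm Y)

/-- swap the slots `0` and `1` if `p` -/
noncomputable def swp (p : Prop) : Equiv.Perm ℕ := if p then Equiv.swap 0 1 else 1

theorem swp_pos {p : Prop} (h : p) : swp p = Equiv.swap 0 1 := if_pos h

theorem swp_neg {p : Prop} (h : ¬ p) : swp p = 1 := if_neg h

theorem sw2 (n : ℕ) : (Equiv.swap 0 1 : Equiv.Perm ℕ) (n + 2) = n + 2 :=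
  Equiv.swap_apply_of_ne_of_ne (by omega) (by omega)

theorem tau_empty : tau T ∅ = 1 := by
  ext1 ⟨y, n⟩
  simp [tau_apply]

theorem tau_bp (B : Set Y) (e : Y → Equiv.Perm ℕ) :
    tau T B * bp (fun y => if T y ∈ B then up (e y) else e y) =
      bp (fun y => if y ∈ B then up (e y) else e y) * tau T B := by
  ext1 ⟨y, n⟩
  rw [Equiv.Perm.mul_apply, Equiv.Perm.mul_apply, bp_apply]
  by_cases h1 : T y ∈ B <;> by_cases h2 : y ∈ B <;> rcases n with _ | n <;>
    simp [tau_apply, h1, h2]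

theorem tau_tau (A B : Set Y) :
    tau T A * (bp (fun y => swp (y ∈ B ∧ T y ∈ A)) * tau T B *
        bp (fun y => swp (T y ∈ B ∧ T y ∈ A))) =
      (bp (fun y => swp (y ∈ B ∧ y ∈ A)) * tau T B *
        bp (fun y => swp (T y ∈ B ∧ y ∈ A))) * tau T A := by
  ext1 ⟨y, n⟩
  simp only [Equiv.Perm.mul_apply, bp_apply]
  by_cases h1 : T y ∈ A <;> by_cases h2 : T y ∈ B <;> by_cases h3 : y ∈ A <;>
    by_cases h4 : y ∈ B <;> rcases n with _ | _ | n <;>
    by_cases h5 : T (T y) ∈ A <;> by_cases h6 : T (T y) ∈ B <;>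
    simp [tau_apply, h1, h2, h3, h4, h5, h6, swp, sw2]

theorem tau_union (A B : Set Y) (h : Disjoint A B) :
    tau T (A ∪ B) = tau T B * bp (fun y => swp (y ∈ A ∧ T y ∈ B)) * tau T A := by
  ext1 ⟨y, n⟩
  have hd : ∀ z, z ∈ A → z ∉ B := fun z h1 h2 => Set.disjoint_left.1 h h1 h2
  simp only [Equiv.Perm.mul_apply, bp_apply]
  by_cases h1 : T y ∈ A <;> by_cases h2 : T y ∈ B <;> by_cases h3 : y ∈ A <;>
    by_cases h4 : y ∈ B <;> rcases n with _ | _ | n <;>
    by_cases h5 : T (T y) ∈ A <;> by_cases h6 : T (T y) ∈ B <;>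
    first
      | exact absurd h2 (hd _ h1)
      | exact absurd h4 (hd _ h3)
      | simp [tau_apply, h1, h2, h3, h4, h5, h6, swp, sw2]

theorem slot_union (A B : Set Y) (h : Disjoint A B) (b : Y) (hb : b ∈ A) :
    (tau T B * bp (fun y => swp (y ∈ A ∧ T y ∈ B))) (b, 0) = (b, 0) := by
  have hd : b ∉ B := fun h2 => Set.disjoint_left.1 h hb h2
  simp only [Equiv.Perm.mul_apply, bp_apply]
  by_cases h2 : T b ∈ B <;> simp [tau_apply, h2, hb, hd, swp]

theorem slot_tau1 (A B : Set Y) (b : Y) (hb : b ∈ A) :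
    (bp (fun y => swp (y ∈ B ∧ y ∈ A)) * tau T B * bp (fun y => swp (T y ∈ B ∧ y ∈ A))) (b, 0) =
      (b, 0) := by
  simp only [Equiv.Perm.mul_apply, bp_apply]
  by_cases h2 : T b ∈ B <;> by_cases h4 : b ∈ B <;> simp [tau_apply, h2, h4, hb, swp]

theorem slot_tau2 (A B : Set Y) (b : Y) (hb : b ∈ B) :
    (tau T A * bp (fun y => swp (y ∈ B ∧ T y ∈ A))) (b, 0) = (b, ii (b ∈ A)) := by
  simp only [Equiv.Perm.mul_apply, bp_apply]
  by_cases h2 : T b ∈ A <;> by_cases h4 : b ∈ A <;> simp [tau_apply, h2, h4, hb, swp]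

theorem tw_fix (r B : Set Y) (z : Y) (hz : z ∈ r) :
    (bp (fun y => swp (y ∈ B ∧ y ∈ r)) * tau T B * bp (fun y => swp (T y ∈ B ∧ y ∈ r))) (z, 0) =
      (z, 0) := slot_tau1 T r B z hz

end Pool.Agent.H13.BD
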